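import Mathlib

/-!
# SR Band: the banded matrix

`band n m e z`: the matrix with the entry `z_i ^ (e j c)` at `(j, c)`, `c = j + i`, `0 ≤ i ≤ n`.
`band_surj`: surjectivity can be checked modulo every maximal ideal `𝔪` (Nakayama for the cokernel, or: the ideal of all `r` with `r e_j` in the range for all `j` is not in any `𝔪`);
modulo `𝔪` let `i` be the first index with `z_i ≠ 0`; the square submatrix with the columns `j + i` is upper triangular with the diagonal entries `z_i ^ e ≠ 0`, because the entries below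
the diagonal are powers (with positive exponents) of `z_l`, `l < i`.
-/

set_option autoImplicit false

namespace Pool.Agent.SR

open MvPolynomial

universe u

/-- the banded matrix -/
def band {R : Type u} [CommRing R] (n m : ℕ) (e : Fin m → Fin (n + m) → ℕ) (z : Fin (n + 1) → R) : Matrix (Fin m) (Fin (n + m)) R :=
  Matrix.of fun j c => if h : (j : ℕ) ≤ c ∧ (c : ℕ) ≤ j + n then z ⟨c - j, by omega⟩ ^ e j c else 0

theorem band_surj {R : Type u} [CommRing R] (n m : ℕ) {e : Fin m → Fin (n + m) → ℕ} (he : ∀ j c, 1 ≤ e j c) {z : Fin (n + 1) → R}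
    (hz : Ideal.span (Set.range z) = ⊤) : Function.Surjective (band n m e z).mulVec := by
  by_contra hns
  let f := (band n m e z).mulVecLin
  let I : Ideal R := Module.annihilator R ((Fin m → R) ⧸ LinearMap.range f)
  have hI : I ≠ ⊤ := by
    intro h
    apply hns
    intro v
    have h1 : (1 : R) ∈ I := h ▸ Submodule.mem_top
    have h2 := Module.mem_annihilator.1 h1 (Submodule.Quotient.mk v)
    rw [one_smul, Submodule.Quotient.mk_eq_zero] at h2
    exact h2
  obtain ⟨P, hP, hIP⟩ := Ideal.exists_le_maximal I hI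
  have hzi : ∃ i : Fin (n + 1), z i ∉ P := by
    by_contra hc
    push Not at hc
    apply hP.ne_top
    rw [eq_top_iff, ← hz, Ideal.span_le]
    rintro _ ⟨i, rfl⟩
    exact hc i
  classical
  obtain ⟨i, hi, hmin⟩ : ∃ i : Fin (n + 1), z i ∉ P ∧ ∀ l : Fin (n + 1), l < i → z l ∈ P := by
    let s : Finset (Fin (n + 1)) := Finset.univ.filter fun i => z i ∉ P
    have hs : s.Nonempty := by
      obtain ⟨i, hi⟩ := hzi
      exact ⟨i, by simpa [s] using hi⟩
    refine ⟨s.min' hs, ?_, fun l hl => ?_⟩
    · have := s.min'_mem hs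
      simpa [s] using this
    · by_contra hc
      have h1 : l ∈ s := by simpa [s] using hc
      exact absurd (s.min'_le l h1) (not_le.2 hl)
  let g : Fin m → Fin (n + m) := fun j => ⟨j + i, by have := j.2; have := i.2; omega⟩
  let S : Matrix (Fin m) (Fin m) R := (band n m e z).submatrix id g
  have hS : ∀ u : Fin m → R, S.mulVec u ∈ LinearMap.range f := by
    intro u
    refine ⟨((1 : Matrix (Fin (n + m)) (Fin (n + m)) R).submatrix (Equiv.refl _) g).mulVec u, ?_⟩
    change (band n m e z).mulVec _ = _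
    rw [Matrix.mulVec_mulVec, Matrix.mul_submatrix_one]
    rfl
  have hdet : S.det ∈ I := by
    refine Module.mem_annihilator.2 fun v => ?_
    obtain ⟨v, rfl⟩ := Submodule.Quotient.mk_surjective _ v
    rw [← Submodule.Quotient.mk_smul, Submodule.Quotient.mk_eq_zero]
    have h1 : S.det • v = S.mulVec (S.adjugate.mulVec v) := by
      rw [Matrix.mulVec_mulVec, Matrix.mul_adjugate, Matrix.smul_mulVec, Matrix.one_mulVec]
    rw [h1]
    exact hS _
  have hdetP : Ideal.Quotient.mk P S.det = 0 := Ideal.Quotient.eq_zero_iff_mem.2 (hIP hdet)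
  rw [RingHom.map_det] at hdetP
  have htri : ((Ideal.Quotient.mk P).mapMatrix S).BlockTriangular id := by
    intro j j' hjj'
    have hlt : (j' : ℕ) < j := hjj'
    change Ideal.Quotient.mk P (band n m e z j (g j')) = 0
    rw [Ideal.Quotient.eq_zero_iff_mem]
    unfold band
    rw [Matrix.of_apply]
    split_ifs with h
    · refine Ideal.pow_mem_of_mem P (hmin _ ?_) _ (he _ _)
      change ((j' : ℕ) + i) - j < (i : ℕ)
      have h1 : (j : ℕ) ≤ j' + i := h.1
      omega
    · exact P.zero_mem
  rw [Matrix.det_of_isUpperTriangular htri] at hdetP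
  have : P.IsPrime := hP.isPrime
  obtain ⟨j, _, hj⟩ := Finset.prod_eq_zero_iff.1 hdetP
  have h2 : Ideal.Quotient.mk P (band n m e z j (g j)) = 0 := hj
  rw [Ideal.Quotient.eq_zero_iff_mem] at h2
  unfold band at h2
  have hg : ((g j : Fin (n + m)) : ℕ) = j + i := rfl
  have hin : (i : ℕ) ≤ n := Nat.lt_succ_iff.1 i.2
  rw [Matrix.of_apply, dif_pos ⟨by rw [hg]; omega, by rw [hg]; omega⟩] at h2
  have h3 := hP.isPrime.mem_of_pow_mem _ h2
  apply hi
  have h4 : (⟨((g j : Fin (n + m)) : ℕ) - j, by rw [hg]; omega⟩ : Fin (n + 1)) = i := by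
    ext
    change ((g j : Fin (n + m)) : ℕ) - j = i
    rw [hg]
    omega
  rw [h4] at h3
  exact h3

end Pool.Agent.SR
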