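import Pool.Agent.SR.Uni

/-!
# SR Bass: the cancellation theorem of Bass

`cancel_one`: `e (0, 1) = (x, a)` is unimodular; the automorphisms `(z, s) ↦ (z + s y, s)`, `(z, s) ↦ (z, s + (1 - a) ψ z)`, `(z, s) ↦ (z - s (x + a y), s)` of `P × R` move it to `(0, 1)`.
`bass`: `H` is a direct summand of `R^N`; cancel `N` times, `P × R^j` has rank `> d`.
-/

set_option autoImplicit false

namespace Pool.Agent.SR

universe u v w w'

variable {R : Type u} [CommRing R]

private noncomputable def bassAddR {P : Type v} [AddCommGroup P] [Module R P] (y : P) : (P × R) ≃ₗ[R] (P × R) :=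
  LinearEquiv.ofLinearMap
    (LinearMap.prod (LinearMap.fst R P R + (LinearMap.toSpanSingleton R P y) ∘ₗ LinearMap.snd R P R) (LinearMap.snd R P R))
    (LinearMap.prod (LinearMap.fst R P R - (LinearMap.toSpanSingleton R P y) ∘ₗ LinearMap.snd R P R) (LinearMap.snd R P R))
    (by ext <;> simp) (by ext <;> simp)

private theorem bassAddR_apply {P : Type v} [AddCommGroup P] [Module R P] (y : P) (z : P) (s : R) : bassAddR y (z, s) = (z + s • y, s) := by
  simp [bassAddR]

private noncomputable def bassAddL {P : Type v} [AddCommGroup P] [Module R P] (χ : P →ₗ[R] R) : (P × R) ≃ₗ[R] (P × R) :=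
  LinearEquiv.ofLinearMap
    (LinearMap.prod (LinearMap.fst R P R) (LinearMap.snd R P R + χ ∘ₗ LinearMap.fst R P R))
    (LinearMap.prod (LinearMap.fst R P R) (LinearMap.snd R P R - χ ∘ₗ LinearMap.fst R P R))
    (by ext <;> simp) (by ext <;> simp)

private theorem bassAddL_apply {P : Type v} [AddCommGroup P] [Module R P] (χ : P →ₗ[R] R) (z : P) (s : R) : bassAddL χ (z, s) = (z, s + χ z) := by
  simp [bassAddL]

private theorem bass_of_fix {P : Type v} [AddCommGroup P] [Module R P] {P' : Type w} [AddCommGroup P'] [Module R P'] (g : (P' × R) ≃ₗ[R] (P × R)) (h : g (0, 1) = (0, 1)) :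
    Nonempty (P ≃ₗ[R] P') := by
  have hs : g.symm (0, 1) = (0, 1) := by rw [← h, g.symm_apply_apply]
  refine ⟨LinearEquiv.ofLinearMap (LinearMap.fst R P' R ∘ₗ g.symm.toLinearMap ∘ₗ LinearMap.inl R P R) (LinearMap.fst R P R ∘ₗ g.toLinearMap ∘ₗ LinearMap.inl R P' R) ?_ ?_⟩
  · ext z
    obtain ⟨u, s, hus⟩ : ∃ u s, g (z, 0) = (u, s) := ⟨_, _, rfl⟩
    have h1 : g.symm (u, 0) = (z, 0) - s • ((0, 1) : P' × R) := by
      apply g.injective
      rw [g.apply_symm_apply, map_sub, hus, map_smul, h]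
      ext <;> simp
    simp [hus, h1]
  · ext z
    obtain ⟨u, s, hus⟩ : ∃ u s, g.symm (z, 0) = (u, s) := ⟨_, _, rfl⟩
    have h1 : g (u, 0) = (z, 0) - s • ((0, 1) : P × R) := by
      apply g.symm.injective
      rw [g.symm_apply_apply, map_sub, hus, map_smul, hs]
      ext <;> simp
    simp [hus, h1]

theorem cancel_one [IsNoetherianRing R] {δ : PrimeSpectrum R → ℕ} (hδ : ∀ p p', p < p' → δ p' < δ p) {d : ℕ} (hd : ∀ p, δ p ≤ d) {P : Type v} [AddCommGroup P] [Module R P]
    [Module.Finite R P] [Module.Projective R P] (hP : ∀ p : PrimeSpectrum R, d + 1 ≤ Module.rankAtStalk P p) {P' : Type w} [AddCommGroup P'] [Module R P']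
    (e : (P' × R) ≃ₗ[R] (P × R)) : Nonempty (P ≃ₗ[R] P') := by
  obtain ⟨x, a, hxa⟩ : ∃ x a, e (0, 1) = (x, a) := ⟨_, _, rfl⟩
  set l : (P × R) →ₗ[R] R := LinearMap.snd R P' R ∘ₗ e.symm.toLinearMap with hl
  have hlx : l (x, a) = 1 := by
    rw [hl, ← hxa]
    simp
  have hsplit : l (x, a) = l (x, 0) + l (0, 1) * a := by
    have : ((x, a) : P × R) = (x, 0) + a • ((0, 1) : P × R) := by ext <;> simp
    rw [this, map_add, map_smul, smul_eq_mul, mul_comm]
  obtain ⟨y, χ, hχ⟩ := unimod hδ hd hP x a (l ∘ₗ LinearMap.inl R P R) (l (0, 1)) (by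
    rw [LinearMap.comp_apply, LinearMap.inl_apply, ← hsplit, hlx])
  refine bass_of_fix (((e.trans (bassAddR y)).trans (bassAddL ((1 - a) • χ))).trans (bassAddR (-(x + a • y)))) ?_
  simp only [LinearEquiv.trans_apply]
  rw [hxa, bassAddR_apply, bassAddL_apply, bassAddR_apply, LinearMap.smul_apply, hχ]
  ext <;> simp

private noncomputable def bassCons (Q : Type v) [AddCommGroup Q] [Module R Q] (N : ℕ) : (Q × (Fin (N + 1) → R)) ≃ₗ[R] ((Q × (Fin N → R)) × R) :=
  ((LinearEquiv.refl R Q).prodCongr ((Fin.consLinearEquiv R (fun _ : Fin (N + 1) => R)).symm.trans (LinearEquiv.prodComm R R (Fin N → R)))).trans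
    (LinearEquiv.prodAssoc R Q (Fin N → R) R).symm

private theorem bass_pi [IsNoetherianRing R] {δ : PrimeSpectrum R → ℕ} (hδ : ∀ p p', p < p' → δ p' < δ p) {d : ℕ} (hd : ∀ p, δ p ≤ d) {P : Type v} [AddCommGroup P] [Module R P]
    [Module.Finite R P] [Module.Projective R P] (hP : ∀ p : PrimeSpectrum R, d + 1 ≤ Module.rankAtStalk P p) {P' : Type w} [AddCommGroup P'] [Module R P'] (N : ℕ) :
    ∀ _ : (P' × (Fin N → R)) ≃ₗ[R] (P × (Fin N → R)), Nonempty (P ≃ₗ[R] P') := by
  induction N with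
  | zero =>
    intro e
    exact ⟨((LinearEquiv.prodUnique (R := R) (M := P) (M₂ := Fin 0 → R)).symm.trans e.symm).trans (LinearEquiv.prodUnique (R := R) (M := P') (M₂ := Fin 0 → R))⟩
  | succ N ih =>
    intro e
    obtain ⟨f⟩ := cancel_one hδ hd (P := P × (Fin N → R)) (fun p => by
      rw [Module.rankAtStalk_prod, Pi.add_apply]
      exact (hP p).trans (Nat.le_add_right _ _)) (((bassCons P' N).symm.trans e).trans (bassCons P N))
    exact ih f.symm

theorem bass [IsNoetherianRing R] {δ : PrimeSpectrum R → ℕ} (hδ : ∀ p p', p < p' → δ p' < δ p) {d : ℕ} (hd : ∀ p, δ p ≤ d) {P : Type v} [AddCommGroup P] [Module R P]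
    [Module.Finite R P] [Module.Projective R P] (hP : ∀ p : PrimeSpectrum R, d + 1 ≤ Module.rankAtStalk P p) {P' : Type w} [AddCommGroup P'] [Module R P']
    {H : Type w'} [AddCommGroup H] [Module R H] [Module.Finite R H] [Module.Projective R H] (e : (P' × H) ≃ₗ[R] (P × H)) : Nonempty (P ≃ₗ[R] P') := by
  obtain ⟨n, f, g, -, -, hfg⟩ := Module.Finite.exists_comp_eq_id_of_projective R H
  have hfg' : ∀ z, f (g z) = z := fun z => LinearMap.congr_fun hfg z
  let E : (Fin n → R) ≃ₗ[R] (H × LinearMap.ker f) :=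
    LinearEquiv.ofLinearMap
      (LinearMap.prod f (LinearMap.codRestrict (LinearMap.ker f) (LinearMap.id - g ∘ₗ f) (fun z => by simp [hfg'])))
      (LinearMap.coprod g (LinearMap.ker f).subtype)
      (by
        apply LinearMap.ext
        rintro ⟨h, k, hk⟩
        rw [LinearMap.mem_ker] at hk
        ext <;> simp [hfg', hk])
      (by
        apply LinearMap.ext
        intro z
        simp)
  exact bass_pi hδ hd hP n
    ((((((LinearEquiv.refl R P').prodCongr E).trans (LinearEquiv.prodAssoc R P' H (LinearMap.ker f)).symm).trans (e.prodCongr (LinearEquiv.refl R (LinearMap.ker f)))).trans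
      (LinearEquiv.prodAssoc R P H (LinearMap.ker f))).trans ((LinearEquiv.refl R P).prodCongr E.symm))

end Pool.Agent.SR
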