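import Mathlib

/-!
# SR Cls: classes in `ℤ[T;T⁻¹]`

`cls c` is the class of the sum of the line bundles `O(c i)`; the relation in the Grothendieck group is `(1 - T)^(n+1) = 0`.
`exists_perm`: compare the coefficients.
-/

set_option autoImplicit false

namespace Pool.Agent.SR

open LaurentPolynomial

/-- the class of `O(c 0) + O(c 1) + ...` -/
noncomputable def cls {κ : Type} [Fintype κ] (c : κ → ℤ) : LaurentPolynomial ℤ := ∑ i, LaurentPolynomial.T (c i)

theorem cls_sum {κ κ' : Type} [Fintype κ] [Fintype κ'] (c : κ → ℤ) (d : κ' → ℤ) : cls (Sum.elim c d) = cls c + cls d := by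
  rw [cls, Fintype.sum_sum_type]
  rfl

private theorem Cls_coeff {κ : Type} [Fintype κ] (c : κ → ℤ) (z : ℤ) :
    (cls c).coeff z = (Fintype.card {i // c i = z} : ℤ) := by
  classical
  rw [cls, AddMonoidAlgebra.coeff_sum, Finsupp.finsetSum_apply, Fintype.card_subtype]
  simp [LaurentPolynomial.T_apply]

/-- families with the same class differ by a permutation -/
theorem exists_perm {κ κ' : Type} [Fintype κ] [Fintype κ'] {c : κ → ℤ} {d : κ' → ℤ} (h : cls c = cls d) : ∃ e : κ ≃ κ', ∀ i, d (e i) = c i := by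
  classical
  have hc : ∀ z : ℤ, Fintype.card {i // c i = z} = Fintype.card {j // d j = z} := by
    intro z
    have h1 := Cls_coeff c z
    have h2 := Cls_coeff d z
    rw [h, h2] at h1
    exact_mod_cast h1.symm
  have he : ∀ z : ℤ, Nonempty ({i // c i = z} ≃ {j // d j = z}) := fun z =>
    Fintype.card_eq.1 (hc z)
  let E : ∀ z : ℤ, {i // c i = z} ≃ {j // d j = z} := fun z => Classical.choice (he z)
  refine ⟨(Equiv.sigmaFiberEquiv c).symm.trans ((Equiv.sigmaCongrRight E).trans (Equiv.sigmaFiberEquiv d)), ?_⟩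
  intro i
  exact (E (c i) ⟨i, rfl⟩).2

private theorem Cls_T_mem (z : ℤ) :
    (LaurentPolynomial.T z - 1 : LaurentPolynomial ℤ) ∈ Ideal.span {(1 - LaurentPolynomial.T 1 : LaurentPolynomial ℤ)} := by
  have h0 : (1 - LaurentPolynomial.T 1 : LaurentPolynomial ℤ) ∈ Ideal.span {(1 - LaurentPolynomial.T 1 : LaurentPolynomial ℤ)} :=
    Ideal.subset_span rfl
  induction z using Int.induction_on with
  | zero => simp
  | succ k ih =>
    have h1 : (LaurentPolynomial.T ((k : ℤ) + 1) - 1 : LaurentPolynomial ℤ)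
        = (LaurentPolynomial.T (k : ℤ) - 1) - LaurentPolynomial.T (k : ℤ) * (1 - LaurentPolynomial.T 1) := by
      rw [LaurentPolynomial.T_add]; ring
    rw [h1]
    exact Ideal.sub_mem _ ih (Ideal.mul_mem_left _ _ h0)
  | pred k ih =>
    have h1 : (LaurentPolynomial.T (-(k : ℤ) - 1) - 1 : LaurentPolynomial ℤ)
        = (LaurentPolynomial.T (-(k : ℤ)) - 1) + LaurentPolynomial.T (-(k : ℤ) - 1) * (1 - LaurentPolynomial.T 1) := by
      have h2 : (LaurentPolynomial.T (-(k : ℤ)) : LaurentPolynomial ℤ)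
          = LaurentPolynomial.T (-(k : ℤ) - 1) * LaurentPolynomial.T 1 := by
        rw [← LaurentPolynomial.T_add]; congr 1; ring
      rw [mul_sub, mul_one, ← h2]; ring
    rw [h1]
    exact Ideal.add_mem _ ih (Ideal.mul_mem_left _ _ h0)

/-- the rank -/
theorem cls_rank {κ : Type} [Fintype κ] (c : κ → ℤ) : cls c - (Fintype.card κ : LaurentPolynomial ℤ) ∈ Ideal.span {(1 - LaurentPolynomial.T 1 : LaurentPolynomial ℤ)} := by
  have h1 : cls c - (Fintype.card κ : LaurentPolynomial ℤ) = ∑ i, (LaurentPolynomial.T (c i) - 1) := by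
    rw [Finset.sum_sub_distrib, cls]
    simp
  rw [h1]
  exact Ideal.sum_mem _ fun i _ => Cls_T_mem (c i)

end Pool.Agent.SR
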