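import Mathlib

/-!
# SR Defs: vector bundles on the complement of the incidence divisor

`U` is the complement of the hypersurface `q = x_0 y_0 + ... + x_n y_n = 0` in `P^n x P^n`.  Its ring of functions is
`A k n`: the quotients `g / q^m` with `g` bihomogeneous of bidegree `(m, m)`; the sections of `p_1^* O(i)` over `U` are
`twist k n i`: the quotients `g / q^m` with `g` bihomogeneous of bidegree `(m + i, m)`.  All of them are subsets of the field `K k n`.
-/

set_option autoImplicit false

namespace Pool.Agent.SR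

open MvPolynomial

universe u v

/-- the variables `x_0, ..., x_n` (`Sum.inl i`) and `y_0, ..., y_n` (`Sum.inr i`) -/
abbrev V (n : ℕ) := Fin (n + 1) ⊕ Fin (n + 1)

/-- the polynomial ring `k[x_0, ..., x_n, y_0, ..., y_n]` -/
abbrev T (k : Type u) [Field k] (n : ℕ) := MvPolynomial (V n) k

/-- the field of fractions of `T k n` -/
abbrev K (k : Type u) [Field k] (n : ℕ) := FractionRing (T k n)

/-- the bidegrees of the variables: `(1, 0)` for `x_i` and `(0, 1)` for `y_i` -/
def wt (n : ℕ) : V n → ℤ × ℤ := Sum.elim (fun _ => (1, 0)) (fun _ => (0, 1))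

variable (k : Type u) [Field k] (n : ℕ)

/-- `q = x_0 y_0 + ... + x_n y_n` -/
noncomputable def q : T k n := ∑ i, X (Sum.inl i) * X (Sum.inr i)

/-- the polynomial `g` as an element of the field `K k n` -/
noncomputable def em (g : T k n) : K k n := algebraMap (T k n) (K k n) g

theorem em_inj {g h : T k n} (e : em k n g = em k n h) : g = h := IsFractionRing.injective (T k n) (K k n) e

@[simp] theorem em_zero : em k n 0 = 0 := map_zero _

@[simp] theorem em_one : em k n 1 = 1 := map_one _

@[simp] theorem em_add (g h : T k n) : em k n (g + h) = em k n g + em k n h := map_add _ _ _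

@[simp] theorem em_sub (g h : T k n) : em k n (g - h) = em k n g - em k n h := map_sub _ _ _

@[simp] theorem em_neg (g : T k n) : em k n (-g) = -em k n g := map_neg _ _

@[simp] theorem em_mul (g h : T k n) : em k n (g * h) = em k n g * em k n h := map_mul _ _ _

@[simp] theorem em_pow (g : T k n) (m : ℕ) : em k n (g ^ m) = em k n g ^ m := map_pow _ _ _

theorem em_sum {ι : Type*} (s : Finset ι) (g : ι → T k n) : em k n (∑ i ∈ s, g i) = ∑ i ∈ s, em k n (g i) := map_sum _ _ _

/-- `g` is bihomogeneous of bidegree `(a, b)` -/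
def Bi (a b : ℤ) (g : T k n) : Prop := IsWeightedHomogeneous (wt n) g (a, b)

variable {k n}

theorem Bi.zero (a b : ℤ) : Bi k n a b 0 := isWeightedHomogeneous_zero _ _ _

theorem Bi.one : Bi k n 0 0 1 := isWeightedHomogeneous_one _ _

theorem Bi.add {a b : ℤ} {g h : T k n} (hg : Bi k n a b g) (hh : Bi k n a b h) : Bi k n a b (g + h) := IsWeightedHomogeneous.add hg hh

theorem Bi.neg {a b : ℤ} {g : T k n} (hg : Bi k n a b g) : Bi k n a b (-g) := IsWeightedHomogeneous.neg hg

theorem Bi.mul {a b c d : ℤ} {g h : T k n} (hg : Bi k n a b g) (hh : Bi k n c d h) : Bi k n (a + c) (b + d) (g * h) :=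
  IsWeightedHomogeneous.mul hg hh

theorem Bi.cast {a b c d : ℤ} {g : T k n} (hg : Bi k n a b g) (h1 : a = c) (h2 : b = d) : Bi k n c d g := by
  subst h1 h2
  exact hg

theorem Bi.sum {ι : Type*} {a b : ℤ} (s : Finset ι) (g : ι → T k n) (h : ∀ i ∈ s, Bi k n a b (g i)) : Bi k n a b (∑ i ∈ s, g i) :=
  (weightedHomogeneousSubmodule k (wt n) (a, b)).sum_mem h

theorem Bi.pow {a b : ℤ} {g : T k n} (hg : Bi k n a b g) (m : ℕ) : Bi k n (m * a) (m * b) (g ^ m) := by
  have h := IsWeightedHomogeneous.pow hg m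
  have e : m • ((a, b) : ℤ × ℤ) = ((m : ℤ) * a, (m : ℤ) * b) := by
    ext <;> simp
  rw [e] at h
  exact h

theorem Bi.C (r : k) : Bi k n 0 0 (MvPolynomial.C r) := isWeightedHomogeneous_C _ _

theorem Bi.x (i : Fin (n + 1)) : Bi k n 1 0 (X (Sum.inl i)) := isWeightedHomogeneous_X k (wt n) (Sum.inl i)

theorem Bi.y (i : Fin (n + 1)) : Bi k n 0 1 (X (Sum.inr i)) := isWeightedHomogeneous_X k (wt n) (Sum.inr i)

theorem Bi.qq : Bi k n 1 1 (q k n) := Bi.sum _ _ fun i _ => ((Bi.x i).mul (Bi.y i)).cast (by norm_num) (by norm_num)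

theorem Bi.qpow (m : ℕ) : Bi k n m m (q k n ^ m) := (Bi.qq.pow m).cast (mul_one _) (mul_one _)

theorem q_ne_zero : q k n ≠ 0 := by
  intro h
  have h1 := congrArg (MvPolynomial.eval (Sum.elim (fun i => if i = 0 then 1 else 0) (fun i => if i = 0 then 1 else 0) : V n → k)) h
  simp [q] at h1

theorem emq_ne_zero : em k n (q k n) ≠ 0 := fun h => q_ne_zero (em_inj k n (h.trans (em_zero k n).symm))

variable (k n)

/-- the quotients `g / q^m` with `g` of bidegree `(m, m)`, as a subring of `K k n` -/
noncomputable def As : Subalgebra k (K k n) where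
  carrier := {z | ∃ (m : ℕ) (g : T k n), Bi k n m m g ∧ z * em k n (q k n) ^ m = em k n g}
  mul_mem' := by
    rintro a b ⟨m, g, hg, hz⟩ ⟨l, h, hh, hw⟩
    refine ⟨m + l, g * h, (hg.mul hh).cast (by push_cast; ring) (by push_cast; ring), ?_⟩
    rw [em_mul, ← hz, ← hw]
    ring
  add_mem' := by
    rintro a b ⟨m, g, hg, hz⟩ ⟨l, h, hh, hw⟩
    refine ⟨m + l, g * q k n ^ l + h * q k n ^ m, Bi.add (Bi.cast (hg.mul (Bi.qpow l)) (by push_cast; ring) (by push_cast; ring))
      (Bi.cast (hh.mul (Bi.qpow m)) (by push_cast; ring) (by push_cast; ring)), ?_⟩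
    rw [em_add, em_mul, em_mul, em_pow, em_pow, ← hz, ← hw]
    ring
  algebraMap_mem' := by
    intro r
    refine ⟨0, MvPolynomial.C r, (Bi.C r).cast (by simp) (by simp), ?_⟩
    rw [pow_zero, mul_one]
    exact IsScalarTower.algebraMap_apply k (T k n) (K k n) r

/-- the ring `O(U)`: the quotients `g / q^m` with `g` of bidegree `(m, m)` -/
def A : Type u := As k n

noncomputable instance : CommRing (A k n) := inferInstanceAs (CommRing (As k n))

noncomputable instance : Algebra k (A k n) := inferInstanceAs (Algebra k (As k n))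

noncomputable instance : Algebra (A k n) (K k n) := inferInstanceAs (Algebra (As k n) (K k n))

variable {k n}

theorem A.exists (a : A k n) : ∃ (m : ℕ) (g : T k n), Bi k n m m g ∧ algebraMap (A k n) (K k n) a * em k n (q k n) ^ m = em k n g :=
  Subtype.property (p := fun z => z ∈ As k n) a

theorem A.mk {z : K k n} {m : ℕ} {g : T k n} (hg : Bi k n m m g) (h : z * em k n (q k n) ^ m = em k n g) : ∃ a : A k n, algebraMap (A k n) (K k n) a = z :=
  ⟨(⟨z, m, g, hg, h⟩ : As k n), rfl⟩

theorem A.inj : Function.Injective (algebraMap (A k n) (K k n)) := Subtype.val_injective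

instance : IsScalarTower k (A k n) (K k n) := inferInstanceAs (IsScalarTower k (As k n) (K k n))

instance : IsDomain (A k n) := inferInstanceAs (IsDomain (As k n))

variable (k n)

/-- the sections of `p_1^* O(i)` over `U`: the quotients `g / q^m` with `g` of bidegree `(m + i, m)` -/
noncomputable def twist (i : ℤ) : Submodule (A k n) (K k n) where
  carrier := {z | ∃ (m : ℕ) (g : T k n), Bi k n (m + i) m g ∧ z * em k n (q k n) ^ m = em k n g}
  zero_mem' := ⟨0, 0, Bi.zero _ _, by simp⟩
  add_mem' := by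
    rintro a b ⟨m, g, hg, hz⟩ ⟨l, h, hh, hw⟩
    refine ⟨m + l, g * q k n ^ l + h * q k n ^ m, Bi.add (Bi.cast (hg.mul (Bi.qpow l)) (by push_cast; ring) (by push_cast; ring))
      (Bi.cast (hh.mul (Bi.qpow m)) (by push_cast; ring) (by push_cast; ring)), ?_⟩
    rw [em_add, em_mul, em_mul, em_pow, em_pow, ← hz, ← hw]
    ring
  smul_mem' := by
    rintro a b ⟨l, h, hh, hw⟩
    obtain ⟨m, g, hg, hz⟩ := a.exists
    refine ⟨m + l, g * h, (hg.mul hh).cast (by push_cast; ring) (by push_cast; ring), ?_⟩
    rw [em_mul, ← hz, ← hw, Algebra.smul_def]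
    ring

/-- `p_1^* O(c 0) + p_1^* O(c 1) + ...` -/
noncomputable def Tw {κ : Type} (c : κ → ℤ) : Submodule (A k n) (κ → K k n) where
  carrier := {w | ∀ i, w i ∈ twist k n (c i)}
  zero_mem' := fun _ => (twist k n _).zero_mem
  add_mem' := fun h1 h2 i => (twist k n _).add_mem (h1 i) (h2 i)
  smul_mem' := fun a _ h i => (twist k n _).smul_mem a (h i)

/-- a form `p` in `x_0, ..., x_n` as an element of `K k n` -/
noncomputable def ev (p : MvPolynomial (Fin (n + 1)) k) : K k n := em k n (MvPolynomial.rename Sum.inl p)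

/-- a matrix `M` of forms, the entry `M j i` of degree `b j - a i`, which has rank `t` at every point of the projective space `P^n` (over every field
which contains `k`): a surjection from `O(a 0) + ... + O(a (s - 1))` to `O(b 0) + ... + O(b (t - 1))` -/
structure Bun where
  /-- the number of line bundles in the source -/
  s : ℕ
  /-- the number of line bundles in the target -/
  t : ℕ
  /-- the degrees in the source -/
  a : Fin s → ℤ
  /-- the degrees in the target -/
  b : Fin t → ℤ
  /-- the matrix -/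
  M : Matrix (Fin t) (Fin s) (MvPolynomial (Fin (n + 1)) k)
  hom : ∀ j i, M j i = 0 ∨ ∃ d : ℕ, (d : ℤ) = b j - a i ∧ (M j i).IsHomogeneous d
  surj : ∀ (F : Type u) [Field F] [Algebra k F] (x : Fin (n + 1) → F), x ≠ 0 → Function.Surjective fun w : Fin s → F => (M.map (MvPolynomial.aeval x)).mulVec w

variable {k n}

/-- the pull-back `p_1^* F` of the vector bundle `F = ker M` on `P^n`, as a module over `O(U)` -/
noncomputable def Bun.pull (D : Bun k n) : Submodule (A k n) (Fin D.s → K k n) where
  carrier := {w | (∀ i, w i ∈ twist k n (D.a i)) ∧ ∀ j, ∑ i, ev k n (D.M j i) * w i = 0}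
  zero_mem' := ⟨fun _ => (twist k n _).zero_mem, fun _ => by simp⟩
  add_mem' := by
    rintro w w' ⟨h1, h2⟩ ⟨h3, h4⟩
    refine ⟨fun i => (twist k n _).add_mem (h1 i) (h3 i), fun j => ?_⟩
    simp only [Pi.add_apply, mul_add, Finset.sum_add_distrib, h2, h4, add_zero]
  smul_mem' := by
    rintro a w ⟨h1, h2⟩
    refine ⟨fun i => (twist k n _).smul_mem a (h1 i), fun j => ?_⟩
    have h3 : ∑ i, ev k n (D.M j i) * (a • w) i = a • ∑ i, ev k n (D.M j i) * w i := by
      rw [Finset.smul_sum]
      refine Finset.sum_congr rfl fun i _ => ?_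
      rw [Pi.smul_apply, mul_smul_comm]
    rw [h3, h2, smul_zero]

end Pool.Agent.SR
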