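import Mathlib

/-!
# SR Sgn: the signs lemma

`signs`: every Laurent polynomial is congruent modulo `(1 - T)^N` to a polynomial with coefficients `-1, 0, 1`.  Proof: by induction on `j` from `N` down to `0`: every multiple of `(1 - T)^j` is
congruent modulo `(1 - T)^N` to such a polynomial with exponents `≥ B`, for every `B`.  For `j < N`: a multiple of `(1 - T)^j` is congruent to `m (1 - T)^j` modulo `(1 - T)^(j+1)`
(`T ≡ 1`), the polynomials `T^L ∏_(i < j) (1 - T^(d i))` are congruent to `∏ d i (1 - T)^j`, and have coefficients `± 1` if the subset sums of `d` are distinct; use `d i = 2 ^ i` and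
`d i = 3 ^ i` (products `2 ^ a`, `3 ^ b`: coprime), Bezout, and disjoint supports (`L` large).
-/

set_option autoImplicit false

namespace Pool.Agent.SR

/-- `x` is a sum of `± T^a` with distinct exponents `B ≤ a < M`. -/
private def Sgn_Sg (B M : ℕ) (x : LaurentPolynomial ℤ) : Prop :=
  ∃ c : ℕ → ℤ, (∀ a, c a = -1 ∨ c a = 0 ∨ c a = 1) ∧ (∀ a, a < B → c a = 0) ∧ (∀ a, M ≤ a → c a = 0) ∧
    x = ∑ a ∈ Finset.range M, c a • LaurentPolynomial.T (a : ℤ)

private theorem Sgn_zero (B M : ℕ) : Sgn_Sg B M 0 :=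
  ⟨fun _ => 0, fun _ => Or.inr (Or.inl rfl), fun _ _ => rfl, fun _ _ => rfl, by simp⟩

private theorem Sgn_ext {M M' : ℕ} (c : ℕ → ℤ) (h3 : ∀ a, M ≤ a → c a = 0) (hM : M ≤ M') :
    ∑ a ∈ Finset.range M, c a • (LaurentPolynomial.T (a : ℤ) : LaurentPolynomial ℤ) =
      ∑ a ∈ Finset.range M', c a • LaurentPolynomial.T (a : ℤ) := by
  apply Finset.sum_subset
  · intro a ha
    rw [Finset.mem_range] at ha ⊢
    omega
  · intro a _ ha
    rw [Finset.mem_range] at ha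
    rw [h3 a (by omega), zero_smul]

private theorem Sgn_mono {B M B' M' : ℕ} {x : LaurentPolynomial ℤ} (h : Sgn_Sg B M x) (hB : B' ≤ B)
    (hM : M ≤ M') : Sgn_Sg B' M' x := by
  obtain ⟨c, h1, h2, h3, h4⟩ := h
  exact ⟨c, h1, fun a ha => h2 a (lt_of_lt_of_le ha hB), fun a ha => h3 a (le_trans hM ha),
    h4.trans (Sgn_ext c h3 hM)⟩

private theorem Sgn_neg {B M : ℕ} {x : LaurentPolynomial ℤ} (h : Sgn_Sg B M x) : Sgn_Sg B M (-x) := by
  obtain ⟨c, h1, h2, h3, h4⟩ := h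
  refine ⟨fun a => -c a, fun a => ?_, fun a ha => by simp [h2 a ha], fun a ha => by simp [h3 a ha], ?_⟩
  · rcases h1 a with h | h | h <;> simp [h]
  · rw [h4, ← Finset.sum_neg_distrib]
    exact Finset.sum_congr rfl fun a _ => by rw [neg_smul]

private theorem Sgn_add {B M M' : ℕ} {x y : LaurentPolynomial ℤ} (h : Sgn_Sg B M x) (h' : Sgn_Sg M M' y)
    (hB : B ≤ M) (hM : M ≤ M') : Sgn_Sg B M' (x + y) := by
  obtain ⟨c, h1, h2, h3, h4⟩ := h
  obtain ⟨d, g1, g2, g3, g4⟩ := h'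
  refine ⟨fun a => c a + d a, fun a => ?_, fun a ha => ?_, fun a ha => ?_, ?_⟩
  · rcases Nat.lt_or_ge a M with ha | ha
    · simpa [g2 a ha] using h1 a
    · simpa [h3 a ha] using g1 a
  · simp [h2 a ha, g2 a (lt_of_lt_of_le ha hB)]
  · simp [h3 a (le_trans hM ha), g3 a ha]
  · rw [h4, g4, Sgn_ext c h3 hM, ← Finset.sum_add_distrib]
    exact Finset.sum_congr rfl fun a _ => by rw [add_smul]

private theorem Sgn_shift {B M : ℕ} {x : LaurentPolynomial ℤ} (h : Sgn_Sg B M x) (L : ℕ) :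
    Sgn_Sg (B + L) (M + L) (LaurentPolynomial.T (L : ℤ) * x) := by
  obtain ⟨c, h1, h2, h3, h4⟩ := h
  refine ⟨fun a => if L ≤ a then c (a - L) else 0, fun a => ?_, fun a ha => ?_, fun a ha => ?_, ?_⟩
  · by_cases hL : L ≤ a
    · simpa [hL] using h1 (a - L)
    · simp [hL]
  · by_cases hL : L ≤ a
    · simpa [hL] using h2 (a - L) (by omega)
    · simp [hL]
  · by_cases hL : L ≤ a
    · simpa [hL] using h3 (a - L) (by omega)
    · simp [hL]
  · rw [h4, add_comm M L, Finset.sum_range_add, Finset.mul_sum]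
    have h0 : ∑ a ∈ Finset.range L, (if L ≤ a then c (a - L) else 0) •
        (LaurentPolynomial.T (a : ℤ) : LaurentPolynomial ℤ) = 0 := by
      refine Finset.sum_eq_zero fun a ha => ?_
      rw [Finset.mem_range] at ha
      rw [if_neg (not_le.mpr ha), zero_smul]
    rw [h0, zero_add]
    refine Finset.sum_congr rfl fun a _ => ?_
    simp only [Nat.le_add_right, if_true, Nat.add_sub_cancel_left]
    rw [mul_smul_comm, ← LaurentPolynomial.T_add, Nat.cast_add]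

/-- `∏_(i < j) (1 - T^(q^i))` has coefficients `-1, 0, 1`. -/
private theorem Sgn_prod {q : ℕ} (hq : 2 ≤ q) (j : ℕ) :
    Sgn_Sg 0 (q ^ j) (∏ i ∈ Finset.range j, (1 - LaurentPolynomial.T ((q ^ i : ℕ) : ℤ))) := by
  induction j with
  | zero =>
    refine ⟨fun a => if a = 0 then 1 else 0, fun a => ?_, fun a ha => absurd ha (Nat.not_lt_zero a), fun a ha => ?_, ?_⟩
    · by_cases h : a = 0 <;> simp [h]
    · have : a ≠ 0 := by rw [pow_zero] at ha; omega
      simp [this]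
    · simp
  | succ j ih =>
    rw [Finset.prod_range_succ]
    have h1 : (∏ i ∈ Finset.range j, (1 - LaurentPolynomial.T ((q ^ i : ℕ) : ℤ))) *
        (1 - LaurentPolynomial.T ((q ^ j : ℕ) : ℤ)) =
        (∏ i ∈ Finset.range j, (1 - LaurentPolynomial.T ((q ^ i : ℕ) : ℤ)) : LaurentPolynomial ℤ) +
        (LaurentPolynomial.T ((q ^ j : ℕ) : ℤ) *
          (-∏ i ∈ Finset.range j, (1 - LaurentPolynomial.T ((q ^ i : ℕ) : ℤ)))) := by ring
    rw [h1]
    have h2 := Sgn_shift (Sgn_neg ih) (q ^ j)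
    have h3 : q ^ j + q ^ j ≤ q ^ (j + 1) := by
      rw [pow_succ]
      nlinarith [Nat.zero_le (q ^ j)]
    exact Sgn_mono (Sgn_add ih (Sgn_mono h2 (by omega) le_rfl) (Nat.zero_le _) (by omega)) le_rfl h3

/-- `T ≡ 1` modulo `1 - T`. -/
private theorem Sgn_T (n : ℤ) : (1 - LaurentPolynomial.T 1 : LaurentPolynomial ℤ) ∣ 1 - LaurentPolynomial.T n := by
  have hnat : ∀ n : ℕ, (1 - LaurentPolynomial.T 1 : LaurentPolynomial ℤ) ∣ 1 - LaurentPolynomial.T (n : ℤ) := by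
    intro n
    have h := sub_dvd_pow_sub_pow (1 : LaurentPolynomial ℤ) (LaurentPolynomial.T 1) n
    rwa [one_pow, LaurentPolynomial.T_pow, mul_one] at h
  rcases Int.eq_nat_or_neg n with ⟨m, rfl | rfl⟩
  · exact hnat m
  · have h : (1 - LaurentPolynomial.T (-(m : ℤ)) : LaurentPolynomial ℤ) =
        -LaurentPolynomial.T (-(m : ℤ)) * (1 - LaurentPolynomial.T (m : ℤ)) := by
      rw [mul_sub, mul_one, neg_mul, ← LaurentPolynomial.T_add]
      simp
      ring
    rw [h]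
    exact Dvd.dvd.mul_left (hnat m) _

/-- every Laurent polynomial is an integer modulo `1 - T`. -/
private theorem Sgn_int (x : LaurentPolynomial ℤ) :
    ∃ m : ℤ, (1 - LaurentPolynomial.T 1 : LaurentPolynomial ℤ) ∣ x - (m : LaurentPolynomial ℤ) := by
  induction x using LaurentPolynomial.induction_on' with
  | add p q hp hq =>
    obtain ⟨a, ha⟩ := hp
    obtain ⟨b, hb⟩ := hq
    refine ⟨a + b, ?_⟩
    have := dvd_add ha hb
    push_cast
    convert this using 1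
    ring
  | C_mul_T n a =>
    refine ⟨a, ?_⟩
    have h : (LaurentPolynomial.C a * LaurentPolynomial.T n : LaurentPolynomial ℤ) - (a : LaurentPolynomial ℤ) =
        -LaurentPolynomial.C a * (1 - LaurentPolynomial.T n) := by
      have : (LaurentPolynomial.C a : LaurentPolynomial ℤ) = (a : LaurentPolynomial ℤ) := by
        simp
      rw [this]
      ring
    rw [h]
    exact Dvd.dvd.mul_left (Sgn_T n) _

/-- `1 - T^n = (1 - T) g` with `g ≡ n` modulo `1 - T`. -/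
private theorem Sgn_geom (n : ℕ) : ∃ g : LaurentPolynomial ℤ,
    (1 - LaurentPolynomial.T (n : ℤ) : LaurentPolynomial ℤ) = (1 - LaurentPolynomial.T 1) * g ∧
      (1 - LaurentPolynomial.T 1 : LaurentPolynomial ℤ) ∣ g - (n : LaurentPolynomial ℤ) := by
  induction n with
  | zero => exact ⟨0, by simp, by simp⟩
  | succ n ih =>
    obtain ⟨g, hg, hd⟩ := ih
    refine ⟨g + LaurentPolynomial.T (n : ℤ), ?_, ?_⟩
    · rw [mul_add, ← hg, sub_mul, one_mul, ← LaurentPolynomial.T_add, add_comm (1 : ℤ), Nat.cast_succ]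
      ring
    · have h := dvd_sub hd (Sgn_T n)
      have h2 : g + LaurentPolynomial.T (n : ℤ) - ((n + 1 : ℕ) : LaurentPolynomial ℤ) =
          g - (n : LaurentPolynomial ℤ) - (1 - LaurentPolynomial.T (n : ℤ)) := by
        push_cast
        ring
      rw [h2]
      exact h

/-- the product is `∏ q^i (1 - T)^j` modulo `(1 - T)^(j + 1)`. -/
private theorem Sgn_cong (q j : ℕ) : ∃ e : ℕ, (1 - LaurentPolynomial.T 1 : LaurentPolynomial ℤ) ^ (j + 1) ∣
    (∏ i ∈ Finset.range j, (1 - LaurentPolynomial.T ((q ^ i : ℕ) : ℤ))) -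
      ((q ^ e : ℕ) : LaurentPolynomial ℤ) * (1 - LaurentPolynomial.T 1) ^ j := by
  induction j with
  | zero => exact ⟨0, by simp⟩
  | succ j ih =>
    obtain ⟨e, he⟩ := ih
    obtain ⟨g, hg, hd⟩ := Sgn_geom (q ^ j)
    refine ⟨e + j, ?_⟩
    rw [Finset.prod_range_succ, hg]
    generalize (∏ i ∈ Finset.range j, (1 - LaurentPolynomial.T ((q ^ i : ℕ) : ℤ)) : LaurentPolynomial ℤ) = P at he ⊢
    generalize (1 - LaurentPolynomial.T 1 : LaurentPolynomial ℤ) = δ at he hd ⊢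
    have h1 : P * (δ * g) - ((q ^ (e + j) : ℕ) : LaurentPolynomial ℤ) * δ ^ (j + 1) =
        δ * g * (P - ((q ^ e : ℕ) : LaurentPolynomial ℤ) * δ ^ j) +
          ((q ^ e : ℕ) : LaurentPolynomial ℤ) * (δ ^ (j + 1) * (g - ((q ^ j : ℕ) : LaurentPolynomial ℤ))) := by
      push_cast
      ring
    rw [h1]
    refine dvd_add ?_ (Dvd.dvd.mul_left ?_ _)
    · obtain ⟨u, hu⟩ := he
      rw [hu]
      exact ⟨g * u, by ring⟩
    · obtain ⟨u, hu⟩ := hd
      rw [hu]
      exact ⟨u, by ring⟩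

/-- integer multiples of a product, with the coefficients spread out. -/
private theorem Sgn_nsmul {j K : ℕ} {P : LaurentPolynomial ℤ} (hP : Sgn_Sg 0 K P)
    (hd : (1 - LaurentPolynomial.T 1 : LaurentPolynomial ℤ) ^ j ∣ P) (B k : ℕ) :
    ∃ (M : ℕ) (z : LaurentPolynomial ℤ), B ≤ M ∧ Sgn_Sg B M z ∧
      (1 - LaurentPolynomial.T 1 : LaurentPolynomial ℤ) ^ (j + 1) ∣ (k : LaurentPolynomial ℤ) * P - z := by
  induction k with
  | zero => exact ⟨B, 0, le_rfl, Sgn_zero _ _, by simp⟩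
  | succ k ih =>
    obtain ⟨M, z, hM, hz, hzd⟩ := ih
    have h1 := Sgn_shift hP M
    rw [zero_add] at h1
    refine ⟨K + M, z + LaurentPolynomial.T (M : ℤ) * P, by omega, Sgn_add hz h1 hM (by omega), ?_⟩
    have h2 : ((k + 1 : ℕ) : LaurentPolynomial ℤ) * P - (z + LaurentPolynomial.T (M : ℤ) * P) =
        ((k : LaurentPolynomial ℤ) * P - z) + (1 - LaurentPolynomial.T (M : ℤ)) * P := by
      push_cast
      ring
    rw [h2, pow_succ']
    rw [pow_succ'] at hzd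
    exact dvd_add hzd (mul_dvd_mul (Sgn_T M) hd)

private theorem Sgn_zsmul {j K : ℕ} {P : LaurentPolynomial ℤ} (hP : Sgn_Sg 0 K P)
    (hd : (1 - LaurentPolynomial.T 1 : LaurentPolynomial ℤ) ^ j ∣ P) (B : ℕ) (m : ℤ) :
    ∃ (M : ℕ) (z : LaurentPolynomial ℤ), B ≤ M ∧ Sgn_Sg B M z ∧
      (1 - LaurentPolynomial.T 1 : LaurentPolynomial ℤ) ^ (j + 1) ∣ (m : LaurentPolynomial ℤ) * P - z := by
  rcases Int.eq_nat_or_neg m with ⟨k, rfl | rfl⟩
  · exact_mod_cast Sgn_nsmul hP hd B k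
  · obtain ⟨M, z, hM, hz, hzd⟩ := Sgn_nsmul hP hd B k
    refine ⟨M, -z, hM, Sgn_neg hz, ?_⟩
    have h : ((-(k : ℤ) : ℤ) : LaurentPolynomial ℤ) * P - -z = -((k : LaurentPolynomial ℤ) * P - z) := by
      push_cast
      ring
    rw [h]
    exact (dvd_neg).mpr hzd

private theorem Sgn_step (j B : ℕ) (m : ℤ) :
    ∃ (M : ℕ) (z : LaurentPolynomial ℤ), B ≤ M ∧ Sgn_Sg B M z ∧
      (1 - LaurentPolynomial.T 1 : LaurentPolynomial ℤ) ^ (j + 1) ∣
        (m : LaurentPolynomial ℤ) * (1 - LaurentPolynomial.T 1) ^ j - z := by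
  obtain ⟨e, he⟩ := Sgn_cong 2 j
  obtain ⟨f, hf⟩ := Sgn_cong 3 j
  have h2 := Sgn_prod (q := 2) le_rfl j
  have h3 := Sgn_prod (q := 3) (by norm_num) j
  generalize (∏ i ∈ Finset.range j, (1 - LaurentPolynomial.T ((2 ^ i : ℕ) : ℤ)) : LaurentPolynomial ℤ) = P at he h2
  generalize (∏ i ∈ Finset.range j, (1 - LaurentPolynomial.T ((3 ^ i : ℕ) : ℤ)) : LaurentPolynomial ℤ) = Q at hf h3
  have hP : (1 - LaurentPolynomial.T 1 : LaurentPolynomial ℤ) ^ j ∣ P := by
    have := dvd_add (dvd_trans (pow_dvd_pow _ (Nat.le_succ j)) he)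
      (Dvd.intro_left (((2 ^ e : ℕ) : LaurentPolynomial ℤ)) rfl :
        (1 - LaurentPolynomial.T 1 : LaurentPolynomial ℤ) ^ j ∣ _)
    simpa using this
  have hQ : (1 - LaurentPolynomial.T 1 : LaurentPolynomial ℤ) ^ j ∣ Q := by
    have := dvd_add (dvd_trans (pow_dvd_pow _ (Nat.le_succ j)) hf)
      (Dvd.intro_left (((3 ^ f : ℕ) : LaurentPolynomial ℤ)) rfl :
        (1 - LaurentPolynomial.T 1 : LaurentPolynomial ℤ) ^ j ∣ _)
    simpa using this
  have hco : IsCoprime ((2 : ℤ) ^ e) ((3 : ℤ) ^ f) := by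
    apply IsCoprime.pow
    norm_num
  obtain ⟨s, t, hst⟩ := hco
  obtain ⟨M1, z1, hM1, hz1, hd1⟩ := Sgn_zsmul h2 hP B (m * s)
  obtain ⟨M2, z2, hM2, hz2, hd2⟩ := Sgn_zsmul h3 hQ M1 (m * t)
  refine ⟨M2, z1 + z2, by omega, Sgn_add hz1 hz2 hM1 hM2, ?_⟩
  have key : (m : LaurentPolynomial ℤ) * (1 - LaurentPolynomial.T 1) ^ j - (z1 + z2) =
      (((m * s : ℤ) : LaurentPolynomial ℤ) * P - z1) + (((m * t : ℤ) : LaurentPolynomial ℤ) * Q - z2) -
      ((m * s : ℤ) : LaurentPolynomial ℤ) *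
        (P - ((2 ^ e : ℕ) : LaurentPolynomial ℤ) * (1 - LaurentPolynomial.T 1) ^ j) -
      ((m * t : ℤ) : LaurentPolynomial ℤ) *
        (Q - ((3 ^ f : ℕ) : LaurentPolynomial ℤ) * (1 - LaurentPolynomial.T 1) ^ j) := by
    have h1 : ((s * 2 ^ e + t * 3 ^ f : ℤ) : LaurentPolynomial ℤ) = 1 := by
      rw [hst]
      exact Int.cast_one
    push_cast at h1 ⊢
    linear_combination (-(m : LaurentPolynomial ℤ) * (1 - LaurentPolynomial.T 1) ^ j) * h1
  rw [key]
  exact dvd_sub (dvd_sub (dvd_add hd1 hd2) (Dvd.dvd.mul_left he _)) (Dvd.dvd.mul_left hf _)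

private theorem Sgn_all (N : ℕ) : ∀ k j : ℕ, j + k = N → ∀ (B : ℕ) (x : LaurentPolynomial ℤ),
    (1 - LaurentPolynomial.T 1 : LaurentPolynomial ℤ) ^ j ∣ x →
    ∃ (M : ℕ) (z : LaurentPolynomial ℤ), B ≤ M ∧ Sgn_Sg B M z ∧
      (1 - LaurentPolynomial.T 1 : LaurentPolynomial ℤ) ^ N ∣ x - z := by
  intro k
  induction k with
  | zero =>
    intro j hj B x hx
    rw [add_zero] at hj
    subst hj
    exact ⟨B, 0, le_rfl, Sgn_zero _ _, by simpa using hx⟩
  | succ k ih =>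
    intro j hj B x hx
    obtain ⟨y, rfl⟩ := hx
    obtain ⟨m, hm⟩ := Sgn_int y
    obtain ⟨M, z, hM, hz, hd⟩ := Sgn_step j B m
    obtain ⟨M', z', hM', hz', hd'⟩ := ih (j + 1) (by omega) M
      ((1 - LaurentPolynomial.T 1 : LaurentPolynomial ℤ) ^ j * y - z) (by
        have h : (1 - LaurentPolynomial.T 1 : LaurentPolynomial ℤ) ^ j * y - z =
            ((m : LaurentPolynomial ℤ) * (1 - LaurentPolynomial.T 1) ^ j - z) +
              (1 - LaurentPolynomial.T 1) ^ j * (y - (m : LaurentPolynomial ℤ)) := by ring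
        rw [h]
        exact dvd_add hd (by rw [pow_succ]; exact mul_dvd_mul_left _ hm))
    refine ⟨M', z + z', by omega, Sgn_add hz hz' hM hM', ?_⟩
    rwa [← sub_sub]

theorem signs (N : ℕ) (η : LaurentPolynomial ℤ) : ∃ (M : ℕ) (c : ℕ → ℤ), (∀ a, c a = -1 ∨ c a = 0 ∨ c a = 1) ∧
    η - ∑ a ∈ Finset.range M, c a • LaurentPolynomial.T (a : ℤ) ∈ Ideal.span {(1 - LaurentPolynomial.T 1 : LaurentPolynomial ℤ) ^ N} := by
  obtain ⟨M, z, _, ⟨c, h1, _, _, rfl⟩, hd⟩ := Sgn_all N N 0 (zero_add N) 0 η (by simp)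
  exact ⟨M, c, h1, Ideal.mem_span_singleton.mpr hd⟩

end Pool.Agent.SR
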