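import Pool.Agent.SR.Band
import Pool.Agent.SR.Cls
import Pool.Agent.SR.Sgn
import Pool.Agent.SR.Defs

/-!
# SR BunE: vector bundles on `P^n` with a given class

`exists_bun`: `ζ - r = - (T - 1) η`, `η ≡ ∑_(a < M) c_a T^a` with `c_a ∈ {-1, 0, 1}` modulo `(1 - T)^n` (`signs`, after making `M` larger if necessary), `a_1 ≤ ... ≤ a_m` the
multiset with `1 + c_(a-1)` copies of `a` for `1 ≤ a ≤ M`.  The bundle: source `O(M) + O^(r-1) + ∑_j O(a_j - 1)`, target `∑_j O(a_j)`, the matrix is `0` on `O(M)` and on `r - 1 - n` of the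
summands `O`, and `band` on the rest, with the column degrees `0` (`n` times), `a_1 - 1, a_2 - 1, ...` and the exponents row degree minus column degree, which are `≥ 1` because
`a_(j+i-n) ≤ a_j`.  Its class is `T^M + r - 1 - (T - 1) ∑_j T^(a_j - 1)`, and `∑_j T^(a_j - 1) = (T^M - 1) / (T - 1) + ∑ c_a T^a`.
-/

set_option autoImplicit false

namespace Pool.Agent.SR

open MvPolynomial

universe u

variable {k : Type u} [Field k] {n : ℕ}

/-- the matrix is surjective over every ring, for coordinates which generate the unit ideal -/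
def Bun.All (D : Bun k n) : Prop := ∀ (R : Type u) [CommRing R] (φ : MvPolynomial (Fin (n + 1)) k →+* R),
  Ideal.span (Set.range fun i => φ (X i)) = ⊤ → Function.Surjective (D.M.map φ).mulVec

/-- a sorted list with prescribed multiplicities -/
private theorem BunE_mono (d : ℕ → ℕ) (M : ℕ) : ∃ (m : ℕ) (a : Fin m → ℕ), Monotone a ∧ (∀ j, a j < M) ∧
    ∑ j, (LaurentPolynomial.T (a j : ℤ) : LaurentPolynomial ℤ) = ∑ i ∈ Finset.range M, d i • LaurentPolynomial.T (i : ℤ) := by
  induction M with
  | zero => exact ⟨0, Fin.elim0, fun i => i.elim0, fun i => i.elim0, by simp⟩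
  | succ M ih =>
    obtain ⟨m, a, h1, h2, h3⟩ := ih
    refine ⟨m + d M, Fin.append a (fun _ => M), ?_, ?_, ?_⟩
    · intro i j
      refine Fin.addCases (fun i => ?_) (fun i => ?_) i <;> refine Fin.addCases (fun j => ?_) (fun j => ?_) j <;> intro hij
      · rw [Fin.append_left, Fin.append_left]
        refine h1 ?_
        rw [Fin.le_def, Fin.val_castAdd, Fin.val_castAdd] at hij
        exact Fin.le_def.2 hij
      · rw [Fin.append_left, Fin.append_right]
        exact (h2 i).le
      · exfalso
        rw [Fin.le_def, Fin.val_natAdd, Fin.val_castAdd] at hij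
        have := j.2
        omega
      · rw [Fin.append_right, Fin.append_right]
    · intro j
      refine Fin.addCases (fun j => ?_) (fun j => ?_) j
      · rw [Fin.append_left]
        exact Nat.lt_succ_of_lt (h2 j)
      · rw [Fin.append_right]
        exact Nat.lt_succ_self M
    · rw [Fin.sum_univ_add, Finset.sum_range_succ, ← h3]
      simp only [Fin.append_left, Fin.append_right, Finset.sum_const, Finset.card_univ, Fintype.card_fin]

/-- the degrees of the columns of the banded matrix: `0` (`n` times), then `a_1 - 1, a_2 - 1, ...` (here the family `a` is already shifted by one) -/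
private def BunE_col (n : ℕ) {m : ℕ} (a : Fin m → ℕ) : Fin (n + m) → ℕ := Fin.append (fun _ => 0) a

private theorem BunE_col_le (n : ℕ) {m : ℕ} {a : Fin m → ℕ} (ha : Monotone a) (j : Fin m) (c : Fin (n + m)) (h : (c : ℕ) ≤ j + n) : BunE_col n a c ≤ a j := by
  unfold BunE_col
  revert h
  refine Fin.addCases (fun c => ?_) (fun c => ?_) c <;> intro h
  · rw [Fin.append_left]
    exact Nat.zero_le _
  · rw [Fin.append_right]
    apply ha
    rw [Fin.val_natAdd] at h
    rw [Fin.le_def]
    omega

theorem exists_bun (k : Type u) [Field k] (n : ℕ) (r : ℕ) (hr : n + 1 ≤ r) (ζ : LaurentPolynomial ℤ)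
    (hζ : ζ - (r : LaurentPolynomial ℤ) ∈ Ideal.span {(1 - LaurentPolynomial.T 1 : LaurentPolynomial ℤ)}) :
    ∃ D : Bun k n, D.All ∧ cls D.a - cls D.b - ζ ∈ Ideal.span {(1 - LaurentPolynomial.T 1 : LaurentPolynomial ℤ) ^ (n + 1)} := by
  obtain ⟨p, rfl⟩ : ∃ p, r = n + (p + 1) := ⟨r - (n + 1), by omega⟩
  rw [Ideal.mem_span_singleton] at hζ
  obtain ⟨η, hη⟩ := hζ
  obtain ⟨M, c, hc, hcη⟩ := signs n η
  obtain ⟨d, hd⟩ : ∃ d : ℕ → ℕ, ∀ a, (d a : ℤ) = 1 + c a := by
    refine ⟨fun a => (1 + c a).toNat, fun a => ?_⟩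
    rcases hc a with h | h | h <;> simp [h]
  obtain ⟨m, a, ha, _, hsum⟩ := BunE_mono d M
  let e : Fin m → Fin (n + m) → ℕ := fun j c => a j - BunE_col n a c + 1
  let N : Matrix (Fin m) (Fin ((n + m) + (p + 1))) (MvPolynomial (Fin (n + 1)) k) :=
    Matrix.of fun j => Fin.append (band n m e X j) 0
  have hN : ∀ (R : Type u) [CommRing R] (φ : MvPolynomial (Fin (n + 1)) k →+* R),
      Ideal.span (Set.range fun i => φ (X i)) = ⊤ → Function.Surjective (N.map φ).mulVec := by
    intro R _ φ hφ v
    obtain ⟨w, hw⟩ := band_surj (R := R) n m (e := e) (fun j c => by simp [e]) (z := fun i => φ (X i)) hφ v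
    refine ⟨Fin.append w 0, ?_⟩
    rw [← hw]
    funext j
    simp only [Matrix.mulVec, dotProduct]
    rw [Fin.sum_univ_add]
    simp only [Fin.append_left, Fin.append_right, Pi.zero_apply, mul_zero, Finset.sum_const_zero, add_zero]
    refine Finset.sum_congr rfl fun i _ => ?_
    congr 1
    simp only [N, Matrix.map_apply, Matrix.of_apply, Fin.append_left, band]
    split_ifs
    · rw [map_pow]
    · rw [map_zero]
  let A : Fin ((n + m) + (p + 1)) → ℤ := Fin.append (fun c => (BunE_col n a c : ℤ)) (Fin.cons (M : ℤ) fun _ => 0)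
  let D : Bun k n :=
    { s := (n + m) + (p + 1)
      t := m
      a := A
      b := fun j => (a j : ℤ) + 1
      M := N
      hom := by
        intro j
        refine Fin.addCases (fun c => ?_) (fun c => ?_)
        · simp only [N, A, Matrix.of_apply, Fin.append_left, band]
          split_ifs with h
          · right
            refine ⟨e j c, ?_, ?_⟩
            · have := BunE_col_le n ha j c h.2
              simp only [e]
              omega
            · exact MvPolynomial.isHomogeneous_X_pow _ _
          · exact Or.inl rfl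
        · left
          simp only [N, Matrix.of_apply, Fin.append_right, Pi.zero_apply]
      surj := by
        intro F _ _ x hx
        refine hN F (MvPolynomial.aeval x : MvPolynomial (Fin (n + 1)) k →ₐ[k] F).toRingHom ?_
        obtain ⟨i, hi⟩ := Function.ne_iff.1 hx
        refine Ideal.eq_top_of_isUnit_mem _ (Ideal.subset_span ⟨i, rfl⟩) ?_
        rw [isUnit_iff_ne_zero]
        simpa using hi }
  refine ⟨D, hN, ?_⟩
  have h1 : cls D.a = (n : LaurentPolynomial ℤ) + ∑ j, LaurentPolynomial.T (a j : ℤ) + (LaurentPolynomial.T (M : ℤ) + (p : LaurentPolynomial ℤ)) := by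
    change ∑ i : Fin ((n + m) + (p + 1)), LaurentPolynomial.T (A i) = _
    rw [Fin.sum_univ_add]
    congr 1
    · simp only [A, Fin.append_left, BunE_col]
      rw [Fin.sum_univ_add]
      simp
    · simp only [A, Fin.append_right]
      rw [Fin.sum_univ_succ]
      simp
  have h2 : cls D.b = (∑ j, LaurentPolynomial.T (a j : ℤ)) * LaurentPolynomial.T 1 := by
    change ∑ j, LaurentPolynomial.T ((a j : ℤ) + 1) = _
    rw [Finset.sum_mul]
    exact Finset.sum_congr rfl fun j _ => LaurentPolynomial.T_add _ _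
  have h3 : (1 - LaurentPolynomial.T 1 : LaurentPolynomial ℤ) * ∑ i ∈ Finset.range M, LaurentPolynomial.T (i : ℤ) = 1 - LaurentPolynomial.T (M : ℤ) := by
    have h := mul_neg_geom_sum (LaurentPolynomial.T 1 : LaurentPolynomial ℤ) M
    rw [LaurentPolynomial.T_pow, mul_one] at h
    rw [← h]
    congr 1
    refine Finset.sum_congr rfl fun i _ => ?_
    rw [LaurentPolynomial.T_pow, mul_one]
  have h4 : (∑ j, LaurentPolynomial.T (a j : ℤ) : LaurentPolynomial ℤ) =
      ∑ i ∈ Finset.range M, LaurentPolynomial.T (i : ℤ) + ∑ i ∈ Finset.range M, c i • LaurentPolynomial.T (i : ℤ) := by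
    rw [hsum, ← Finset.sum_add_distrib]
    refine Finset.sum_congr rfl fun i _ => ?_
    rw [← natCast_zsmul, hd, add_smul, one_smul]
  rw [Ideal.mem_span_singleton] at hcη ⊢
  obtain ⟨u, hu⟩ := hcη
  refine ⟨-u, ?_⟩
  rw [h1, h2, h4]
  push_cast at hη ⊢
  linear_combination h3 - hη - (1 - LaurentPolynomial.T 1) * hu

end Pool.Agent.SR
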