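import Pool.Agent.SR.Gr

/-!
# SR ConeA: the kernel of a mapping cone

`FFR.succ`: add a step with `κ = Empty` at the end (induction on `l`; for `l = 0`: `Z = ⊥` is the range of the matrix with no columns).

`ext`: the kernel of a cone.  `N : F_b → F_a`, `N' : F_b' → F_a'`, `U : F_b' → F_a` with `U c ∈ range N` for `c ∈ ker N'`.  Induction on `l` (for all matrices): write `ker N = range M₂`,
`ker N' = range M'`; for every basis vector `e_j` choose a homogeneous `U₁ e_j` with `N (U₁ e_j) = - U (M' e_j)` (take the component of degree `b j` of any preimage, `HomM.cmp`);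
the matrix `[[M₂, U₁], [0, M']]` (`Matrix.fromBlocks`) has `W` as range, and its kernel is again of this form, for `M₂, M', U₁`.
-/

set_option autoImplicit false

namespace Pool.Agent.SR

universe u

variable {Γ : Type} [AddCommGroup Γ] {S : Type u} [CommRing S] {G : Gr Γ S}

/-- homogeneous lifting: a map of degree `0` with image in `range N` factors through `N` -/
theorem ConeA_lift {ι κ μ : Type} [Fintype κ] {a : ι → Γ} {b : κ → Γ} {d : μ → Γ} {N : Matrix ι κ S} {R : Matrix ι μ S}
    (hN : HomM G a b N) (hR : HomM G a d R) (h : ∀ j, (fun i => R i j) ∈ LinearMap.range N.mulVecLin) :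
    ∃ U : Matrix κ μ S, HomM G b d U ∧ N * U = R := by
  choose v hv using h
  refine ⟨fun i j => G.π (d j - b i) (v j i), fun i j => G.π_mem _ _, ?_⟩
  funext i j
  have h1 : cmp G a (d j) (N.mulVec (v j)) = N.mulVec (cmp G b (d j) (v j)) := hN.cmp G (d j) (v j)
  have h2 : N.mulVec (v j) = fun i => R i j := by
    rw [← hv j, Matrix.mulVecLin_apply]
  rw [h2] at h1
  have h3 := congrFun h1 i
  have h4 : cmp G a (d j) (fun i => R i j) i = R i j := G.π_self _ _ (hR i j)
  rw [h4] at h3
  rw [h3]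
  rfl

theorem FFR.succ (l : ℕ) : ∀ {ι : Type} [Fintype ι] {a : ι → Γ} {Z : Submodule S (ι → S)}, FFR G l ι a Z → FFR G (l + 1) ι a Z := by
  induction l with
  | zero =>
    intro ι _ a Z h
    refine ⟨Empty, inferInstance, fun x => x.elim, fun _ x => x.elim, fun _ x => x.elim, ?_, ?_⟩
    · have h' : Z = ⊥ := h
      rw [h', eq_bot_iff]
      rintro _ ⟨w, rfl⟩
      rw [Submodule.mem_bot, Matrix.mulVecLin_apply]
      funext i
      simp [Matrix.mulVec, dotProduct]
    · show LinearMap.ker _ = ⊥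
      rw [eq_bot_iff]
      intro w _
      rw [Submodule.mem_bot]
      funext x
      exact x.elim
  | succ l ih =>
    intro ι _ a Z h
    obtain ⟨κ, i1, b, M, h1, h2, h3⟩ := h
    exact ⟨κ, i1, b, M, h1, h2, ih h3⟩

theorem FFR.mono {l l' : ℕ} (hl : l ≤ l') {ι : Type} [Fintype ι] {a : ι → Γ} {Z : Submodule S (ι → S)} (h : FFR G l ι a Z) : FFR G l' ι a Z := by
  induction hl with
  | refl => exact h
  | step _ ih => exact FFR.succ _ ih

theorem ext (l : ℕ) : ∀ {ι κ ι' κ' : Type} [Fintype ι] [Fintype κ] [Fintype ι'] [Fintype κ'] {a : ι → Γ} {b : κ → Γ} {a' : ι' → Γ} {b' : κ' → Γ}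
    {N : Matrix ι κ S} {N' : Matrix ι' κ' S} {U : Matrix ι κ' S}, HomM G a b N → HomM G a' b' N' → HomM G a b' U →
    (∀ c, N'.mulVec c = 0 → U.mulVec c ∈ LinearMap.range N.mulVecLin) →
    FFR G l κ b (LinearMap.ker N.mulVecLin) → FFR G l κ' b' (LinearMap.ker N'.mulVecLin) →
    ∀ W : Submodule S (κ ⊕ κ' → S), (∀ w, w ∈ W ↔ N.mulVec (fun i => w (Sum.inl i)) + U.mulVec (fun i => w (Sum.inr i)) = 0 ∧ N'.mulVec (fun i => w (Sum.inr i)) = 0) →
    FFR G l (κ ⊕ κ') (Sum.elim b b') W := by
  induction l with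
  | zero =>
    intro ι κ ι' κ' _ _ _ _ a b a' b' N N' U hN hN' hU hc h h' W hW
    have h1 : LinearMap.ker N.mulVecLin = ⊥ := h
    have h2 : LinearMap.ker N'.mulVecLin = ⊥ := h'
    show W = ⊥
    rw [eq_bot_iff]
    intro w hw
    obtain ⟨e1, e2⟩ := (hW w).1 hw
    have h3 : (fun i => w (Sum.inr i)) ∈ LinearMap.ker N'.mulVecLin := by
      rw [LinearMap.mem_ker, Matrix.mulVecLin_apply]
      exact e2
    rw [h2, Submodule.mem_bot] at h3
    rw [h3, Matrix.mulVec_zero, add_zero] at e1
    have h4 : (fun i => w (Sum.inl i)) ∈ LinearMap.ker N.mulVecLin := by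
      rw [LinearMap.mem_ker, Matrix.mulVecLin_apply]
      exact e1
    rw [h1, Submodule.mem_bot] at h4
    rw [Submodule.mem_bot]
    funext x
    rcases x with x | x
    · exact congrFun h4 x
    · exact congrFun h3 x
  | succ l ih =>
    intro ι κ ι' κ' _ _ _ _ a b a' b' N N' U hN hN' hU hc h h' W hW
    obtain ⟨κ₂, i2, b₂, M₂, g1, g2, g3⟩ := h
    obtain ⟨κ₃, i3, b₃, M', k1, k2, k3⟩ := h'
    have hker' : ∀ c, M'.mulVec c ∈ LinearMap.ker N'.mulVecLin := fun c => k2 ▸ ⟨c, Matrix.mulVecLin_apply _ _⟩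
    have hN'M' : ∀ c, N'.mulVec (M'.mulVec c) = 0 := fun c => by
      have := hker' c
      rwa [LinearMap.mem_ker, Matrix.mulVecLin_apply] at this
    have hNM₂ : ∀ c, N.mulVec (M₂.mulVec c) = 0 := fun c => by
      have : M₂.mulVec c ∈ LinearMap.ker N.mulVecLin := g2 ▸ ⟨c, Matrix.mulVecLin_apply _ _⟩
      rwa [LinearMap.mem_ker, Matrix.mulVecLin_apply] at this
    have hUM : HomM G a b₃ (-(U * M')) := by
      intro i j
      rw [Matrix.neg_apply, Matrix.mul_apply]
      refine (G.deg _).neg_mem ((G.deg _).sum_mem fun x _ => ?_)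
      refine Gr.mul_mem' (hU i x) (k1 x j) ?_
      abel
    obtain ⟨U₁, u1, u2⟩ := ConeA_lift (μ := κ₃) (d := b₃) (R := -(U * M')) hN hUM (by
      classical
      intro j
      have e : (fun i => (-(U * M')) i j) = -(U.mulVec (M'.mulVec (Pi.single j 1))) := by
        funext i
        rw [Matrix.mulVec_mulVec, Matrix.neg_apply, Pi.neg_apply, Matrix.mulVec_single_one]
        rfl
      rw [e]
      exact (LinearMap.range N.mulVecLin).neg_mem (hc _ (hN'M' _)))
    have hNU : ∀ c, N.mulVec (U₁.mulVec c) = -(U.mulVec (M'.mulVec c)) := fun c => by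
      rw [Matrix.mulVec_mulVec, u2, Matrix.neg_mulVec, Matrix.mulVec_mulVec]
    refine ⟨κ₂ ⊕ κ₃, inferInstance, Sum.elim b₂ b₃, Matrix.fromBlocks M₂ U₁ 0 M', ?_, ?_, ?_⟩
    · rintro (i | i) (j | j)
      · exact g1 i j
      · exact u1 i j
      · exact Gr.zero_mem _
      · exact k1 i j
    · apply le_antisymm
      · rintro _ ⟨w, rfl⟩
        rw [hW, Matrix.mulVecLin_apply, Matrix.fromBlocks_mulVec]
        constructor
        · show N.mulVec (M₂.mulVec (w ∘ Sum.inl) + U₁.mulVec (w ∘ Sum.inr)) + U.mulVec ((0 : Matrix κ' κ₂ S).mulVec (w ∘ Sum.inl) + M'.mulVec (w ∘ Sum.inr)) = 0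
          rw [Matrix.mulVec_add, hNM₂, hNU, Matrix.zero_mulVec, zero_add, zero_add, neg_add_cancel]
        · show N'.mulVec ((0 : Matrix κ' κ₂ S).mulVec (w ∘ Sum.inl) + M'.mulVec (w ∘ Sum.inr)) = 0
          rw [Matrix.zero_mulVec, zero_add, hN'M']
      · intro w hw
        obtain ⟨e1, e2⟩ := (hW w).1 hw
        have h5 : (fun i => w (Sum.inr i)) ∈ LinearMap.range M'.mulVecLin := by
          rw [k2, LinearMap.mem_ker, Matrix.mulVecLin_apply]
          exact e2
        obtain ⟨d, hd⟩ := h5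
        rw [Matrix.mulVecLin_apply] at hd
        have h6 : (fun i => w (Sum.inl i)) - U₁.mulVec d ∈ LinearMap.range M₂.mulVecLin := by
          rw [g2, LinearMap.mem_ker, Matrix.mulVecLin_apply, Matrix.mulVec_sub, hNU, hd, sub_neg_eq_add]
          exact e1
        obtain ⟨c, hcc⟩ := h6
        rw [Matrix.mulVecLin_apply] at hcc
        refine ⟨Sum.elim c d, ?_⟩
        rw [Matrix.mulVecLin_apply, Matrix.fromBlocks_mulVec]
        funext x
        rcases x with x | x
        · show (M₂.mulVec c + U₁.mulVec d) x = w (Sum.inl x)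
          rw [hcc, sub_add_cancel]
        · show ((0 : Matrix κ' κ₂ S).mulVec c + M'.mulVec d) x = w (Sum.inr x)
          rw [Matrix.zero_mulVec, zero_add, hd]
    · refine ih g1 k1 u1 (fun c hc' => ?_) g3 k3 _ fun w => ?_
      · rw [g2, LinearMap.mem_ker, Matrix.mulVecLin_apply, hNU, hc', Matrix.mulVec_zero, neg_zero]
      · rw [LinearMap.mem_ker, Matrix.mulVecLin_apply, Matrix.fromBlocks_mulVec]
        constructor
        · intro e
          constructor
          · funext x
            exact congrFun e (Sum.inl x)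
          · funext x
            have e' : ((0 : Matrix κ' κ₂ S).mulVec (w ∘ Sum.inl) + M'.mulVec (w ∘ Sum.inr)) x = 0 := congrFun e (Sum.inr x)
            rw [Matrix.zero_mulVec, zero_add] at e'
            exact e'
        · rintro ⟨e1, e2⟩
          funext x
          rcases x with x | x
          · exact congrFun e1 x
          · show ((0 : Matrix κ' κ₂ S).mulVec (w ∘ Sum.inl) + M'.mulVec (w ∘ Sum.inr)) x = 0
            rw [Matrix.zero_mulVec, zero_add]
            exact congrFun e2 x

end Pool.Agent.SR
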