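import Pool.Agent.SR.ConeA

/-!
# SR ConeB: the cone lemma

`cone`: if `l' = 0` then `Z'' = ⊥ = Z`.  For `l' > 0` (use `FFR.mono` to make the lengths equal) write `Z'' = range M`, `Z' = range M'`, `ker M = range M₁`, choose homogeneous `U₀` with
`M U₀ = Q M'` as in `ext` (`Q (M' e_j) ∈ Z''`); then `Z = range (P M)`, `ker (P M) = range [M₁, U₀]` (`P M u = 0` means `M u ∈ Z'' ∩ ker P = Q Z'`, so `M u = Q M' c = M U₀ c`) and
`ker [M₁, U₀] = {(d, c) | M₁ d + U₀ c = 0, M' c = 0}` (if `M₁ d + U₀ c = 0` then `Q M' c = M U₀ c = - M M₁ d = 0`, and `Q` is injective on `Z'`), so `ext` applies to `M₁, M', U₀`.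
-/

set_option autoImplicit false

namespace Pool.Agent.SR

universe u

variable {Γ : Type} [AddCommGroup Γ] {S : Type u} [CommRing S] {G : Gr Γ S}

/-- a product of maps of degree `0` has degree `0` -/
private theorem ConeB_mul {ι κ μ : Type} [Fintype κ] {a : ι → Γ} {b : κ → Γ} {d : μ → Γ} {N : Matrix ι κ S} {R : Matrix κ μ S} (hN : HomM G a b N) (hR : HomM G b d R) :
    HomM G a d (N * R) := by
  intro i j
  rw [Matrix.mul_apply]
  refine (G.deg _).sum_mem fun x _ => ?_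
  refine Gr.mul_mem' (hN i x) (hR x j) ?_
  abel

theorem cone {ι ι' ι'' : Type} [Fintype ι] [Fintype ι'] [Fintype ι''] {a : ι → Γ} {a' : ι' → Γ} {a'' : ι'' → Γ} {P : Matrix ι ι'' S} {Q : Matrix ι'' ι' S}
    (hP : HomM G a a'' P) (hQ : HomM G a'' a' Q) {Z : Submodule S (ι → S)} {Z' : Submodule S (ι' → S)} {Z'' : Submodule S (ι'' → S)}
    (h1 : Z''.map P.mulVecLin = Z) (h2 : Z'' ⊓ LinearMap.ker P.mulVecLin = Z'.map Q.mulVecLin) (h3 : ∀ c ∈ Z', Q.mulVec c = 0 → c = 0)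
    {l l' : ℕ} (h' : FFR G l ι' a' Z') (h'' : FFR G l' ι'' a'' Z'') : ∃ m, FFR G m ι a Z := by
  -- equal lengths `L + 2`
  obtain ⟨L, hL, hL'⟩ : ∃ L, l ≤ L + 1 ∧ l' ≤ L + 2 := ⟨l + l', by omega, by omega⟩
  have f' : FFR G (L + 1) ι' a' Z' := FFR.mono hL h'
  have f'' : FFR G (L + 2) ι'' a'' Z'' := FFR.mono hL' h''
  obtain ⟨κ', i1, b', M', m1, m2, m3⟩ := f'
  obtain ⟨κ, i2, b, M, n1, n2, n3⟩ := f''
  obtain ⟨κ₁, i3, b₁, M₁, p1, p2, p3⟩ := n3
  have hM' : ∀ c, M'.mulVec c ∈ Z' := fun c => m2 ▸ ⟨c, Matrix.mulVecLin_apply _ _⟩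
  have hM : ∀ c, M.mulVec c ∈ Z'' := fun c => n2 ▸ ⟨c, Matrix.mulVecLin_apply _ _⟩
  have hMM₁ : ∀ c, M.mulVec (M₁.mulVec c) = 0 := fun c => by
    have : M₁.mulVec c ∈ LinearMap.ker M.mulVecLin := p2 ▸ ⟨c, Matrix.mulVecLin_apply _ _⟩
    rwa [LinearMap.mem_ker, Matrix.mulVecLin_apply] at this
  have hQZ : ∀ c ∈ Z', Q.mulVec c ∈ Z'' ∧ P.mulVec (Q.mulVec c) = 0 := fun c hc => by
    have : Q.mulVec c ∈ Z'' ⊓ LinearMap.ker P.mulVecLin := by
      rw [h2]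
      exact ⟨c, hc, Matrix.mulVecLin_apply _ _⟩
    refine ⟨this.1, ?_⟩
    have h := this.2
    rwa [SetLike.mem_coe, LinearMap.mem_ker, Matrix.mulVecLin_apply] at h
  obtain ⟨U₀, u1, u2⟩ := ConeA_lift (R := Q * M') n1 (ConeB_mul hQ m1) (by
    classical
    intro j
    have e : (fun i => (Q * M') i j) = Q.mulVec (M'.mulVec (Pi.single j 1)) := by
      funext i
      rw [Matrix.mulVec_mulVec, Matrix.mulVec_single_one]
      rfl
    rw [e, n2]
    exact (hQZ _ (hM' _)).1)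
  have hMU : ∀ c, M.mulVec (U₀.mulVec c) = Q.mulVec (M'.mulVec c) := fun c => by
    rw [Matrix.mulVec_mulVec, u2, ← Matrix.mulVec_mulVec]
  have key : ∀ (d : κ₁ → S) (c : κ' → S), M₁.mulVec d + U₀.mulVec c = 0 → M'.mulVec c = 0 := fun d c h => by
    refine h3 _ (hM' c) ?_
    rw [← hMU]
    have h4 := congrArg M.mulVec h
    rwa [Matrix.mulVec_add, hMM₁, zero_add, Matrix.mulVec_zero] at h4
  refine ⟨L + 2, κ, i2, b, P * M, ConeB_mul hP n1, ?_, κ₁ ⊕ κ', inferInstance, Sum.elim b₁ b', Matrix.fromCols M₁ U₀, ?_, ?_, ?_⟩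
  · rw [← h1, ← n2]
    apply le_antisymm
    · rintro _ ⟨w, rfl⟩
      refine ⟨M.mulVec w, ⟨w, Matrix.mulVecLin_apply _ _⟩, ?_⟩
      rw [Matrix.mulVecLin_apply, Matrix.mulVecLin_apply, Matrix.mulVec_mulVec]
    · rintro _ ⟨_, ⟨w, rfl⟩, rfl⟩
      refine ⟨w, ?_⟩
      rw [Matrix.mulVecLin_apply, Matrix.mulVecLin_apply, Matrix.mulVecLin_apply, Matrix.mulVec_mulVec]
  · rintro i (j | j)
    · exact p1 i j
    · exact u1 i j
  · apply le_antisymm
    · rintro _ ⟨w, rfl⟩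
      rw [LinearMap.mem_ker, Matrix.mulVecLin_apply, Matrix.mulVecLin_apply, Matrix.fromCols_mulVec, ← Matrix.mulVec_mulVec, Matrix.mulVec_add, hMM₁, hMU, zero_add]
      exact (hQZ _ (hM' _)).2
    · intro u hu
      rw [LinearMap.mem_ker, Matrix.mulVecLin_apply, ← Matrix.mulVec_mulVec] at hu
      have h5 : M.mulVec u ∈ Z'.map Q.mulVecLin := by
        rw [← h2]
        refine ⟨hM u, ?_⟩
        rw [SetLike.mem_coe, LinearMap.mem_ker, Matrix.mulVecLin_apply]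
        exact hu
      obtain ⟨z, hz, e⟩ := h5
      rw [Matrix.mulVecLin_apply] at e
      rw [SetLike.mem_coe, ← m2] at hz
      obtain ⟨c, rfl⟩ := hz
      rw [Matrix.mulVecLin_apply, ← hMU] at e
      have h6 : u - U₀.mulVec c ∈ LinearMap.range M₁.mulVecLin := by
        rw [p2, LinearMap.mem_ker, Matrix.mulVecLin_apply, Matrix.mulVec_sub, e, sub_self]
      obtain ⟨d, hd⟩ := h6
      rw [Matrix.mulVecLin_apply] at hd
      refine ⟨Sum.elim d c, ?_⟩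
      rw [Matrix.mulVecLin_apply, Matrix.fromCols_mulVec]
      show M₁.mulVec d + U₀.mulVec c = u
      rw [hd, sub_add_cancel]
  · refine ext L p1 m1 u1 (fun c hc => ?_) p3 m3 _ fun w => ?_
    · rw [p2, LinearMap.mem_ker, Matrix.mulVecLin_apply, hMU, hc, Matrix.mulVec_zero]
    · rw [LinearMap.mem_ker, Matrix.mulVecLin_apply, Matrix.fromCols_mulVec]
      exact ⟨fun h => ⟨h, key _ _ h⟩, fun h => h.1⟩

end Pool.Agent.SR
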