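import Pool.Agent.SR.Defs

/-!
# SR DimA: `A k n` is noetherian

`A k n` is generated by the `x_i y_j / q` as an algebra over `k` (a monomial of bidegree `(m, m)` is a product of `m` factors `x_i y_j`).
-/

set_option autoImplicit false

namespace Pool.Agent.SR

open MvPolynomial

universe u

/-- the generators `x_i y_j / q` -/
private noncomputable def DimA_gen (k : Type u) [Field k] (n : ℕ) (p : Fin (n + 1) × Fin (n + 1)) : K k n :=
  em k n (X (Sum.inl p.1) * X (Sum.inr p.2)) / em k n (q k n)

private noncomputable def DimA_hom (k : Type u) [Field k] (n : ℕ) : MvPolynomial (Fin (n + 1) × Fin (n + 1)) k →ₐ[k] K k n :=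
  aeval (DimA_gen k n)

private theorem DimA_wt {n : ℕ} (d : V n →₀ ℕ) : Finsupp.weight (wt n) d = (((∑ i, d (Sum.inl i) : ℕ) : ℤ), ((∑ i, d (Sum.inr i) : ℕ) : ℤ)) := by
  rw [Finsupp.weight_apply, Finsupp.sum_fintype _ _ (by intro i; simp), Fintype.sum_sum_type]
  ext <;> simp [wt, Prod.fst_sum, Prod.snd_sum]

private theorem DimA_mono (k : Type u) [Field k] (n : ℕ) (c : k) (m : ℕ) : ∀ (d : V n →₀ ℕ), ∑ i, d (Sum.inl i) = m → ∑ i, d (Sum.inr i) = m →
    em k n (monomial d c) / em k n (q k n) ^ m ∈ (DimA_hom k n).range := by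
  induction m with
  | zero =>
    intro d h1 h2
    have hd : d = 0 := by
      ext v
      rcases v with i | i
      · exact (Finset.sum_eq_zero_iff.1 h1) i (Finset.mem_univ _)
      · exact (Finset.sum_eq_zero_iff.1 h2) i (Finset.mem_univ _)
    rw [hd, pow_zero, div_one]
    refine ⟨MvPolynomial.C c, ?_⟩
    have : em k n (monomial 0 c) = algebraMap k (K k n) c := (IsScalarTower.algebraMap_apply k (T k n) (K k n) c).symm
    rw [this]
    exact (DimA_hom k n).commutes c
  | succ m ih =>
    intro d h1 h2
    obtain ⟨i, hi⟩ : ∃ i, d (Sum.inl i) ≠ 0 := by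
      by_contra hc
      push Not at hc
      simp [hc] at h1
    obtain ⟨j, hj⟩ : ∃ j, d (Sum.inr j) ≠ 0 := by
      by_contra hc
      push Not at hc
      simp [hc] at h2
    have hle : Finsupp.single (Sum.inl i : V n) 1 + Finsupp.single (Sum.inr j : V n) 1 ≤ d := by
      intro v
      rcases v with a | a
      · by_cases ha : a = i
        · subst ha
          simp
          omega
        · have : (Sum.inl i : V n) ≠ Sum.inl a := fun h => ha (Sum.inl_injective h).symm
          simp [this]
      · by_cases ha : a = j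
        · subst ha
          simp
          omega
        · have : (Sum.inr j : V n) ≠ Sum.inr a := fun h => ha (Sum.inr_injective h).symm
          simp [this]
    obtain ⟨e, he⟩ := exists_add_of_le hle
    have h3 : ∑ a, e (Sum.inl a) = m := by
      have : ∑ a, d (Sum.inl a) = 1 + ∑ a, e (Sum.inl a) := by
        rw [he]
        simp [Finset.sum_add_distrib, Finsupp.single_apply]
      omega
    have h4 : ∑ a, e (Sum.inr a) = m := by
      have : ∑ a, d (Sum.inr a) = 1 + ∑ a, e (Sum.inr a) := by
        rw [he]
        simp [Finset.sum_add_distrib, Finsupp.single_apply]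
      omega
    have h5 := ih e h3 h4
    have h6 : DimA_gen k n (i, j) ∈ (DimA_hom k n).range := ⟨X (i, j), aeval_X _ _⟩
    have h7 := (DimA_hom k n).range.mul_mem h6 h5
    have h8 : em k n (monomial d c) / em k n (q k n) ^ (m + 1) = DimA_gen k n (i, j) * (em k n (monomial e c) / em k n (q k n) ^ m) := by
      have h9 : monomial d c = (X (Sum.inl i) * X (Sum.inr j)) * monomial e c := by
        rw [he, X, X, monomial_mul, monomial_mul, one_mul, one_mul]
      rw [h9, em_mul, DimA_gen, pow_succ, div_mul_div_comm]
      rw [mul_comm (em k n (q k n) ^ m)]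
    rw [h8]
    exact h7

private theorem DimA_le (k : Type u) [Field k] (n : ℕ) : As k n ≤ (DimA_hom k n).range := by
  rintro z ⟨m, g, hg, hz⟩
  have h1 : z = em k n g / em k n (q k n) ^ m := by
    rw [← hz, mul_div_assoc, div_self (pow_ne_zero _ emq_ne_zero), mul_one]
  rw [h1, g.as_sum, em_sum, Finset.sum_div]
  refine (DimA_hom k n).range.sum_mem fun d hd => ?_
  have h2 := hg (mem_support_iff.1 hd)
  rw [DimA_wt] at h2
  have h3 := congrArg Prod.fst h2
  have h4 := congrArg Prod.snd h2
  simp only [Nat.cast_inj] at h3 h4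
  exact DimA_mono k n _ m d h3 h4

private theorem DimA_ge (k : Type u) [Field k] (n : ℕ) : (DimA_hom k n).range ≤ As k n := by
  rintro z ⟨p, rfl⟩
  induction p using MvPolynomial.induction_on with
  | C a =>
    have : (DimA_hom k n) (MvPolynomial.C a) = algebraMap k (K k n) a := (DimA_hom k n).commutes a
    change (DimA_hom k n) (MvPolynomial.C a) ∈ As k n
    rw [this]
    exact (As k n).algebraMap_mem a
  | add p r hp hr =>
    change (DimA_hom k n) (p + r) ∈ As k n
    rw [map_add]
    exact (As k n).add_mem hp hr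
  | mul_X p v hp =>
    change (DimA_hom k n) (p * X v) ∈ As k n
    rw [map_mul]
    refine (As k n).mul_mem hp ?_
    have : (DimA_hom k n) (X v) = DimA_gen k n v := aeval_X _ _
    rw [this]
    refine ⟨1, X (Sum.inl v.1) * X (Sum.inr v.2), ((Bi.x v.1).mul (Bi.y v.2)).cast (by norm_num) (by norm_num), ?_⟩
    rw [DimA_gen, pow_one, div_mul_cancel₀ _ emq_ne_zero]

theorem noeth (k : Type u) [Field k] (n : ℕ) : IsNoetherianRing (A k n) := by
  have h : (DimA_hom k n).range = As k n := le_antisymm (DimA_ge k n) (DimA_le k n)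
  have h1 : IsNoetherianRing (DimA_hom k n).range :=
    isNoetherianRing_of_surjective _ _ (DimA_hom k n).rangeRestrict.toRingHom (DimA_hom k n).rangeRestrict_surjective
  rw [h] at h1
  exact h1

end Pool.Agent.SR
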