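import Pool.Agent.SR.Defs

/-!
# SR DimB: `A k n` has dimension `≤ 2 n`

Let `p` be a prime of `A = A k n`.  `∑ x_i y_i / q = 1`, so some `e = x_i y_i / q` is not in `p`.  `A[1/e]` is the localisation of the polynomial ring in the `2 n` variables
`x_j / x_i`, `y_j / y_i` (`j ≠ i`) at `1 + ∑_(j ≠ i) (x_j / x_i) (y_j / y_i) = 1 / e` (inside `K k n`: every element of `A[1/e]` is `g / (x_i y_i)^m (1/e)^(-l)` with `g` of bidegree `(m, m)`),
so a chain of primes contained in `p` has length `≤ 2 n` (`MvPolynomial.ringKrullDim_of_isNoetherianRing`).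
For instance: for every `i` the ring map `k[s_j, t_j : j ≠ i] → K k n`, `s_j ↦ x_j / x_i`, `t_j ↦ y_j / y_i`, and the subring of its image and `e`.
-/

set_option autoImplicit false

namespace Pool.Agent.SR

open MvPolynomial

universe u

section DimB_abs

variable {A R L : Type*} [CommRing A] [CommRing R] [Field L] [Algebra A L] [Algebra R L]

/-- the prime of `R` which belongs to the prime `P` of `A` with `e ∉ P` -/
private def DimB_f (e : A) (hinj : Function.Injective (algebraMap A L))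
    (H1 : ∀ r : R, ∃ (M : ℕ) (a : A), algebraMap R L r * algebraMap A L e ^ M = algebraMap A L a)
    (P : PrimeSpectrum A) (hP : e ∉ P.asIdeal) : PrimeSpectrum R where
  asIdeal :=
    { carrier := {r | ∃ (M : ℕ) (a : A), a ∈ P.asIdeal ∧ algebraMap R L r * algebraMap A L e ^ M = algebraMap A L a}
      zero_mem' := ⟨0, 0, P.asIdeal.zero_mem, by simp⟩
      add_mem' := by
        rintro r s ⟨M, a, ha, h1⟩ ⟨N, b, hb, h2⟩
        refine ⟨M + N, a * e ^ N + b * e ^ M, P.asIdeal.add_mem (P.asIdeal.mul_mem_right _ ha) (P.asIdeal.mul_mem_right _ hb), ?_⟩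
        rw [map_add, map_add, map_mul, map_mul, map_pow, map_pow, ← h1, ← h2]
        ring
      smul_mem' := by
        rintro c r ⟨M, a, ha, h1⟩
        obtain ⟨N, b, h2⟩ := H1 c
        refine ⟨N + M, b * a, P.asIdeal.mul_mem_left _ ha, ?_⟩
        rw [smul_eq_mul, map_mul, map_mul, ← h1, ← h2]
        ring }
  isPrime := by
    have he : ∀ M : ℕ, e ^ M ∉ P.asIdeal := fun M h => hP (P.isPrime.mem_of_pow_mem M h)
    refine ⟨?_, ?_⟩
    · intro h
      obtain ⟨M, a, ha, h1⟩ := (Ideal.eq_top_iff_one _).mp h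
      rw [map_one, one_mul, ← map_pow] at h1
      exact he M (hinj h1 ▸ ha)
    · rintro r s ⟨M, a, ha, h1⟩
      obtain ⟨M1, a1, h2⟩ := H1 r
      obtain ⟨M2, a2, h3⟩ := H1 s
      have h4 : a1 * a2 * e ^ M = a * e ^ (M1 + M2) := by
        apply hinj
        rw [map_mul, map_mul, map_pow, map_mul, map_pow, ← h1, ← h2, ← h3, map_mul]
        ring
      have h5 : a1 * a2 * e ^ M ∈ P.asIdeal := h4 ▸ P.asIdeal.mul_mem_right _ ha
      rcases P.isPrime.mem_or_mem h5 with h6 | h6
      · rcases P.isPrime.mem_or_mem h6 with h7 | h7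
        · exact Or.inl ⟨M1, a1, h7, h2⟩
        · exact Or.inr ⟨M2, a2, h7, h3⟩
      · exact absurd h6 (he M)

private theorem DimB_height (e : A) (hinj : Function.Injective (algebraMap A L))
    (H1 : ∀ r : R, ∃ (M : ℕ) (a : A), algebraMap R L r * algebraMap A L e ^ M = algebraMap A L a)
    (H2 : ∀ a : A, ∃ (N : ℕ) (r : R), algebraMap R L r * algebraMap A L e ^ N = algebraMap A L a)
    (P : PrimeSpectrum A) (hP : e ∉ P.asIdeal) : (P.asIdeal.height : WithBot ℕ∞) ≤ ringKrullDim R := by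
  have hle : ∀ Q : Set.Iic P, e ∉ Q.1.asIdeal := fun Q h => hP ((show Q.1.asIdeal ≤ P.asIdeal from Q.2) h)
  rw [PrimeSpectrum.height_eq_orderHeight, Order.height_eq_krullDim_Iic]
  refine Order.krullDim_le_of_strictMono (fun Q : Set.Iic P => DimB_f e hinj H1 Q.1 (hle Q)) ?_
  intro Q Q' hQ
  have h1 : Q.1.asIdeal < Q'.1.asIdeal := hQ
  obtain ⟨a, ha, ha'⟩ := Set.exists_of_ssubset h1
  change DimB_f e hinj H1 Q.1 (hle Q) < DimB_f e hinj H1 Q'.1 (hle Q')
  refine lt_of_le_of_ne ?_ ?_
  · rintro r ⟨M, b, hb, h2⟩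
    exact ⟨M, b, h1.le hb, h2⟩
  · intro h
    obtain ⟨N, r, h2⟩ := H2 a
    have h3 : r ∈ (DimB_f e hinj H1 Q'.1 (hle Q')).asIdeal := ⟨N, a, ha, h2⟩
    rw [← h] at h3
    obtain ⟨M, b, hb, h4⟩ := h3
    have h5 : a * e ^ M = b * e ^ N := by
      apply hinj
      rw [map_mul, map_mul, map_pow, map_pow, ← h2, ← h4]
      ring
    have h6 : a * e ^ M ∈ Q.1.asIdeal := h5 ▸ Q.1.asIdeal.mul_mem_right _ hb
    rcases Q.1.isPrime.mem_or_mem h6 with h7 | h7
    · exact ha' h7
    · exact hle Q (Q.1.isPrime.mem_of_pow_mem M h7)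

end DimB_abs

variable (k : Type u) [Field k] (n : ℕ)

private abbrev DimB_I (i : Fin (n + 1)) := {j : Fin (n + 1) // j ≠ i} ⊕ {j : Fin (n + 1) // j ≠ i}

private noncomputable def DimB_phi (i : Fin (n + 1)) : MvPolynomial (DimB_I n i) k →ₐ[k] K k n :=
  aeval (Sum.elim (fun j => em k n (X (Sum.inl j.1)) / em k n (X (Sum.inl i))) (fun j => em k n (X (Sum.inr j.1)) / em k n (X (Sum.inr i))))

private noncomputable def DimB_chi (i : Fin (n + 1)) : T k n →ₐ[k] MvPolynomial (DimB_I n i) k :=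
  aeval (Sum.elim (fun j => if h : j = i then 1 else X (Sum.inl ⟨j, h⟩)) (fun j => if h : j = i then 1 else X (Sum.inr ⟨j, h⟩)))

variable {k n}

private theorem DimB_X_ne (v : V n) : em k n (X v) ≠ 0 := fun h => X_ne_zero v (em_inj k n (h.trans (em_zero k n).symm))

private theorem DimB_phi_chi_X (i : Fin (n + 1)) (v : V n) :
    em k n (X v) = Sum.elim (fun _ => em k n (X (Sum.inl i))) (fun _ => em k n (X (Sum.inr i))) v * DimB_phi k n i (DimB_chi k n i (X v)) := by
  rcases v with j | j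
  · by_cases h : j = i
    · subst h
      simp [DimB_chi]
    · simp only [DimB_chi, aeval_X, Sum.elim_inl, dif_neg h, DimB_phi]
      rw [mul_div_cancel₀ _ (DimB_X_ne _)]
  · by_cases h : j = i
    · subst h
      simp [DimB_chi]
    · simp only [DimB_chi, aeval_X, Sum.elim_inr, dif_neg h, DimB_phi]
      rw [mul_div_cancel₀ _ (DimB_X_ne _)]

private theorem DimB_dehom (i : Fin (n + 1)) (a b : ℕ) (g : T k n) (hg : Bi k n a b g) :
    em k n g = em k n (X (Sum.inl i)) ^ a * em k n (X (Sum.inr i)) ^ b * DimB_phi k n i (DimB_chi k n i g) := by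
  have key : ∀ d ∈ g.support, em k n (monomial d (coeff d g)) =
      em k n (X (Sum.inl i)) ^ a * em k n (X (Sum.inr i)) ^ b * DimB_phi k n i (DimB_chi k n i (monomial d (coeff d g))) := by
    intro d hd
    have h1 : Finsupp.weight (wt n) d = ((a : ℤ), (b : ℤ)) := hg (mem_support_iff.mp hd)
    have h2 : (∑ j, d (Sum.inl j) = a) ∧ (∑ j, d (Sum.inr j) = b) := by
      rw [Finsupp.weight_apply, Finsupp.sum_fintype _ _ (by simp), Fintype.sum_sum_type] at h1
      simp only [wt, Sum.elim_inl, Sum.elim_inr] at h1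
      have h3 := congrArg Prod.fst h1
      have h4 := congrArg Prod.snd h1
      simp only [Prod.fst_add, Prod.snd_add, Prod.fst_sum, Prod.snd_sum, Prod.smul_fst, Prod.smul_snd, smul_zero, Finset.sum_const_zero, add_zero, zero_add] at h3 h4
      simp only [nsmul_eq_mul, mul_one] at h3 h4
      exact ⟨by exact_mod_cast h3, by exact_mod_cast h4⟩
    rw [monomial_eq, Finsupp.prod_fintype _ _ (by simp)]
    have e1 : em k n (C (coeff d g)) = DimB_phi k n i (DimB_chi k n i (C (coeff d g))) := by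
      rw [← algebraMap_eq, AlgHom.commutes, AlgHom.commutes]
      exact (IsScalarTower.algebraMap_apply k (T k n) (K k n) _).symm
    have e2 : em k n (∏ v, X v ^ d v) = ∏ v, em k n (X v) ^ d v := by
      rw [← Finset.prod_congr rfl fun v _ => em_pow k n (X v) (d v)]
      exact map_prod _ _ _
    rw [em_mul, map_mul, map_mul, ← e1, e2, map_prod, map_prod]
    have e3 : ∀ v, em k n (X v) ^ d v = Sum.elim (fun _ => em k n (X (Sum.inl i))) (fun _ => em k n (X (Sum.inr i))) v ^ d v *
        DimB_phi k n i (DimB_chi k n i (X v ^ d v)) := by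
      intro v
      rw [map_pow, map_pow, ← mul_pow, ← DimB_phi_chi_X]
    rw [Finset.prod_congr rfl fun v _ => e3 v, Finset.prod_mul_distrib, Fintype.prod_sum_type]
    simp only [Sum.elim_inl, Sum.elim_inr]
    rw [Finset.prod_pow_eq_pow_sum, Finset.prod_pow_eq_pow_sum, h2.1, h2.2]
    ring
  conv_lhs => rw [← support_sum_monomial_coeff g]
  conv_rhs => rw [← support_sum_monomial_coeff g]
  rw [em_sum, map_sum, map_sum, Finset.mul_sum]
  exact Finset.sum_congr rfl key

/-- every element of the image of `DimB_phi` is a quotient `a / e^M` -/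
private theorem DimB_H1 (i : Fin (n + 1)) (e : A k n) (he : algebraMap (A k n) (K k n) e * em k n (q k n) = em k n (X (Sum.inl i) * X (Sum.inr i)))
    (p : MvPolynomial (DimB_I n i) k) : ∃ (M : ℕ) (a : A k n), DimB_phi k n i p * algebraMap (A k n) (K k n) e ^ M = algebraMap (A k n) (K k n) a := by
  have he' : algebraMap (A k n) (K k n) e = em k n (X (Sum.inl i)) * em k n (X (Sum.inr i)) / em k n (q k n) := by
    rw [eq_div_iff emq_ne_zero, he, em_mul]
  induction p using MvPolynomial.induction_on with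
  | C c =>
    refine ⟨0, algebraMap k (A k n) c, ?_⟩
    rw [pow_zero, mul_one, ← algebraMap_eq, AlgHom.commutes]
    exact IsScalarTower.algebraMap_apply k (A k n) (K k n) c
  | add p r hp hr =>
    obtain ⟨M, a, h1⟩ := hp
    obtain ⟨N, b, h2⟩ := hr
    refine ⟨M + N, a * e ^ N + b * e ^ M, ?_⟩
    rw [map_add, map_add, map_mul, map_mul, map_pow, map_pow, ← h1, ← h2]
    ring
  | mul_X p v hp =>
    obtain ⟨M, a, h1⟩ := hp
    have h2 : ∃ b : A k n, DimB_phi k n i (X v) * algebraMap (A k n) (K k n) e = algebraMap (A k n) (K k n) b := by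
      rcases v with j | j
      · obtain ⟨b, hb⟩ := A.mk (k := k) (n := n) (z := em k n (X (Sum.inl j.1)) * em k n (X (Sum.inr i)) / em k n (q k n)) (m := 1)
          (g := X (Sum.inl j.1) * X (Sum.inr i)) (((Bi.x _).mul (Bi.y _)).cast (by norm_num) (by norm_num))
          (by rw [pow_one, div_mul_cancel₀ _ emq_ne_zero, em_mul])
        refine ⟨b, ?_⟩
        rw [hb, he']
        simp only [DimB_phi, aeval_X, Sum.elim_inl]
        have h3 := DimB_X_ne (k := k) (Sum.inl i : V n)
        have h4 := emq_ne_zero (k := k) (n := n)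
        field_simp
      · obtain ⟨b, hb⟩ := A.mk (k := k) (n := n) (z := em k n (X (Sum.inl i)) * em k n (X (Sum.inr j.1)) / em k n (q k n)) (m := 1)
          (g := X (Sum.inl i) * X (Sum.inr j.1)) (((Bi.x _).mul (Bi.y _)).cast (by norm_num) (by norm_num))
          (by rw [pow_one, div_mul_cancel₀ _ emq_ne_zero, em_mul])
        refine ⟨b, ?_⟩
        rw [hb, he']
        simp only [DimB_phi, aeval_X, Sum.elim_inr]
        have h3 := DimB_X_ne (k := k) (Sum.inr i : V n)
        have h4 := emq_ne_zero (k := k) (n := n)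
        field_simp
    obtain ⟨b, hb⟩ := h2
    refine ⟨M + 1, a * b, ?_⟩
    rw [map_mul, map_mul, ← h1, ← hb]
    ring

private theorem DimB_H2 (i : Fin (n + 1)) (e : A k n) (he : algebraMap (A k n) (K k n) e * em k n (q k n) = em k n (X (Sum.inl i) * X (Sum.inr i)))
    (a : A k n) : ∃ (N : ℕ) (p : MvPolynomial (DimB_I n i) k), DimB_phi k n i p * algebraMap (A k n) (K k n) e ^ N = algebraMap (A k n) (K k n) a := by
  obtain ⟨m, g, hg, h1⟩ := a.exists
  refine ⟨m, DimB_chi k n i g, ?_⟩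
  have h2 := DimB_dehom i m m g hg
  have h3 := pow_ne_zero m (emq_ne_zero (k := k) (n := n))
  apply mul_right_cancel₀ h3
  rw [h1, h2, mul_assoc, ← mul_pow, he, em_mul, mul_pow]
  ring

private theorem DimB_exists (P : PrimeSpectrum (A k n)) : ∃ (i : Fin (n + 1)) (e : A k n),
    algebraMap (A k n) (K k n) e * em k n (q k n) = em k n (X (Sum.inl i) * X (Sum.inr i)) ∧ e ∉ P.asIdeal := by
  have h : ∀ i : Fin (n + 1), ∃ e : A k n, algebraMap (A k n) (K k n) e * em k n (q k n) = em k n (X (Sum.inl i) * X (Sum.inr i)) := by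
    intro i
    obtain ⟨b, hb⟩ := A.mk (k := k) (n := n) (z := em k n (X (Sum.inl i) * X (Sum.inr i)) / em k n (q k n)) (m := 1)
      (g := X (Sum.inl i) * X (Sum.inr i)) (((Bi.x _).mul (Bi.y _)).cast (by norm_num) (by norm_num))
      (by rw [pow_one, div_mul_cancel₀ _ emq_ne_zero])
    exact ⟨b, by rw [hb, div_mul_cancel₀ _ emq_ne_zero]⟩
  choose e he using h
  by_contra hc
  push Not at hc
  have h1 : ∑ i, e i = 1 := by
    apply A.inj
    apply mul_right_cancel₀ (emq_ne_zero (k := k) (n := n))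
    rw [map_sum, map_one, one_mul, Finset.sum_mul, Finset.sum_congr rfl fun i _ => he i, ← em_sum]
    rfl
  apply P.isPrime.ne_top
  rw [Ideal.eq_top_iff_one, ← h1]
  exact Ideal.sum_mem _ fun i _ => hc i (e i) (he i)

theorem krull (k : Type u) [Field k] (n : ℕ) : ringKrullDim (A k n) ≤ (2 * n : ℕ) := by
  rw [ringKrullDim_le_iff_height_le]
  intro I hI
  obtain ⟨i, e, he, hP⟩ := DimB_exists (⟨I, hI⟩ : PrimeSpectrum (A k n))
  have h1 := DimB_height (R := (DimB_phi k n i).range) (L := K k n) e A.inj ?_ ?_ (⟨I, hI⟩ : PrimeSpectrum (A k n)) hP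
  · refine h1.trans ?_
    refine (ringKrullDim_le_of_surjective (DimB_phi k n i).rangeRestrict.toRingHom (DimB_phi k n i).rangeRestrict_surjective).trans ?_
    rw [MvPolynomial.ringKrullDim_of_isNoetherianRing, ringKrullDim_eq_zero_of_field, zero_add]
    have h2 : Nat.card (DimB_I n i) = 2 * n := by
      simp [two_mul]
    rw [h2]
  · rintro ⟨_, p, rfl⟩
    exact DimB_H1 i e he p
  · intro a
    obtain ⟨N, p, hp⟩ := DimB_H2 i e he a
    exact ⟨N, ⟨DimB_phi k n i p, p, rfl⟩, hp⟩

end Pool.Agent.SR
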