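import Mathlib

/-!
# SR DimC: dimension functions
-/

set_option autoImplicit false

namespace Pool.Agent.SR

universe u

/-- a ring of dimension `≤ d` has a dimension function `≤ d`: `Order.coheight` -/
theorem dimfun {R : Type u} [CommRing R] {d : ℕ} (h : ringKrullDim R ≤ d) : ∃ δ : PrimeSpectrum R → ℕ, (∀ p p', p < p' → δ p' < δ p) ∧ ∀ p, δ p ≤ d := by
  have hle : ∀ p : PrimeSpectrum R, Order.coheight p ≤ (d : ℕ∞) := by
    intro p
    have h1 : ((Order.coheight p : ℕ∞) : WithBot ℕ∞) ≤ ((d : ℕ∞) : WithBot ℕ∞) :=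
      (Order.coheight_le_krullDim p).trans h
    exact WithBot.coe_le_coe.1 h1
  have hfin : ∀ p : PrimeSpectrum R, Order.coheight p ≠ ⊤ := by
    intro p hp
    have := hle p
    rw [hp] at this
    exact absurd this (by simp)
  refine ⟨fun p => (Order.coheight p).toNat, ?_, ?_⟩
  · intro p p' hpp
    have h1 : Order.coheight p' < Order.coheight p :=
      Order.coheight_strictAnti hpp (lt_top_iff_ne_top.2 (hfin p'))
    have e1 := ENat.natCast_toNat (hfin p')
    have e2 := ENat.natCast_toNat (hfin p)
    rw [← e1, ← e2] at h1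
    exact_mod_cast h1
  · intro p
    exact ENat.toNat_le_of_le_natCast (hle p)

end Pool.Agent.SR
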