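import Pool.Agent.SR.EED

/-!
# SR EEA
-/

set_option autoImplicit false

namespace Pool.Agent.SR

universe u

variable {R : Type u} [CommRing R]

private theorem EEA_rows {K : Type*} [Field K] {N m t : ℕ} (M : Matrix (Fin N) (Fin m) K) (h : t < M.rank) :
    ∃ r : Fin (t + 1) → Fin N, LinearIndependent K (M.submatrix r id).row := by
  rw [Matrix.rank_eq_finrank_span_row] at h
  obtain ⟨f, hf, -, hi⟩ := Submodule.exists_fun_fin_finrank_span_eq K (Set.range M.row)
  choose g hg using hf
  refine ⟨fun i => g (Fin.castLE h i), ?_⟩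
  have e : (M.submatrix (fun i => g (Fin.castLE h i)) id).row = fun i => f (Fin.castLE h i) := by
    funext i
    exact hg (Fin.castLE h i)
  rw [e]
  exact hi.comp _ (Fin.castLE_injective h)

private theorem EEA_minor {K : Type*} [Field K] {N m t : ℕ} (M : Matrix (Fin N) (Fin m) K) (h : t < M.rank) :
    ∃ (r : Fin (t + 1) → Fin N) (c : Fin (t + 1) → Fin m), (M.submatrix r c).det ≠ 0 := by
  obtain ⟨r, hr⟩ := EEA_rows M h
  have h1 : (M.submatrix r id).rank = t + 1 := by
    simpa using hr.rank_matrix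
  have h2 : t < ((M.submatrix r id).transpose).rank := by
    rw [Matrix.rank_transpose, h1]
    exact Nat.lt_succ_self t
  obtain ⟨c, hc⟩ := EEA_rows _ h2
  refine ⟨r, c, ?_⟩
  have h3 : IsUnit (((M.submatrix r id).transpose).submatrix c id) := Matrix.linearIndependent_rows_iff_isUnit.mp hc
  have h4 : ((M.submatrix r id).transpose).submatrix c id = (M.submatrix r c).transpose := by
    ext i j
    rfl
  rw [h4, Matrix.isUnit_iff_isUnit_det, Matrix.det_transpose] at h3
  exact h3.ne_zero

private theorem EEA_iff (p : PrimeSpectrum R) {N m : ℕ} (U : Matrix (Fin N) (Fin m) R) (t : ℕ) :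
    rk p U ≤ t ↔ ∀ (r : Fin (t + 1) → Fin N) (c : Fin (t + 1) → Fin m), (U.submatrix r c).det ∈ p.asIdeal := by
  have key : ∀ (r : Fin (t + 1) → Fin N) (c : Fin (t + 1) → Fin m),
      ((U.map (algebraMap R p.asIdeal.ResidueField)).submatrix r c).det = algebraMap R p.asIdeal.ResidueField (U.submatrix r c).det := by
    intro r c
    rw [RingHom.map_det]
    rfl
  constructor
  · intro h r c
    by_contra hn
    have h1 : ((U.map (algebraMap R p.asIdeal.ResidueField)).submatrix r c).det ≠ 0 := by
      rw [key]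
      intro h0
      exact hn (Ideal.algebraMap_residueField_eq_zero.mp h0)
    have h2 := Matrix.rank_of_det_ne_zero h1
    have h3 := Matrix.rank_submatrix_le (U.map (algebraMap R p.asIdeal.ResidueField)) r c
    rw [h2, Fintype.card_fin] at h3
    have h4 : rk p U = (U.map (algebraMap R p.asIdeal.ResidueField)).rank := rfl
    omega
  · intro h
    by_contra hn
    obtain ⟨r, c, hrc⟩ := EEA_minor (U.map (algebraMap R p.asIdeal.ResidueField)) (t := t) (not_le.mp hn)
    rw [key] at hrc
    exact hrc (Ideal.algebraMap_residueField_eq_zero.mpr (h r c))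

/-- the critical primes are minimal in the closed set `rk p U ≤ t` (closed: if the rank at `p` is `> t` then some minor of size `t + 1` is not in `p`) -/
theorem finite_crit [IsNoetherianRing R] {N m : ℕ} (U : Matrix (Fin N) (Fin m) R) (t : ℕ) : {p : PrimeSpectrum R | rk p U ≤ t ∧ ∀ p' < p, t < rk p' U}.Finite := by
  classical
  set I : Ideal R := Ideal.span (Set.range fun x : (Fin (t + 1) → Fin N) × (Fin (t + 1) → Fin m) => (U.submatrix x.1 x.2).det) with hI
  have hle : ∀ p : PrimeSpectrum R, rk p U ≤ t ↔ I ≤ p.asIdeal := by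
    intro p
    rw [EEA_iff, hI, Ideal.span_le]
    constructor
    · rintro h _ ⟨x, rfl⟩
      exact h x.1 x.2
    · intro h r c
      exact h ⟨(r, c), rfl⟩
  refine Set.Finite.of_finite_image (f := PrimeSpectrum.asIdeal) ((Ideal.finite_minimalPrimes_of_isNoetherianRing R I).subset ?_)
    (fun a _ b _ h => PrimeSpectrum.ext h)
  rintro _ ⟨p, ⟨hp, hm⟩, rfl⟩
  refine ⟨⟨p.isPrime, (hle p).mp hp⟩, ?_⟩
  rintro q ⟨hq, hIq⟩ hqp
  by_contra hn
  have h1 : (⟨q, hq⟩ : PrimeSpectrum R) < p := lt_of_le_of_ne hqp (fun h => hn (by rw [← h]))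
  have h2 := hm _ h1
  have h3 := (hle ⟨q, hq⟩).mpr hIq
  omega

end Pool.Agent.SR
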