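import Mathlib

/-!
# SR EEB
-/

set_option autoImplicit false

namespace Pool.Agent.SR

universe u

/-- one prime: over a field let `u_0, ..., u_m` (the columns of `U`) have rank `≤ m`, and `u_0 ≠ 0` if `a = 0`.  If `u_m` is not in the span of the other columns then these are dependent,
`∑_(j < m) b_j u_j = 0`, and some `b_j ≠ 0` with `j ≥ 1` or `a ≠ 0`; adding `a u_m` to `u_0`, or `u_m` to `u_j`, gives `m` columns with the same span as all of `U` -/
theorem step_field {F : Type u} [Field F] {N m : ℕ} (U : Matrix (Fin N) (Fin (m + 1)) F) (a : F) (h : U.rank ≤ m) (ha : a = 0 → ∃ i, U i 0 ≠ 0) :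
    ∃ g : Fin m → F, (∀ j, g j = 0 ∨ g j = 1) ∧ (Matrix.of fun (i : Fin N) (j : Fin m) => U i j.castSucc + (if (j : ℕ) = 0 then a * g j else g j) * U i (Fin.last m)).rank = U.rank := by
  classical
  set u : Fin m → (Fin N → F) := fun j i => U i j.castSucc with hu
  set ul : Fin N → F := fun i => U i (Fin.last m) with hul
  have hU : Set.range U.col = Set.range u ∪ {ul} := by
    ext v
    constructor
    · rintro ⟨j, rfl⟩
      refine Fin.lastCases ?_ ?_ j
      · exact Or.inr rfl
      · intro l
        exact Or.inl ⟨l, rfl⟩
    · rintro (⟨l, rfl⟩ | hv)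
      · exact ⟨l.castSucc, rfl⟩
      · refine ⟨Fin.last m, ?_⟩
        rw [Set.mem_singleton_iff.1 hv]
        rfl
  have hrU : U.rank = Module.finrank F (Submodule.span F (Set.range u ∪ {ul})) := by
    rw [Matrix.rank_eq_finrank_span_cols, hU]
  have key : ∀ g : Fin m → F, Submodule.span F (Set.range (fun j : Fin m => u j + (if (j : ℕ) = 0 then a * g j else g j) • ul)) = Submodule.span F (Set.range u ∪ {ul}) →
      (Matrix.of fun (i : Fin N) (j : Fin m) => U i j.castSucc + (if (j : ℕ) = 0 then a * g j else g j) * U i (Fin.last m)).rank = U.rank := by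
    intro g hg
    rw [hrU, ← hg, Matrix.rank_eq_finrank_span_cols]
    rfl
  by_cases hl : ul ∈ Submodule.span F (Set.range u)
  · refine ⟨fun _ => 0, fun _ => Or.inl rfl, key _ ?_⟩
    have h1 : (fun j : Fin m => u j + (if (j : ℕ) = 0 then a * (0 : F) else 0) • ul) = u := by
      funext j
      simp
    rw [h1]
    apply le_antisymm
    · exact Submodule.span_mono Set.subset_union_left
    · rw [Submodule.span_le]
      rintro v (hv | hv)
      · exact Submodule.subset_span hv
      · rw [Set.mem_singleton_iff.1 hv]
        exact hl
  · have hdep : ¬ LinearIndependent F u := by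
      intro hli
      have hli2 : LinearIndependent F (Fin.snoc (α := fun _ => Fin N → F) u ul : Fin (m + 1) → Fin N → F) :=
        hli.finSnoc hl
      have h2 : Set.range (Fin.snoc (α := fun _ => Fin N → F) u ul : Fin (m + 1) → Fin N → F) = Set.range u ∪ {ul} := by
        ext v
        constructor
        · rintro ⟨j, rfl⟩
          refine Fin.lastCases ?_ ?_ j
          · right
            simp
          · intro l
            left
            exact ⟨l, by simp⟩
        · rintro (⟨l, rfl⟩ | hv)
          · exact ⟨l.castSucc, by simp⟩
          · refine ⟨Fin.last m, ?_⟩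
            rw [Set.mem_singleton_iff.1 hv]
            simp
      have h3 := finrank_span_eq_card hli2
      rw [h2, ← hrU, Fintype.card_fin] at h3
      omega
    rw [Fintype.linearIndependent_iff] at hdep
    push Not at hdep
    obtain ⟨b, hb, j0, hj0⟩ := hdep
    have hex : ∃ j : Fin m, b j ≠ 0 ∧ (if (j : ℕ) = 0 then a else (1 : F)) ≠ 0 := by
      by_cases ha0 : a = 0
      · by_contra hcon
        push Not at hcon
        have hz : ∀ j : Fin m, (j : ℕ) ≠ 0 → b j = 0 := by
          intro j hj
          by_contra hbj
          have := hcon j hbj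
          rw [if_neg hj] at this
          exact one_ne_zero this
        have hj00 : (j0 : ℕ) = 0 := by
          by_contra hne
          exact hj0 (hz j0 hne)
        have hsum : b j0 • u j0 = 0 := by
          rw [← hb]
          symm
          apply Finset.sum_eq_single j0
          · intro j _ hj
            rw [hz j, zero_smul]
            intro h0
            apply hj
            apply Fin.ext
            rw [h0, hj00]
          · intro hn
            exact absurd (Finset.mem_univ _) hn
        have hu0 : u j0 = 0 := (smul_eq_zero.1 hsum).resolve_left hj0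
        obtain ⟨i, hi⟩ := ha ha0
        apply hi
        have h4 := congrFun hu0 i
        have h5 : (j0.castSucc : Fin (m + 1)) = 0 := by
          apply Fin.ext
          simp [hj00]
        simpa [hu, h5] using h4
      · refine ⟨j0, hj0, ?_⟩
        by_cases h0 : (j0 : ℕ) = 0
        · rw [if_pos h0]
          exact ha0
        · rw [if_neg h0]
          exact one_ne_zero
    obtain ⟨j1, hbj, hc⟩ := hex
    refine ⟨fun j => if j = j1 then 1 else 0, fun j => ?_, key _ ?_⟩
    · by_cases hj : j = j1
      · exact Or.inr (if_pos hj)
      · exact Or.inl (if_neg hj)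
    set c : F := (if (j1 : ℕ) = 0 then a else (1 : F)) with hcdef
    have hv : (fun j : Fin m => u j + (if (j : ℕ) = 0 then a * (if j = j1 then (1 : F) else 0) else (if j = j1 then (1 : F) else 0)) • ul) = fun j => u j + (if j = j1 then c else 0) • ul := by
      funext j
      by_cases hj : j = j1
      · subst hj
        simp [hcdef]
      · simp [hj]
    rw [hv]
    set v : Fin m → (Fin N → F) := fun j => u j + (if j = j1 then c else 0) • ul with hvdef
    have hsv : ∀ j, v j ∈ Submodule.span F (Set.range v) := fun j => Submodule.subset_span ⟨j, rfl⟩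
    have hul2 : ul ∈ Submodule.span F (Set.range v) := by
      have h6 : ∑ j, b j • v j = (b j1 * c) • ul := by
        have h7 : ∀ j, b j • v j = b j • u j + (if j = j1 then b j1 * c else 0) • ul := by
          intro j
          by_cases hj : j = j1
          · subst hj
            simp [hvdef, smul_smul]
          · simp [hvdef, hj]
        rw [Finset.sum_congr rfl (fun j _ => h7 j), Finset.sum_add_distrib, hb, zero_add, ← Finset.sum_smul]
        simp
      have h8 : (b j1 * c) • ul ∈ Submodule.span F (Set.range v) := by
        rw [← h6]
        exact Submodule.sum_mem _ (fun j _ => Submodule.smul_mem _ _ (hsv j))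
      have h9 : b j1 * c ≠ 0 := mul_ne_zero hbj hc
      exact (Submodule.smul_mem_iff _ h9).1 h8
    apply le_antisymm
    · rw [Submodule.span_le]
      rintro w ⟨j, rfl⟩
      exact Submodule.add_mem _ (Submodule.subset_span (Or.inl ⟨j, rfl⟩))
        (Submodule.smul_mem _ _ (Submodule.subset_span (Or.inr rfl)))
    · rw [Submodule.span_le]
      rintro w (⟨j, rfl⟩ | hw)
      · have h10 : u j = v j - (if j = j1 then c else 0) • ul := by
          simp [hvdef]
        rw [h10]
        exact Submodule.sub_mem _ (hsv j) (Submodule.smul_mem _ _ hul2)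
      · rw [Set.mem_singleton_iff.1 hw]
        exact hul2

end Pool.Agent.SR
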