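import Pool.Agent.SR.EED
import Pool.Agent.SR.EEB

/-!
# SR EEC
-/

set_option autoImplicit false

namespace Pool.Agent.SR

universe u

variable {R : Type u} [CommRing R]

private lemma EEC_span_le {F : Type u} [Field F] {N m : ℕ} (M M' : Matrix (Fin N) (Fin (m + 1)) F) (d : Fin m → F) (s : F)
    (h1 : ∀ i (j : Fin m), M' i j.castSucc = M i j.castSucc + d j * M i (Fin.last m)) (h2 : ∀ i, M' i (Fin.last m) = s * M i (Fin.last m)) :
    Submodule.span F (Set.range M'.col) ≤ Submodule.span F (Set.range M.col) := by
  rw [Submodule.span_le]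
  rintro _ ⟨j, rfl⟩
  have hl : M.col (Fin.last m) ∈ Submodule.span F (Set.range M.col) := Submodule.subset_span ⟨_, rfl⟩
  refine Fin.lastCases ?_ (fun j => ?_) j
  · have : M'.col (Fin.last m) = s • M.col (Fin.last m) := by
      funext i
      simp [Matrix.col_apply, h2]
    rw [this]
    exact Submodule.smul_mem _ _ hl
  · have : M'.col j.castSucc = M.col j.castSucc + d j • M.col (Fin.last m) := by
      funext i
      simp [Matrix.col_apply, h1]
    rw [this]
    exact Submodule.add_mem _ (Submodule.subset_span ⟨_, rfl⟩) (Submodule.smul_mem _ _ hl)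

private lemma EEC_rank {F : Type u} [Field F] {N m : ℕ} (M M' : Matrix (Fin N) (Fin (m + 1)) F) (d : Fin m → F) (s : F) (hs : s ≠ 0)
    (h1 : ∀ i (j : Fin m), M' i j.castSucc = M i j.castSucc + d j * M i (Fin.last m)) (h2 : ∀ i, M' i (Fin.last m) = s * M i (Fin.last m)) :
    M'.rank = M.rank := by
  rw [Matrix.rank_eq_finrank_span_cols, Matrix.rank_eq_finrank_span_cols]
  have hle := EEC_span_le M M' d s h1 h2
  have hge := EEC_span_le M' M (fun j => - (d j * s⁻¹)) s⁻¹
    (fun i j => by rw [h1, h2]; field_simp; ring) (fun i => by rw [h2]; field_simp)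
  rw [le_antisymm hle hge]

private lemma EEC_mem (p : PrimeSpectrum R) (x : R) : algebraMap R p.asIdeal.ResidueField x = 0 ↔ x ∈ p.asIdeal :=
  Ideal.algebraMap_residueField_eq_zero

private lemma EEC_sep (C : Finset (PrimeSpectrum R)) (p : PrimeSpectrum R) (h : ∀ q ∈ C, ¬ q.asIdeal ≤ p.asIdeal) :
    ∃ s : R, s ∉ p.asIdeal ∧ ∀ q ∈ C, s ∈ q.asIdeal := by
  classical
  induction C using Finset.induction_on with
  | empty => exact ⟨1, fun h1 => p.2.ne_top ((Ideal.eq_top_iff_one _).mpr h1), by simp⟩
  | insert q C hq ih =>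
    obtain ⟨s, hs, hC⟩ := ih (fun q' hq' => h q' (Finset.mem_insert_of_mem hq'))
    obtain ⟨t, ht, htp⟩ := Set.not_subset.mp (h q (Finset.mem_insert_self _ _))
    refine ⟨s * t, fun hst => ?_, ?_⟩
    · rcases p.2.mem_or_mem hst with h' | h'
      · exact hs h'
      · exact htp h'
    · intro q' hq'
      rcases Finset.mem_insert.mp hq' with rfl | h'
      · exact Ideal.mul_mem_left _ _ ht
      · exact Ideal.mul_mem_right _ _ (hC q' h')

/-- finitely many primes at the same time: induction over the set `C`, removing a minimal element `p` of `C`: there is an `s` in all the other primes of `C` and not in `p`;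
apply `step_field` to the columns already found for `C \ {p}` and add `s g_j u_m` (scaling by the unit `s` of the residue field of `p`) -/
theorem step {N m : ℕ} (U : Matrix (Fin N) (Fin (m + 1)) R) (a : R) (C : Finset (PrimeSpectrum R)) (h : ∀ p ∈ C, rk p U ≤ m) (ha : ∀ p ∈ C, a ∈ p.asIdeal → ∃ i, U i 0 ∉ p.asIdeal) :
    ∃ c : Fin m → R, ∀ p ∈ C, rk p (Matrix.of fun (i : Fin N) (j : Fin m) => U i j.castSucc + (if (j : ℕ) = 0 then a * c j else c j) * U i (Fin.last m)) = rk p U := by
  classical
  induction C using Finset.strongInduction with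
  | H C ih =>
    rcases C.eq_empty_or_nonempty with rfl | hC
    · exact ⟨fun _ => 0, by simp⟩
    obtain ⟨p, hp⟩ := Finset.exists_minimal hC
    have hpC : p ∈ C := hp.1
    obtain ⟨c, hc⟩ := ih (C.erase p) (Finset.erase_ssubset hpC) (fun q hq => h q (Finset.mem_of_mem_erase hq))
      (fun q hq => ha q (Finset.mem_of_mem_erase hq))
    have hnle : ∀ q ∈ C.erase p, ¬ q.asIdeal ≤ p.asIdeal := by
      intro q hq hle
      have hqC := Finset.mem_of_mem_erase hq
      have hle' : q ≤ p := hle
      exact (Finset.ne_of_mem_erase hq) (le_antisymm hle' (hp.2 hqC hle'))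
    obtain ⟨s, hs, hsC⟩ := EEC_sep (C.erase p) p hnle
    set φ := algebraMap R p.asIdeal.ResidueField with hφ
    have hs0 : φ s ≠ 0 := fun h0 => hs ((EEC_mem p s).mp h0)
    -- the matrix over the residue field of `p`
    set M : Matrix (Fin N) (Fin (m + 1)) p.asIdeal.ResidueField := U.map φ with hM
    set d : Fin m → p.asIdeal.ResidueField := fun j => φ (if (j : ℕ) = 0 then a * c j else c j) with hd
    set M' : Matrix (Fin N) (Fin (m + 1)) p.asIdeal.ResidueField := Matrix.of fun i =>
      Fin.lastCases (φ s * M i (Fin.last m)) (fun j : Fin m => M i j.castSucc + d j * M i (Fin.last m)) with hM'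
    have hM'l : ∀ i, M' i (Fin.last m) = φ s * M i (Fin.last m) := by intro i; simp [hM']
    have hM'c : ∀ i (j : Fin m), M' i j.castSucc = M i j.castSucc + d j * M i (Fin.last m) := by intro i j; simp [hM']
    have hrk : M'.rank = M.rank := EEC_rank M M' d (φ s) hs0 hM'c hM'l
    have hMrk : M.rank = rk p U := rfl
    obtain ⟨g, hg01, hg⟩ := step_field M' (φ a) (by rw [hrk, hMrk]; exact h p hpC) (by
      intro ha0
      obtain ⟨i, hi⟩ := ha p hpC ((EEC_mem p a).mp ha0)
      refine ⟨i, ?_⟩
      have hi' : M i 0 ≠ 0 := fun h0 => hi ((EEC_mem p _).mp h0)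
      rcases Nat.eq_zero_or_pos m with rfl | hm
      · have : M' i 0 = φ s * M i 0 := hM'l i
        rw [this]
        exact mul_ne_zero hs0 hi'
      · have h0 : (0 : Fin (m + 1)) = (⟨0, hm⟩ : Fin m).castSucc := rfl
        rw [h0, hM'c]
        have : d ⟨0, hm⟩ = 0 := by simp [hd, ha0]
        rw [this, zero_mul, add_zero, ← h0]
        exact hi')
    refine ⟨fun j => c j + s * (if g j = 1 then 1 else 0), ?_⟩
    intro q hq
    by_cases hqp : q = p
    · subst hqp
      rw [← hMrk, ← hrk, ← hg]
      unfold rk
      congr 1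
      ext i j
      have hgj : φ (if g j = 1 then (1 : R) else 0) = g j := by
        rcases hg01 j with h' | h'
        · simp [h']
        · simp [h']
      simp only [Matrix.map_apply, Matrix.of_apply, hM'c, hM'l]
      rw [← hφ]
      have e1 : M i j.castSucc = φ (U i j.castSucc) := rfl
      have e2 : M i (Fin.last m) = φ (U i (Fin.last m)) := rfl
      rw [e1, e2]
      generalize (if g j = 1 then (1 : R) else 0) = e at hgj ⊢
      rw [← hgj]
      simp only [hd]
      by_cases hj : (j : ℕ) = 0
      · simp only [hj, if_true, map_add, map_mul]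
        ring
      · simp only [hj, if_false, map_add, map_mul]
        ring
    · have hq' : q ∈ C.erase p := Finset.mem_erase.mpr ⟨hqp, hq⟩
      rw [← hc q hq']
      unfold rk
      congr 1
      ext i j
      have hsq : algebraMap R q.asIdeal.ResidueField s = 0 := (EEC_mem q s).mpr (hsC q hq')
      simp only [Matrix.map_apply, Matrix.of_apply]
      by_cases hj : (j : ℕ) = 0
      · simp only [hj, if_true, map_add, map_mul, hsq]
        ring
      · simp only [hj, if_false, map_add, map_mul, hsq]
        ring

end Pool.Agent.SR
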