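import Mathlib

/-!
# SR EED: the rank of a matrix at a prime
-/

set_option autoImplicit false

namespace Pool.Agent.SR

universe u

variable {R : Type u} [CommRing R]

/-- the rank of the matrix `U` over the residue field of `p` -/
noncomputable def rk {N m : ℕ} (p : PrimeSpectrum R) (U : Matrix (Fin N) (Fin m) R) : ℕ := (U.map (algebraMap R p.asIdeal.ResidueField)).rank

end Pool.Agent.SR
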