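import Pool.Agent.SR.EEA
import Pool.Agent.SR.EEC

/-!
# SR EEE: basic elements (Eisenbud, Evans)
-/

set_option autoImplicit false

namespace Pool.Agent.SR

universe u

variable {R : Type u} [CommRing R]

private theorem eee_rank_le {F : Type*} [Field F] {N m : ℕ} (U : Matrix (Fin N) (Fin (m + 1)) F) (V : Matrix (Fin N) (Fin m) F) (f : Fin m → F)
    (hV : ∀ i j, V i j = U i j.castSucc + f j * U i (Fin.last m)) : U.rank ≤ V.rank + 1 := by
  classical
  rw [Matrix.rank_eq_finrank_span_cols, Matrix.rank_eq_finrank_span_cols]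
  have h1 : Submodule.span F (Set.range U.col) ≤
      Submodule.span F (Set.range V.col) ⊔ Submodule.span F {U.col (Fin.last m)} := by
    rw [Submodule.span_le]
    rintro _ ⟨j, rfl⟩
    refine Fin.lastCases ?_ (fun j => ?_) j
    · exact Submodule.mem_sup_right (Submodule.mem_span_singleton_self _)
    · have e : U.col j.castSucc = V.col j + (-(f j)) • U.col (Fin.last m) := by
        funext i
        simp only [Matrix.col_apply, Pi.add_apply, Pi.smul_apply, smul_eq_mul, hV]
        ring
      rw [e]
      exact Submodule.add_mem _ (Submodule.mem_sup_left (Submodule.subset_span ⟨j, rfl⟩))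
        (Submodule.mem_sup_right (Submodule.smul_mem _ _ (Submodule.mem_span_singleton_self _)))
  refine (Submodule.finrank_mono h1).trans ((Submodule.finrank_add_le_finrank_add_finrank _ _).trans ?_)
  refine Nat.add_le_add_left ?_ _
  refine (finrank_span_le_card ({U.col (Fin.last m)} : Set (Fin N → F))).trans ?_
  simp

/-- `δ` is a dimension function.  Induction on `m`.  The critical primes for `t ≤ m` are the `p` with `rk p U ≤ t`, `δ p + 1 = t`: they are minimal in `rk p U ≤ t`, so there are finitely many
(`finite_crit`); apply `step`; the new matrix has rank `≥ rk p U - 1` at every prime -/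
theorem basic [IsNoetherianRing R] (δ : PrimeSpectrum R → ℕ) (hδ : ∀ p p', p < p' → δ p' < δ p) {N : ℕ} (a : R) (m : ℕ) : ∀ U : Matrix (Fin N) (Fin (m + 1)) R,
    (∀ p, min (m + 1) (δ p + 1) ≤ rk p U) → (∀ p : PrimeSpectrum R, a ∈ p.asIdeal → ∃ i, U i 0 ∉ p.asIdeal) →
    ∃ c : Fin m → R, ∀ p : PrimeSpectrum R, ∃ i, U i 0 + a * ∑ j : Fin m, c j * U i j.succ ∉ p.asIdeal := by
  classical
  induction m with
  | zero =>
    intro U hU _
    refine ⟨fun _ => 0, fun p => ?_⟩
    by_contra hcon
    push Not at hcon
    have h0 : U.map (algebraMap R p.asIdeal.ResidueField) = 0 := by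
      funext i j
      have hj : j = 0 := Fin.eq_zero j
      subst hj
      have := hcon i
      simp only [Finset.univ_eq_empty, Finset.sum_empty, mul_zero, add_zero] at this
      simp only [Matrix.map_apply, Matrix.zero_apply]
      rw [← RingHom.mem_ker, Ideal.ker_algebraMap_residueField]
      exact this
    have h1 := hU p
    unfold rk at h1
    rw [h0, Matrix.rank_zero] at h1
    omega
  | succ m ih =>
    intro U hU ha
    have hfin : {p : PrimeSpectrum R | ∃ t ∈ Finset.range (m + 2), rk p U ≤ t ∧ ∀ p' < p, t < rk p' U}.Finite := by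
      have : {p : PrimeSpectrum R | ∃ t ∈ Finset.range (m + 2), rk p U ≤ t ∧ ∀ p' < p, t < rk p' U} =
          ⋃ t ∈ Finset.range (m + 2), {p : PrimeSpectrum R | rk p U ≤ t ∧ ∀ p' < p, t < rk p' U} := by
        ext p
        simp only [Set.mem_ofPred_eq, Set.mem_iUnion, exists_prop]
      rw [this]
      exact Set.Finite.biUnion (Finset.finite_toSet _) fun t _ => finite_crit U t
    obtain ⟨c, hc⟩ := step U a hfin.toFinset (by
      intro p hp
      rw [Set.Finite.mem_toFinset] at hp
      obtain ⟨t, ht, h1, _⟩ := hp
      rw [Finset.mem_range] at ht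
      omega) (fun p _ h => ha p h)
    set V : Matrix (Fin N) (Fin (m + 1)) R := Matrix.of fun (i : Fin N) (j : Fin (m + 1)) =>
      U i j.castSucc + (if (j : ℕ) = 0 then a * c j else c j) * U i (Fin.last (m + 1)) with hV
    have hVU : ∀ p : PrimeSpectrum R, rk p U ≤ rk p V + 1 := by
      intro p
      unfold rk
      refine eee_rank_le _ _ (fun j => algebraMap R p.asIdeal.ResidueField (if (j : ℕ) = 0 then a * c j else c j)) ?_
      intro i j
      simp only [Matrix.map_apply, hV, Matrix.of_apply, map_add, map_mul]
    obtain ⟨c', hc'⟩ := ih V (by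
      intro p
      have h1 := hU p
      have h2 := hVU p
      by_cases h3 : min (m + 1) (δ p + 1) + 1 ≤ rk p U
      · omega
      · have h4 : δ p + 1 ≤ m + 1 := by omega
        have h5 : rk p U = δ p + 1 := by omega
        have h6 : p ∈ hfin.toFinset := by
          rw [Set.Finite.mem_toFinset]
          refine ⟨δ p + 1, Finset.mem_range.mpr (by omega), h5.le, ?_⟩
          intro p' hp'
          have h7 := hδ p' p hp'
          have h8 := hU p'
          omega
        have h9 := hc p h6
        rw [h9, h5]
        exact min_le_right _ _) (by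
      intro p hp
      obtain ⟨i, hi⟩ := ha p hp
      refine ⟨i, fun hcon => hi ?_⟩
      simp only [hV, Matrix.of_apply, Fin.val_zero, if_true, Fin.castSucc_zero] at hcon
      have h1 : a * c 0 * U i (Fin.last (m + 1)) ∈ p.asIdeal :=
        Ideal.mul_mem_right _ _ (Ideal.mul_mem_right _ _ hp)
      exact (Ideal.add_mem_iff_left _ h1).mp hcon)
    refine ⟨Fin.snoc c' (c 0 + ∑ j : Fin m, c' j * c j.succ), fun p => ?_⟩
    obtain ⟨i, hi⟩ := hc' p
    refine ⟨i, ?_⟩
    have e : U i 0 + a * ∑ j : Fin (m + 1), (Fin.snoc c' (c 0 + ∑ j : Fin m, c' j * c j.succ) : Fin (m + 1) → R) j * U i j.succ =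
        V i 0 + a * ∑ j : Fin m, c' j * V i j.succ := by
      rw [Fin.sum_univ_castSucc]
      simp only [Fin.snoc_castSucc, Fin.snoc_last, hV, Matrix.of_apply, Fin.val_zero, if_true, Fin.castSucc_zero,
        Fin.succ_last, Fin.val_succ, Nat.succ_ne_zero, if_false, mul_add, Finset.sum_add_distrib, add_mul,
        Finset.sum_mul, Fin.castSucc_succ, Finset.mul_sum]
      have e1 : ∀ j : Fin m, j.castSucc.succ = j.succ.castSucc := fun j => by simp
      simp only [e1]
      have e2 : ∀ j : Fin m, a * (c' j * (c j.succ * U i (Fin.last (m + 1)))) = a * (c' j * c j.succ * U i (Fin.last (m + 1))) :=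
        fun j => by ring
      simp only [e2]
      ring
    rw [e]
    exact hi

end Pool.Agent.SR
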