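import Pool.Agent.SR.TwA
import Pool.Agent.SR.Cls

/-!
# SR Fac: the matrix factorisation

`exists_fac`: the matrix factorisation of `∑_(l < m) x_l (y_l / q)`, by induction on `m`.  For `m = 0`: `κ` one element, `c = 0`, `κ' = Empty`.  From `m` to `m + 1`: on `κ ⊕ κ'` with the
degrees `c, c' + 1`, and `κ' ⊕ κ` with `c', c + 1`:  `φ₁ (a, b) = (φ a - (y_m / q) b, x_m a + ψ b)`, `ψ₁ (a, b) = (ψ a + (y_m / q) b, - x_m a + φ b)`.
(`x_l`, `y_l / q` are written `xs l`, `ys l` with `xs l * ys l` summing to `1`; they are extended by `0` for `l > n`.)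
-/

set_option autoImplicit false

namespace Pool.Agent.SR

universe u

variable (k : Type u) [Field k] (n : ℕ)

/-- `x_l` as an element of `K k n`, `0` for `l > n` -/
noncomputable def xs (l : ℕ) : K k n := if h : l < n + 1 then em k n (MvPolynomial.X (Sum.inl ⟨l, h⟩)) else 0

/-- `y_l / q` as an element of `K k n`, `0` for `l > n` -/
noncomputable def ys (l : ℕ) : K k n := if h : l < n + 1 then em k n (MvPolynomial.X (Sum.inr ⟨l, h⟩)) / em k n (q k n) else 0

private theorem fac_xs_mem (l : ℕ) : xs k n l ∈ twist k n 1 := by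
  unfold xs
  split_ifs with h
  · exact x_mem _
  · exact (twist k n 1).zero_mem

private theorem fac_ys_mem (l : ℕ) : ys k n l ∈ twist k n (-1) := by
  unfold ys
  split_ifs with h
  · exact y_mem _
  · exact (twist k n (-1)).zero_mem

/-- a linear map of sums given by a block matrix -/
private def facBlock {F : Type u} [Field F] {α β γ δ : Type} (P : (α → F) →ₗ[F] (γ → F)) (Q : (β → F) →ₗ[F] (γ → F)) (R : (α → F) →ₗ[F] (δ → F))
    (S : (β → F) →ₗ[F] (δ → F)) : (α ⊕ β → F) →ₗ[F] (γ ⊕ δ → F) where
  toFun w := Sum.elim (P (fun i => w (Sum.inl i)) + Q (fun i => w (Sum.inr i))) (R (fun i => w (Sum.inl i)) + S (fun i => w (Sum.inr i)))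
  map_add' v w := by
    have h1 : (fun i => (v + w) (Sum.inl i)) = (fun i => v (Sum.inl i)) + fun i => w (Sum.inl i) := rfl
    have h2 : (fun i => (v + w) (Sum.inr i)) = (fun i => v (Sum.inr i)) + fun i => w (Sum.inr i) := rfl
    rw [h1, h2, map_add, map_add, map_add, map_add]
    funext i
    rcases i with i | i
    · simp only [Sum.elim_inl, Pi.add_apply]
      ring
    · simp only [Sum.elim_inr, Pi.add_apply]
      ring
  map_smul' r w := by
    have h1 : (fun i => (r • w) (Sum.inl i)) = r • (fun i => w (Sum.inl i)) := rfl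
    have h2 : (fun i => (r • w) (Sum.inr i)) = r • (fun i => w (Sum.inr i)) := rfl
    rw [h1, h2, map_smul, map_smul, map_smul, map_smul]
    funext i
    rcases i with i | i
    · simp only [Sum.elim_inl, Pi.add_apply, Pi.smul_apply, RingHom.id_apply, smul_eq_mul]
      ring
    · simp only [Sum.elim_inr, Pi.add_apply, Pi.smul_apply, RingHom.id_apply, smul_eq_mul]
      ring

private theorem facBlock_apply {F : Type u} [Field F] {α β γ δ : Type} (P : (α → F) →ₗ[F] (γ → F)) (Q : (β → F) →ₗ[F] (γ → F)) (R : (α → F) →ₗ[F] (δ → F))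
    (S : (β → F) →ₗ[F] (δ → F)) (a : α → F) (b : β → F) : facBlock P Q R S (Sum.elim a b) = Sum.elim (P a + Q b) (R a + S b) := rfl

private theorem fac_split {F : Type u} {α β : Type} (w : α ⊕ β → F) : Sum.elim (fun i => w (Sum.inl i)) (fun i => w (Sum.inr i)) = w := by
  funext i
  rcases i with i | i <;> rfl

private theorem fac_cls_one {κ : Type} [Fintype κ] (c : κ → ℤ) : cls (fun i => c i + 1) = LaurentPolynomial.T 1 * cls c := by
  unfold cls
  rw [Finset.mul_sum]
  refine Finset.sum_congr rfl fun i _ => ?_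
  rw [← LaurentPolynomial.T_add, add_comm]

private theorem fac_smul_mem {κ : Type} {c : κ → ℤ} {j e : ℤ} {z : K k n} (hz : z ∈ twist k n e) {w : κ → K k n} (hw : w ∈ Tw k n fun i => c i + j) {d : κ → ℤ}
    (hd : ∀ i, e + (c i + j) = d i) : (z • w) ∈ Tw k n d := by
  intro i
  have h := twist_mul hz (hw i)
  rw [hd i] at h
  exact h

theorem exists_fac (m : ℕ) : ∃ (κ κ' : Type) (_ : Fintype κ) (_ : Fintype κ') (c : κ → ℤ) (c' : κ' → ℤ) (φ : (κ → K k n) →ₗ[K k n] (κ' → K k n))
    (ψ : (κ' → K k n) →ₗ[K k n] (κ → K k n)), cls c - cls c' = (1 - LaurentPolynomial.T 1) ^ m ∧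
    (∀ (j : ℤ) (w : κ → K k n), w ∈ Tw k n (fun i => c i + j) → φ w ∈ Tw k n (fun i => c' i + j)) ∧
    (∀ (j : ℤ) (w : κ' → K k n), w ∈ Tw k n (fun i => c' i + j) → ψ w ∈ Tw k n (fun i => c i + j)) ∧
    (∀ w, ψ (φ w) = (∑ l ∈ Finset.range m, xs k n l * ys k n l) • w) ∧ (∀ w, φ (ψ w) = (∑ l ∈ Finset.range m, xs k n l * ys k n l) • w) := by
  induction m with
  | zero =>
    refine ⟨Unit, Empty, inferInstance, inferInstance, fun _ => 0, Empty.elim, 0, 0, ?_, ?_, ?_, ?_, ?_⟩
    · simp [cls]
    · intro j w _ i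
      exact i.elim
    · intro j w _
      exact (Tw k n _).zero_mem
    · intro w
      simp
    · intro w
      funext i
      exact i.elim
  | succ m ih =>
    obtain ⟨κ, κ', iκ, iκ', c, c', φ, ψ, h1, h2, h3, h4, h5⟩ := ih
    have hx := fac_xs_mem k n m
    have hy := fac_ys_mem k n m
    have key : ∑ l ∈ Finset.range (m + 1), xs k n l * ys k n l = (∑ l ∈ Finset.range m, xs k n l * ys k n l) + xs k n m * ys k n m := Finset.sum_range_succ _ _
    refine ⟨κ ⊕ κ', κ' ⊕ κ, inferInstance, inferInstance, Sum.elim c (fun i => c' i + 1), Sum.elim c' (fun i => c i + 1),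
      facBlock φ ((-ys k n m) • LinearMap.id) ((xs k n m) • LinearMap.id) ψ, facBlock ψ ((ys k n m) • LinearMap.id) ((-xs k n m) • LinearMap.id) φ, ?_, ?_, ?_, ?_, ?_⟩
    · rw [cls_sum, cls_sum, fac_cls_one, fac_cls_one, pow_succ, ← h1]
      ring
    · intro j w hw
      rw [← fac_split w, facBlock_apply]
      have ha : (fun i => w (Sum.inl i)) ∈ Tw k n fun i => c i + j := fun i => hw (Sum.inl i)
      have hb : (fun i => w (Sum.inr i)) ∈ Tw k n fun i => c' i + (1 + j) := by
        intro i
        have h := hw (Sum.inr i)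
        simp only [Sum.elim_inr, add_assoc] at h
        exact h
      intro i
      rcases i with i | i
      · have e1 := (Tw k n _).add_mem (h2 j _ ha) (fac_smul_mem k n ((twist k n (-1)).neg_mem hy) hb (d := fun i => c' i + j) (fun i => by ring))
        exact e1 i
      · have e1 := (Tw k n _).add_mem (fac_smul_mem k n hx ha (d := fun i => c i + (1 + j)) (fun i => by ring)) (h3 (1 + j) _ hb)
        have e2 := e1 i
        simp only [← add_assoc] at e2
        exact e2
    · intro j w hw
      rw [← fac_split w, facBlock_apply]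
      have ha : (fun i => w (Sum.inl i)) ∈ Tw k n fun i => c' i + j := fun i => hw (Sum.inl i)
      have hb : (fun i => w (Sum.inr i)) ∈ Tw k n fun i => c i + (1 + j) := by
        intro i
        have h := hw (Sum.inr i)
        simp only [Sum.elim_inr, add_assoc] at h
        exact h
      intro i
      rcases i with i | i
      · have e1 := (Tw k n _).add_mem (h3 j _ ha) (fac_smul_mem k n hy hb (d := fun i => c i + j) (fun i => by ring))
        exact e1 i
      · have e1 := (Tw k n _).add_mem (fac_smul_mem k n ((twist k n 1).neg_mem hx) ha (d := fun i => c' i + (1 + j)) (fun i => by ring)) (h2 (1 + j) _ hb)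
        have e2 := e1 i
        simp only [← add_assoc] at e2
        exact e2
    · intro w
      rw [← fac_split w, facBlock_apply, facBlock_apply]
      simp only [map_add, map_smul, h4, h5, LinearMap.smul_apply, LinearMap.id_apply, key]
      funext i
      rcases i with i | i
      · simp only [Sum.elim_inl, Pi.add_apply, Pi.smul_apply, smul_eq_mul]
        ring
      · simp only [Sum.elim_inr, Pi.add_apply, Pi.smul_apply, smul_eq_mul]
        ring
    · intro w
      rw [← fac_split w, facBlock_apply, facBlock_apply]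
      simp only [map_add, map_smul, h4, h5, LinearMap.smul_apply, LinearMap.id_apply, key]
      funext i
      rcases i with i | i
      · simp only [Sum.elim_inl, Pi.add_apply, Pi.smul_apply, smul_eq_mul]
        ring
      · simp only [Sum.elim_inr, Pi.add_apply, Pi.smul_apply, smul_eq_mul]
        ring

end Pool.Agent.SR
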