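import Mathlib

/-!
# SR Gr: graded rings and finite free resolutions of graded submodules of free modules

`Γ` is an abelian group, `S` a commutative ring with a grading `G : Gr Γ S`.  A finite free graded module is `F_a = ι → S` with the degrees `a : ι → Γ` of the basis vectors:
a vector `w` is homogeneous of degree `γ` if `w i` has degree `γ - a i` for all `i`.  A map `F_b → F_a` of degree `0` is a matrix `M` with `M i j` of degree `b j - a i`.
`FFR G l ι a Z`: the graded submodule `Z` of `F_a` has a graded free resolution of length `< l`.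
-/

set_option autoImplicit false

namespace Pool.Agent.SR

universe u

/-- a grading of the commutative ring `S` by the group `Γ` -/
structure Gr (Γ : Type) [AddCommGroup Γ] (S : Type u) [CommRing S] where
  /-- the elements of degree `γ` -/
  deg : Γ → AddSubgroup S
  /-- the component of degree `γ` -/
  π : Γ → S →+ S
  π_mem : ∀ γ s, π γ s ∈ deg γ
  π_self : ∀ γ, ∀ s ∈ deg γ, π γ s = s
  π_ne : ∀ γ γ', γ ≠ γ' → ∀ s ∈ deg γ', π γ s = 0
  fin : ∀ s, ∃ t : Finset Γ, (∀ γ ∉ t, π γ s = 0) ∧ s = ∑ γ ∈ t, π γ s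
  one_mem : (1 : S) ∈ deg 0
  mul_mem : ∀ γ γ' s s', s ∈ deg γ → s' ∈ deg γ' → s * s' ∈ deg (γ + γ')

variable {Γ : Type} [AddCommGroup Γ] {S : Type u} [CommRing S] (G : Gr Γ S)

/-- the matrix `M` is a map `F_b → F_a` of degree `0` -/
def HomM {ι κ : Type} (a : ι → Γ) (b : κ → Γ) (M : Matrix ι κ S) : Prop := ∀ i j, M i j ∈ G.deg (b j - a i)

/-- the component of degree `γ` of the vector `w` of `F_a` -/
def cmp {ι : Type} (a : ι → Γ) (γ : Γ) (w : ι → S) : ι → S := fun i => G.π (γ - a i) (w i)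

/-- `Z` is a graded submodule of `F_a` -/
def Gsub {ι : Type} (a : ι → Γ) (Z : Submodule S (ι → S)) : Prop := ∀ w ∈ Z, ∀ γ, cmp G a γ w ∈ Z

/-- `Z` has a graded free resolution of length `< l` -/
def FFR : ℕ → ∀ (ι : Type) [Fintype ι], (ι → Γ) → Submodule S (ι → S) → Prop
  | 0, _, _, _, Z => Z = ⊥
  | l + 1, ι, _, a, Z => ∃ (κ : Type) (_ : Fintype κ) (b : κ → Γ) (M : Matrix ι κ S),
      HomM G a b M ∧ LinearMap.range M.mulVecLin = Z ∧ FFR l κ b (LinearMap.ker M.mulVecLin)

/-- every graded submodule of a finite free graded module has a finite graded free resolution -/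
def GSyz : Prop := ∀ (ι : Type) [Fintype ι] (a : ι → Γ) (Z : Submodule S (ι → S)), Gsub G a Z → ∃ l, FFR G l ι a Z

namespace Gr

variable {G}

theorem zero_mem (γ : Γ) : (0 : S) ∈ G.deg γ := (G.deg γ).zero_mem

theorem mul_mem' {γ γ' γ'' : Γ} {s s' : S} (h : s ∈ G.deg γ) (h' : s' ∈ G.deg γ') (e : γ + γ' = γ'') : s * s' ∈ G.deg γ'' := e ▸ G.mul_mem γ γ' s s' h h'

theorem π_ite {γ γ' : Γ} [Decidable (γ = γ')] {s : S} (h : s ∈ G.deg γ') : G.π γ s = if γ = γ' then s else 0 := by
  split_ifs with e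
  · subst e
    exact G.π_self _ s h
  · exact G.π_ne _ _ e s h

/-- the component of a product with a homogeneous element -/
theorem π_mul {γ γ' : Γ} {s : S} (h : s ∈ G.deg γ') (t : S) : G.π γ (s * t) = s * G.π (γ - γ') t := by
  classical
  obtain ⟨F, hF, ht⟩ := G.fin t
  have h1 : G.π γ (s * t) = ∑ η ∈ F, G.π γ (s * G.π η t) := by
    conv_lhs => rw [ht, Finset.mul_sum]
    rw [map_sum]
  have h2 : ∀ η, G.π γ (s * G.π η t) = if η = γ - γ' then s * G.π η t else 0 := by
    intro η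
    rw [Gr.π_ite (Gr.mul_mem' h (G.π_mem η t) rfl)]
    refine if_congr ?_ rfl rfl
    constructor
    · rintro rfl
      abel
    · rintro rfl
      abel
  rw [h1, Finset.sum_congr rfl fun η _ => h2 η, Finset.sum_ite_eq']
  split_ifs with h3
  · rfl
  · rw [hF _ h3, mul_zero]

/-- the grading is determined by the homogeneous elements -/
theorem ext_deg {G G' : Gr Γ S} (h : ∀ γ s, s ∈ G.deg γ ↔ s ∈ G'.deg γ) : G = G' := by
  have h1 : G.deg = G'.deg := funext fun γ => AddSubgroup.ext fun s => h γ s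
  have h2 : G.π = G'.π := by
    funext γ
    ext s
    classical
    obtain ⟨F, hF, hs⟩ := G.fin s
    have h3 : G'.π γ s = ∑ η ∈ F, G'.π γ (G.π η s) := by
      conv_lhs => rw [hs]
      rw [map_sum]
    rw [h3, Finset.sum_congr rfl fun η _ => Gr.π_ite (G := G') ((h _ _).1 (G.π_mem η s)), Finset.sum_ite_eq]
    split_ifs with h4
    · rfl
    · exact hF _ h4
  cases G
  cases G'
  simp only at h1 h2
  subst h1 h2
  rfl

end Gr

/-- a map of degree `0` commutes with the components -/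
theorem HomM.cmp {ι κ : Type} [Fintype κ] {a : ι → Γ} {b : κ → Γ} {M : Matrix ι κ S} (h : HomM G a b M) (γ : Γ) (w : κ → S) :
    cmp G a γ (M.mulVec w) = M.mulVec (cmp G b γ w) := by
  funext i
  show G.π (γ - a i) (∑ j, M i j * w j) = ∑ j, M i j * G.π (γ - b j) (w j)
  rw [map_sum]
  refine Finset.sum_congr rfl fun j _ => ?_
  rw [Gr.π_mul (h i j)]
  congr 2
  abel_nf

theorem gsub_ker {ι κ : Type} [Fintype κ] {a : ι → Γ} {b : κ → Γ} {M : Matrix ι κ S} (h : HomM G a b M) : Gsub G b (LinearMap.ker M.mulVecLin) := by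
  intro w hw γ
  rw [LinearMap.mem_ker, Matrix.mulVecLin_apply] at hw ⊢
  rw [← h.cmp, hw]
  funext i
  exact map_zero _

theorem gsub_range {ι κ : Type} [Fintype κ] {a : ι → Γ} {b : κ → Γ} {M : Matrix ι κ S} (h : HomM G a b M) : Gsub G a (LinearMap.range M.mulVecLin) := by
  rintro _ ⟨w, rfl⟩ γ
  exact ⟨Pool.Agent.SR.cmp G b γ w, by rw [Matrix.mulVecLin_apply, Matrix.mulVecLin_apply, h.cmp]⟩

end Pool.Agent.SR
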