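import Pool.Agent.SR.Defs

/-!
# SR TwS: sums and permutations
-/

set_option autoImplicit false

namespace Pool.Agent.SR

open MvPolynomial

universe u

variable {k : Type u} [Field k] {n : ℕ}

variable (k n)

theorem tw_sum {κ κ' : Type} (c : κ → ℤ) (d : κ' → ℤ) : Nonempty (Tw k n (Sum.elim c d) ≃ₗ[A k n] (Tw k n c × Tw k n d)) := by
  refine ⟨{ toFun := fun w => (⟨fun i => w.1 (Sum.inl i), fun i => w.2 (Sum.inl i)⟩, ⟨fun i => w.1 (Sum.inr i), fun i => w.2 (Sum.inr i)⟩)
            map_add' := fun _ _ => rfl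
            map_smul' := fun _ _ => rfl
            invFun := fun p => ⟨Sum.elim p.1.1 p.2.1, ?_⟩
            left_inv := ?_
            right_inv := fun _ => rfl }⟩
  · rintro (i | i)
    · exact p.1.2 i
    · exact p.2.2 i
  · intro w
    refine Subtype.ext (funext ?_)
    rintro (i | i) <;> rfl

theorem tw_equiv {κ κ' : Type} {c : κ → ℤ} {d : κ' → ℤ} (e : κ ≃ κ') (h : ∀ i, d (e i) = c i) : Nonempty (Tw k n c ≃ₗ[A k n] Tw k n d) := by
  refine ⟨{ toFun := fun w => ⟨fun j => w.1 (e.symm j), ?_⟩
            map_add' := fun _ _ => rfl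
            map_smul' := fun _ _ => rfl
            invFun := fun w => ⟨fun i => w.1 (e i), ?_⟩
            left_inv := ?_
            right_inv := ?_ }⟩
  · intro j
    have h1 : w.1 (e.symm j) ∈ twist k n (c (e.symm j)) := w.2 (e.symm j)
    rwa [← h, e.apply_symm_apply] at h1
  · intro i
    have h1 : w.1 (e i) ∈ twist k n (d (e i)) := w.2 (e i)
    rwa [h] at h1
  · intro w
    refine Subtype.ext (funext fun i => ?_)
    exact congrArg w.1 (e.symm_apply_apply i)
  · intro w
    refine Subtype.ext (funext fun i => ?_)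
    exact congrArg w.1 (e.apply_symm_apply i)

end Pool.Agent.SR
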