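import Pool.Agent.SR.Fac
import Pool.Agent.SR.TwS

/-!
# SR Kos: the Koszul relation

`koszul`: `m = n + 1`, where `φ ψ = 1` and `ψ φ = 1`.
`stab`: write `cls c - cls d = (1 - T)^(n+1) h`, `h = h⁺ - h⁻`; take for `e` the sum over `j` of `h⁺ j` copies of `c' + j` and `h⁻ j` copies of `c + j`
(`c, c'` of `koszul`), and use `exists_perm`, `tw_sum`, `tw_equiv`.
-/

set_option autoImplicit false

namespace Pool.Agent.SR

universe u

variable (k : Type u) [Field k] (n : ℕ)

private theorem kos_one : ∑ l ∈ Finset.range (n + 1), xs k n l * ys k n l = 1 := by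
  rw [← sum_xy (k := k) (n := n), Finset.sum_range]
  refine Finset.sum_congr rfl fun l _ => ?_
  rw [xs, ys, dif_pos l.2, dif_pos l.2]

private theorem kos_prod {P κ κ' : Type} (f : P → κ → ℤ) (g : P → κ' → ℤ) (h : ∀ p, Nonempty (Tw k n (f p) ≃ₗ[A k n] Tw k n (g p))) :
    Nonempty (Tw k n (fun x : P × κ => f x.1 x.2) ≃ₗ[A k n] Tw k n (fun x : P × κ' => g x.1 x.2)) := by
  have e1 : ∀ {κ : Type} (f : P → κ → ℤ), Nonempty (Tw k n (fun x : P × κ => f x.1 x.2) ≃ₗ[A k n] ((p : P) → Tw k n (f p))) := by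
    intro κ f
    exact ⟨{ toFun := fun w p => ⟨fun i => w.1 (p, i), fun i => w.2 (p, i)⟩
             invFun := fun w => ⟨fun x => (w x.1).1 x.2, fun x => (w x.1).2 x.2⟩
             map_add' := fun _ _ => rfl
             map_smul' := fun _ _ => rfl
             left_inv := fun _ => rfl
             right_inv := fun _ => rfl }⟩
  obtain ⟨a⟩ := e1 f
  obtain ⟨b⟩ := e1 g
  have c := fun p => (h p).some
  exact ⟨a.trans ((LinearEquiv.piCongrRight c).trans b.symm)⟩

private theorem kos_cls_prod {P κ : Type} [Fintype P] [Fintype κ] (c : κ → ℤ) (d : P → ℤ) : cls (fun x : P × κ => c x.2 + d x.1) = cls c * cls d := by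
  rw [cls, cls, cls, Fintype.sum_prod_type, Finset.sum_mul_sum, Finset.sum_comm]
  refine Finset.sum_congr rfl fun i _ => Finset.sum_congr rfl fun p _ => ?_
  exact LaurentPolynomial.T_add _ _

private theorem kos_pm (g : LaurentPolynomial ℤ) : ∃ (P Q : Type) (_ : Fintype P) (_ : Fintype Q) (a : P → ℤ) (b : Q → ℤ), g = cls a - cls b := by
  induction g using LaurentPolynomial.induction_on' with
  | add p q hp hq =>
    obtain ⟨P, Q, i1, i2, a, b, h⟩ := hp
    obtain ⟨P', Q', i3, i4, a', b', h'⟩ := hq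
    refine ⟨P ⊕ P', Q ⊕ Q', inferInstance, inferInstance, Sum.elim a a', Sum.elim b b', ?_⟩
    rw [cls_sum, cls_sum, h, h']
    ring
  | C_mul_T m z =>
    refine ⟨Fin z.toNat, Fin (-z).toNat, inferInstance, inferInstance, fun _ => m, fun _ => m, ?_⟩
    rw [cls, cls, Finset.sum_const, Finset.sum_const, Finset.card_univ, Finset.card_univ, Fintype.card_fin, Fintype.card_fin]
    rcases le_total 0 z with hz | hz
    · obtain ⟨t, rfl⟩ := Int.eq_ofNat_of_zero_le hz
      simp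
    · obtain ⟨t, ht⟩ := Int.exists_eq_neg_ofNat hz
      subst ht
      simp

theorem koszul : ∃ (κ κ' : Type) (_ : Fintype κ) (_ : Fintype κ') (c : κ → ℤ) (c' : κ' → ℤ), cls c - cls c' = (1 - LaurentPolynomial.T 1) ^ (n + 1) ∧
    ∀ j : ℤ, Nonempty (Tw k n (fun i => c i + j) ≃ₗ[A k n] Tw k n (fun i => c' i + j)) := by
  obtain ⟨κ, κ', i1, i2, c, c', φ, ψ, h1, h2, h3, h4, h5⟩ := exists_fac k n (n + 1)
  refine ⟨κ, κ', i1, i2, c, c', h1, fun j => ?_⟩
  rw [kos_one] at h4 h5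
  refine ⟨LinearEquiv.ofLinearMap ((φ.restrictScalars (A k n)).restrict (p := Tw k n (fun i => c i + j)) (q := Tw k n (fun i => c' i + j)) (h2 j))
    ((ψ.restrictScalars (A k n)).restrict (p := Tw k n (fun i => c' i + j)) (q := Tw k n (fun i => c i + j)) (h3 j)) ?_ ?_⟩
  · refine LinearMap.ext fun w => Subtype.ext ?_
    change φ (ψ w) = w
    rw [h5, one_smul]
  · refine LinearMap.ext fun w => Subtype.ext ?_
    change ψ (φ w) = w
    rw [h4, one_smul]

theorem stab {κ κ' : Type} [Fintype κ] [Fintype κ'] (c : κ → ℤ) (d : κ' → ℤ)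
    (h : cls c - cls d ∈ Ideal.span {(1 - LaurentPolynomial.T 1 : LaurentPolynomial ℤ) ^ (n + 1)}) :
    ∃ (μ : Type) (_ : Fintype μ) (e : μ → ℤ), Nonempty (Tw k n (Sum.elim c e) ≃ₗ[A k n] Tw k n (Sum.elim d e)) := by
  obtain ⟨g, hg⟩ := Ideal.mem_span_singleton.1 h
  obtain ⟨P, Q, i1, i2, a, b, hab⟩ := kos_pm g
  obtain ⟨α, β, i3, i4, r, r', hr, he⟩ := koszul k n
  refine ⟨(P × β) ⊕ (Q × α), inferInstance, Sum.elim (fun x => r' x.2 + a x.1) (fun x => r x.2 + b x.1), ?_⟩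
  obtain ⟨e1⟩ := kos_prod k n (fun (p : P) (i : α) => r i + a p) (fun (p : P) (i : β) => r' i + a p) (fun p => he (a p))
  obtain ⟨e2⟩ := kos_prod k n (fun (p : Q) (i : α) => r i + b p) (fun (p : Q) (i : β) => r' i + b p) (fun p => he (b p))
  obtain ⟨t, ht⟩ := exists_perm (c := Sum.elim c (Sum.elim (fun x : P × β => r' x.2 + a x.1) (fun x : Q × α => r x.2 + b x.1)))
    (d := Sum.elim d (Sum.elim (fun x : P × α => r x.2 + a x.1) (fun x : Q × β => r' x.2 + b x.1))) (by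
      rw [cls_sum, cls_sum, cls_sum, cls_sum, kos_cls_prod, kos_cls_prod, kos_cls_prod, kos_cls_prod]
      rw [hab, ← hr] at hg
      linear_combination hg)
  obtain ⟨e3⟩ := tw_equiv k n t ht
  obtain ⟨e4⟩ := tw_sum k n d (Sum.elim (fun x : P × α => r x.2 + a x.1) (fun x : Q × β => r' x.2 + b x.1))
  obtain ⟨e5⟩ := tw_sum k n (fun x : P × α => r x.2 + a x.1) (fun x : Q × β => r' x.2 + b x.1)
  obtain ⟨e6⟩ := tw_sum k n (fun x : P × β => r' x.2 + a x.1) (fun x : Q × α => r x.2 + b x.1)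
  obtain ⟨e7⟩ := tw_sum k n d (Sum.elim (fun x : P × β => r' x.2 + a x.1) (fun x : Q × α => r x.2 + b x.1))
  exact ⟨e3.trans (e4.trans (((LinearEquiv.refl _ _).prodCongr (e5.trans ((e1.prodCongr e2.symm).trans e6.symm))).trans e7.symm))⟩

end Pool.Agent.SR
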