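import Pool.Agent.SR.LocD
import Pool.Agent.SR.Gr

/-!
# SR LocC

`E` is the image of an idempotent matrix over `A k n`, so `E` is isomorphic to the kernel of a matrix `c` over `A k n`; for large `m` the matrix `q^m c` has entries `N i j` of bidegree `(m, m)` in `T k n`,
and `Z` is the kernel of `N`.
-/

set_option autoImplicit false

namespace Pool.Agent.SR

universe u v

variable {k : Type u} [Field k] {n : ℕ}

private theorem LocC_common {ι : Type} [Fintype ι] (v : ι → A k n) : ∃ (m : ℕ) (w : ι → T k n), ∀ i, Bi k n m m (w i) ∧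
    algebraMap (A k n) (K k n) (v i) * em k n (q k n) ^ m = em k n (w i) := by
  choose l g hg hv using fun i => (v i).exists
  refine ⟨∑ i, l i, fun i => g i * q k n ^ ((∑ i, l i) - l i), fun i => ?_⟩
  have hl : l i ≤ ∑ i, l i := Finset.single_le_sum (f := l) (fun _ _ => Nat.zero_le _) (Finset.mem_univ i)
  have h1 : ((l i : ℕ) : ℤ) + (((∑ i, l i) - l i : ℕ) : ℤ) = ((∑ i, l i : ℕ) : ℤ) := by
    rw [← Nat.cast_add, Nat.add_sub_cancel' hl]
  refine ⟨((hg i).mul (Bi.qpow ((∑ i, l i) - l i))).cast h1 h1, ?_⟩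
  rw [em_mul, em_pow, ← hv i, mul_assoc, ← pow_add, Nat.add_sub_cancel' hl]

private theorem LocC_ker {ι : Type} [Fintype ι] {c : ι → ι → A k n} {m : ℕ} {N : ι × ι → T k n}
    (hN : ∀ p : ι × ι, algebraMap (A k n) (K k n) (c p.1 p.2) * em k n (q k n) ^ m = em k n (N p)) {v : ι → A k n} {m' : ℕ} {w : ι → T k n}
    (hw : ∀ i, algebraMap (A k n) (K k n) (v i) * em k n (q k n) ^ m' = em k n (w i)) :
    w ∈ LinearMap.ker (Matrix.mulVecLin (Matrix.of fun i j => N (i, j))) ↔ ∀ i, ∑ j, c i j * v j = 0 := by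
  have h1 : ∀ i, em k n (∑ j, N (i, j) * w j) = algebraMap (A k n) (K k n) (∑ j, c i j * v j) * em k n (q k n) ^ (m + m') := by
    intro i
    rw [em_sum, map_sum, Finset.sum_mul]
    refine Finset.sum_congr rfl fun j _ => ?_
    rw [em_mul, ← hN (i, j), ← hw j, map_mul]
    ring
  rw [LinearMap.mem_ker, Matrix.mulVecLin_apply, funext_iff]
  refine forall_congr' fun i => ?_
  have h2 : (Matrix.of fun i j => N (i, j)).mulVec w i = ∑ j, N (i, j) * w j := rfl
  rw [h2, Pi.zero_apply]
  constructor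
  · intro h
    have h3 := h1 i
    rw [h, em_zero] at h3
    refine A.inj (k := k) (n := n) ?_
    rw [map_zero]
    exact (mul_eq_zero.1 h3.symm).resolve_right (pow_ne_zero _ emq_ne_zero)
  · intro h
    refine em_inj k n ?_
    rw [h1 i, h, map_zero, zero_mul, em_zero]

/-- `E` is the image of an idempotent matrix `e` over `A k n`; `q^m e` has entries of bidegree `(m, m)` in `T k n`; `Z` is the kernel of `q^m (1 - e)` -/
theorem exists_phi {G : Gr (ℤ × ℤ) (T k n)} (hG : ∀ a b g, g ∈ G.deg (a, b) ↔ Bi k n a b g) (E : Type v) [AddCommGroup E] [Module (A k n) E] [Module.Finite (A k n) E]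
    [Module.Projective (A k n) E] : ∃ (ι : Type) (_ : Fintype ι) (a : ι → ℤ × ℤ) (Z : Submodule (T k n) (ι → T k n)), Gsub G a Z ∧ Nonempty (E ≃ₗ[A k n] Phi a Z) := by
  obtain ⟨r, f, hf⟩ := Module.Finite.exists_fin' (A k n) E
  obtain ⟨g, hfg⟩ := Module.projective_lifting_property f LinearMap.id hf
  have hfg' : ∀ x, f (g x) = x := fun x => LinearMap.congr_fun hfg x
  have hsum : ∀ (v : Fin r → A k n) (i : Fin r), ∑ j, ((if i = j then 1 else 0) - g (f (Pi.single j 1)) i) * v j = v i - g (f v) i := by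
    intro v i
    have h1 : g (f v) i = ∑ j, g (f (Pi.single j 1)) i * v j := by
      have h2 : v = ∑ j, v j • (Pi.single j 1 : Fin r → A k n) := by
        ext j
        simp [Finset.sum_apply, Pi.single_apply]
      conv_lhs => rw [h2]
      rw [map_sum, map_sum, Finset.sum_apply]
      refine Finset.sum_congr rfl fun j _ => ?_
      rw [map_smul, map_smul, Pi.smul_apply, smul_eq_mul, mul_comm]
    rw [h1]
    simp only [sub_mul, Finset.sum_sub_distrib, ite_mul, one_mul, zero_mul, Finset.sum_ite_eq, Finset.mem_univ, if_true]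
  obtain ⟨m, N, hN⟩ := LocC_common fun p : Fin r × Fin r => (if p.1 = p.2 then 1 else 0) - g (f (Pi.single p.2 1)) p.1
  have hN2 : ∀ p : Fin r × Fin r, algebraMap (A k n) (K k n) ((fun i j => (if i = j then 1 else 0) - g (f (Pi.single j 1)) i) p.1 p.2) * em k n (q k n) ^ m = em k n (N p) :=
    fun p => (hN p).2
  refine ⟨Fin r, inferInstance, fun _ => 0, LinearMap.ker (Matrix.mulVecLin (Matrix.of fun i j => N (i, j))), ?_, ?_⟩
  · refine gsub_ker G (a := fun _ : Fin r => (-(m : ℤ), -(m : ℤ))) (fun i j => ?_)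
    have h1 : ((0 : ℤ × ℤ) - (-(m : ℤ), -(m : ℤ))) = ((m : ℤ), (m : ℤ)) := by
      ext <;> simp
    show N (i, j) ∈ G.deg ((0 : ℤ × ℤ) - (-(m : ℤ), -(m : ℤ)))
    rw [h1]
    exact (hG _ _ _).2 (hN (i, j)).1
  · have hmem : ∀ x : E, (LinearMap.pi fun i => (Algebra.linearMap (A k n) (K k n)).comp ((LinearMap.proj i).comp g)) x ∈
        Phi (fun _ : Fin r => (0 : ℤ × ℤ)) (LinearMap.ker (Matrix.mulVecLin (Matrix.of fun i j => N (i, j)))) := by
      intro x
      obtain ⟨m', w, hw⟩ := LocC_common (g x)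
      refine ⟨m', w, (LocC_ker (c := fun i j => (if i = j then 1 else 0) - g (f (Pi.single j 1)) i) hN2 fun i => (hw i).2).2 fun i => ?_, fun i => ⟨(hw i).1.cast (by simp) (by simp), (hw i).2⟩⟩
      rw [hsum, hfg', sub_self]
    refine ⟨LinearEquiv.ofBijective (LinearMap.codRestrict _ (LinearMap.pi fun i => (Algebra.linearMap (A k n) (K k n)).comp ((LinearMap.proj i).comp g)) hmem) ⟨?_, ?_⟩⟩
    · intro x y hxy
      have h1 : g x = g y := by
        funext i
        exact A.inj (congrFun (congrArg Subtype.val hxy) i)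
      rw [← hfg' x, ← hfg' y, h1]
    · rintro ⟨w, m', z, hz, hw⟩
      have h1 : ∀ i, ∃ a : A k n, algebraMap (A k n) (K k n) a = w i := fun i =>
        A.mk (m := m') (g := z i) ((hw i).1.cast (by simp) (by simp)) (hw i).2
      choose v hv using h1
      have h2 := (LocC_ker (c := fun i j => (if i = j then 1 else 0) - g (f (Pi.single j 1)) i) hN2 (v := v) (m' := m') (w := z) fun i => by rw [hv]; exact (hw i).2).1 hz
      have h3 : g (f v) = v := by
        funext i
        have h4 := h2 i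
        rw [hsum] at h4
        exact (sub_eq_zero.1 h4).symm
      refine ⟨f v, Subtype.ext (funext fun i => ?_)⟩
      show algebraMap (A k n) (K k n) (g (f v) i) = w i
      rw [h3, hv]

end Pool.Agent.SR
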