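import Pool.Agent.SR.Gr

/-!
# SR MvA: a field

`gsyz_field`: everything has degree `0`: a graded subspace of `ι → k` is spanned by homogeneous vectors (the vectors supported on `{i | a i = γ}` for some `γ`), so it has a finite basis of
homogeneous vectors: `FFR` with `l = 1`.
-/

set_option autoImplicit false

namespace Pool.Agent.SR

universe u

variable {Γ : Type} [AddCommGroup Γ]

open MvPolynomial

private theorem MvA_cmp {k : Type u} [Field k] {G : Gr Γ k} (hG : ∀ γ s, s ∈ G.deg γ ↔ γ = 0 ∨ s = 0) {ι : Type} (a : ι → Γ) (γ : Γ) (w : ι → k) (i : ι)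
    [Decidable (a i = γ)] : cmp G a γ w i = if a i = γ then w i else 0 := by
  unfold cmp
  split_ifs with h
  · rw [h, sub_self]
    exact G.π_self 0 _ ((hG 0 _).2 (Or.inl rfl))
  · rcases (hG _ _).1 (G.π_mem (γ - a i) (w i)) with h2 | h2
    · exact absurd (sub_eq_zero.1 h2).symm h
    · exact h2

/-- the homogeneous vectors of degree `γ` in `Z` -/
private def MvA_Z {k : Type u} [Field k] {ι : Type} (a : ι → Γ) (Z : Submodule k (ι → k)) (γ : Γ) : Submodule k (ι → k) where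
  carrier := {w | w ∈ Z ∧ ∀ i, a i ≠ γ → w i = 0}
  zero_mem' := ⟨Z.zero_mem, fun _ _ => rfl⟩
  add_mem' := fun h1 h2 => ⟨Z.add_mem h1.1 h2.1, fun i hi => by rw [Pi.add_apply, h1.2 i hi, h2.2 i hi, add_zero]⟩
  smul_mem' := fun c w h => ⟨Z.smul_mem c h.1, fun i hi => by rw [Pi.smul_apply, h.2 i hi, smul_zero]⟩

theorem gsyz_field {k : Type u} [Field k] {G : Gr Γ k} (hG : ∀ γ s, s ∈ G.deg γ ↔ γ = 0 ∨ s = 0) : GSyz G := by
  classical
  intro ι _ a Z hZ
  let I : Finset Γ := Finset.univ.image a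
  let B : ∀ γ : I, Module.Basis (Fin (Module.finrank k (MvA_Z a Z γ))) k (MvA_Z a Z γ) := fun γ => Module.finBasis k _
  let M : Matrix ι (Σ γ : I, Fin (Module.finrank k (MvA_Z a Z γ))) k := fun i j => ((B j.1 j.2 : MvA_Z a Z j.1) : ι → k) i
  have hmul : ∀ c : (Σ γ : I, Fin (Module.finrank k (MvA_Z a Z γ))) → k,
      M.mulVec c = ∑ γ : I, ((∑ l, c ⟨γ, l⟩ • B γ l : MvA_Z a Z γ) : ι → k) := by
    intro c
    funext i
    rw [Finset.sum_apply]
    show ∑ j, M i j * c j = _
    rw [Fintype.sum_sigma]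
    refine Finset.sum_congr rfl fun γ _ => ?_
    rw [Submodule.coe_sum, Finset.sum_apply]
    refine Finset.sum_congr rfl fun l _ => ?_
    rw [Submodule.coe_smul, Pi.smul_apply, smul_eq_mul, mul_comm]
  refine ⟨1, (Σ γ : I, Fin (Module.finrank k (MvA_Z a Z γ))), inferInstance, fun j => j.1.1, M, ?_, ?_, ?_⟩
  · intro i j
    rw [hG]
    by_cases h : a i = j.1.1
    · exact Or.inl (sub_eq_zero.2 h.symm)
    · exact Or.inr ((B j.1 j.2).2.2 i h)
  · refine le_antisymm ?_ ?_
    · rintro _ ⟨c, rfl⟩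
      rw [Matrix.mulVecLin_apply, hmul]
      exact Submodule.sum_mem _ fun γ _ => (∑ l, c ⟨γ, l⟩ • B γ l : MvA_Z a Z γ).2.1
    · intro w hw
      have hc : ∀ γ : I, cmp G a γ w ∈ MvA_Z a Z γ := fun γ =>
        ⟨hZ w hw γ, fun i hi => by rw [MvA_cmp hG, if_neg hi]⟩
      refine ⟨fun j => (B j.1).repr ⟨cmp G a j.1 w, hc j.1⟩ j.2, ?_⟩
      rw [Matrix.mulVecLin_apply, hmul]
      have h1 : ∀ γ : I, (∑ l, (B γ).repr ⟨cmp G a γ w, hc γ⟩ l • B γ l : MvA_Z a Z γ) = ⟨cmp G a γ w, hc γ⟩ := fun γ =>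
        (B γ).sum_repr _
      have h2 : ∑ γ : I, ((∑ l, (B γ).repr ⟨cmp G a γ w, hc γ⟩ l • B γ l : MvA_Z a Z γ) : ι → k) = ∑ γ : I, cmp G a γ w :=
        Finset.sum_congr rfl fun γ _ => by rw [h1]
      refine h2.trans ?_
      funext i
      rw [Finset.sum_apply, Finset.sum_eq_single (⟨a i, Finset.mem_image_of_mem a (Finset.mem_univ i)⟩ : I)]
      · rw [MvA_cmp hG, if_pos rfl]
      · intro γ _ hγ
        rw [MvA_cmp hG, if_neg]
        intro e
        exact hγ (Subtype.ext e.symm)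
      · intro h
        exact absurd (Finset.mem_univ _) h
  · show LinearMap.ker M.mulVecLin = ⊥
    rw [LinearMap.ker_eq_bot']
    intro c hc
    rw [Matrix.mulVecLin_apply, hmul] at hc
    have h1 : ∀ γ : I, (∑ l, c ⟨γ, l⟩ • B γ l : MvA_Z a Z γ) = 0 := by
      intro γ
      apply Subtype.ext
      funext i
      by_cases h : a i = γ
      · have h3 := congrFun hc i
        rw [Finset.sum_apply, Finset.sum_eq_single γ] at h3
        · exact h3
        · intro γ' _ hγ'
          refine (∑ l, c ⟨γ', l⟩ • B γ' l : MvA_Z a Z γ').2.2 i ?_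
          intro e
          exact hγ' (Subtype.ext (e.symm.trans h))
        · intro h'
          exact absurd (Finset.mem_univ _) h'
      · exact (∑ l, c ⟨γ, l⟩ • B γ l : MvA_Z a Z γ).2.2 i h
    funext j
    exact Fintype.linearIndependent_iff.1 (B j.1).linearIndependent (fun l => c ⟨j.1, l⟩) (h1 j.1) j.2

end Pool.Agent.SR
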