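import Pool.Agent.SR.Gr

/-!
# SR MvB: transport of `GSyz` along an isomorphism of graded rings
-/

set_option autoImplicit false

namespace Pool.Agent.SR

universe u

variable {Γ : Type} [AddCommGroup Γ]

open MvPolynomial

private theorem mvB_pi {S S' : Type u} [CommRing S] [CommRing S'] (e : S ≃+* S') {G : Gr Γ S} {G' : Gr Γ S'}
    (h : ∀ γ s, s ∈ G.deg γ ↔ e s ∈ G'.deg γ) (γ : Γ) (s : S) : e (G.π γ s) = G'.π γ (e s) := by
  classical
  obtain ⟨F, hF, hs⟩ := G.fin s
  have h3 : G'.π γ (e s) = ∑ η ∈ F, G'.π γ (e (G.π η s)) := by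
    conv_lhs => rw [hs]
    rw [map_sum, map_sum]
  rw [h3, Finset.sum_congr rfl fun η _ => Gr.π_ite (G := G') ((h _ _).1 (G.π_mem η s)), Finset.sum_ite_eq]
  split_ifs with h4
  · rfl
  · rw [hF _ h4, map_zero]

private theorem mvB_mulVec {S S' : Type u} [CommRing S] [CommRing S'] (e : S ≃+* S') {ι κ : Type} [Fintype κ]
    (M : Matrix ι κ S) (v : κ → S) : (M.map e).mulVec (fun j => e (v j)) = fun i => e (M.mulVec v i) := by
  funext i
  show ∑ j, e (M i j) * e (v j) = e (∑ j, M i j * v j)
  rw [map_sum]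
  exact Finset.sum_congr rfl fun j _ => (map_mul e _ _).symm

private theorem mvB_ffr {S S' : Type u} [CommRing S] [CommRing S'] (e : S ≃+* S') {G : Gr Γ S} {G' : Gr Γ S'}
    (h : ∀ γ s, s ∈ G.deg γ ↔ e s ∈ G'.deg γ) : ∀ (l : ℕ) (ι : Type) [Fintype ι] (a : ι → Γ)
    (Z : Submodule S (ι → S)) (Z' : Submodule S' (ι → S')), (∀ w, w ∈ Z ↔ (fun i => e (w i)) ∈ Z') →
    FFR G l ι a Z → FFR G' l ι a Z'
  | 0, ι, _, a, Z, Z', hZ, hF => by
    have hF0 : Z = ⊥ := hF
    show Z' = ⊥
    rw [eq_bot_iff]
    intro w' hw'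
    have h1 : (fun i => e.symm (w' i)) ∈ Z := by
      rw [hZ]
      simpa using hw'
    rw [hF0, Submodule.mem_bot] at h1
    rw [Submodule.mem_bot]
    funext i
    have h2 := congrFun h1 i
    have h3 : e.symm (w' i) = 0 := h2
    rw [← e.apply_symm_apply (w' i), h3, map_zero]
    rfl
  | l + 1, ι, _, a, Z, Z', hZ, hF => by
    obtain ⟨κ, hκ, b, M, hM, hr, hk⟩ := hF
    refine ⟨κ, hκ, b, M.map e, ?_, ?_, ?_⟩
    · intro i j
      exact (h _ _).1 (hM i j)
    · ext w'
      have h0 : w' = fun i => e (e.symm (w' i)) := by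
        funext i
        exact (e.apply_symm_apply _).symm
      constructor
      · rintro ⟨v', rfl⟩
        have h1 : v' = fun j => e (e.symm (v' j)) := by
          funext j
          exact (e.apply_symm_apply _).symm
        rw [Matrix.mulVecLin_apply, h1, mvB_mulVec, ← hZ, ← hr]
        exact ⟨_, rfl⟩
      · intro hw'
        rw [h0, ← hZ, ← hr] at hw'
        obtain ⟨v, hv⟩ := hw'
        refine ⟨fun j => e (v j), ?_⟩
        rw [Matrix.mulVecLin_apply, mvB_mulVec, h0]
        funext i
        exact congrArg e (congrFun hv i)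
    · refine mvB_ffr e h l κ b _ _ ?_ hk
      intro w
      rw [LinearMap.mem_ker, LinearMap.mem_ker, Matrix.mulVecLin_apply, Matrix.mulVecLin_apply, mvB_mulVec]
      constructor
      · intro h1
        funext i
        have h2 := congrFun h1 i
        show e (M.mulVec w i) = 0
        rw [h2]
        exact map_zero e
      · intro h1
        funext i
        have h2 : e (M.mulVec w i) = 0 := congrFun h1 i
        exact (map_eq_zero_iff e e.injective).1 h2

theorem gsyz_equiv {S S' : Type u} [CommRing S] [CommRing S'] (e : S ≃+* S') {G : Gr Γ S} {G' : Gr Γ S'} (h : ∀ γ s, s ∈ G.deg γ ↔ e s ∈ G'.deg γ) (hG : GSyz G) : GSyz G' := by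
  intro ι _ a Z' hZ'
  let Z : Submodule S (ι → S) :=
    { carrier := {w | (fun i => e (w i)) ∈ Z'}
      add_mem' := by
        intro w v hw hv
        have h1 : (fun i => e ((w + v) i)) = (fun i => e (w i)) + fun i => e (v i) := by
          funext i
          exact map_add e _ _
        show (fun i => e ((w + v) i)) ∈ Z'
        rw [h1]
        exact Z'.add_mem hw hv
      zero_mem' := by
        have h1 : (fun i => e ((0 : ι → S) i)) = 0 := by
          funext i
          exact map_zero e
        show (fun i => e ((0 : ι → S) i)) ∈ Z'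
        rw [h1]
        exact Z'.zero_mem
      smul_mem' := by
        intro c w hw
        have h1 : (fun i => e ((c • w) i)) = e c • fun i => e (w i) := by
          funext i
          exact map_mul e _ _
        show (fun i => e ((c • w) i)) ∈ Z'
        rw [h1]
        exact Z'.smul_mem _ hw }
  have hZ : ∀ w, w ∈ Z ↔ (fun i => e (w i)) ∈ Z' := fun w => Iff.rfl
  obtain ⟨l, hl⟩ := hG ι a Z (by
    intro w hw γ
    rw [hZ] at hw ⊢
    have h1 : (fun i => e (cmp G a γ w i)) = cmp G' a γ fun i => e (w i) := by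
      funext i
      exact mvB_pi e h _ _
    rw [h1]
    exact hZ' _ hw γ)
  exact ⟨l, mvB_ffr e h l ι a Z Z' hZ hl⟩

end Pool.Agent.SR
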