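import Pool.Agent.SR.Gr

/-!
# SR MvC: the grading of a polynomial ring

`exists_mv`: `MvPolynomial.weightedHomogeneousComponent`.
-/

set_option autoImplicit false

namespace Pool.Agent.SR

universe u

variable {Γ : Type} [AddCommGroup Γ]

open MvPolynomial

theorem exists_mv (k : Type u) [Field k] {σ : Type} (w : σ → Γ) : ∃ G : Gr Γ (MvPolynomial σ k), ∀ γ p, p ∈ G.deg γ ↔ IsWeightedHomogeneous w p γ := by
  classical
  refine ⟨{ deg := fun γ => (weightedHomogeneousSubmodule k w γ).toAddSubgroup
            π := fun γ => (weightedHomogeneousComponent w γ).toAddMonoidHom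
            π_mem := fun γ s => weightedHomogeneousComponent_mem w s γ
            π_self := fun γ s hs => IsWeightedHomogeneous.weightedHomogeneousComponent_same hs
            π_ne := fun γ γ' h s hs => IsWeightedHomogeneous.weightedHomogeneousComponent_ne γ hs h
            fin := ?_
            one_mem := isWeightedHomogeneous_one k w
            mul_mem := fun γ γ' s s' hs hs' => IsWeightedHomogeneous.mul hs hs' }, fun γ p => Iff.rfl⟩
  intro s
  have hf := weightedHomogeneousComponent_finsupp (w := w) s
  refine ⟨hf.toFinset, fun γ hγ => ?_, ?_⟩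
  · by_contra h
    exact hγ (hf.mem_toFinset.2 h)
  · have h1 := finsum_weightedHomogeneousComponent w s
    rw [finsum_eq_sum _ hf] at h1
    exact h1.symm

end Pool.Agent.SR
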