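import Pool.Agent.SR.Gr

/-!
# SR PolyGr: the grading of a polynomial ring

`exists_poly`: the component of degree `γ` of `p` has the coefficients `G.π (γ - i • δ) (p.coeff i)`.
-/

set_option autoImplicit false

namespace Pool.Agent.SR

universe u

variable {Γ : Type} [AddCommGroup Γ] {S : Type u} [CommRing S]

open Polynomial

/-- the sum of the components over every finite set which contains the degrees of the nonzero components -/
private theorem PolyGr_sum (G : Gr Γ S) (s : S) (t : Finset Γ) (h : ∀ γ ∉ t, G.π γ s = 0) : s = ∑ γ ∈ t, G.π γ s := by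
  classical
  obtain ⟨F, hF, hs⟩ := G.fin s
  have h1 : ∑ γ ∈ F, G.π γ s = ∑ γ ∈ F ∪ t, G.π γ s :=
    Finset.sum_subset Finset.subset_union_left fun γ _ h2 => hF γ h2
  have h2 : ∑ γ ∈ t, G.π γ s = ∑ γ ∈ F ∪ t, G.π γ s :=
    Finset.sum_subset Finset.subset_union_right fun γ _ h2 => h γ h2
  exact hs.trans (h1.trans h2.symm)

/-- the component of degree `γ` of a polynomial -/
private noncomputable def PolyGr_pi (G : Gr Γ S) (δ γ : Γ) : S[X] →+ S[X] where
  toFun p := p.sum fun i s => monomial i (G.π (γ - i • δ) s)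
  map_zero' := Polynomial.sum_zero_index _
  map_add' p q := Polynomial.sum_add_index p q _ (fun i => by rw [map_zero, map_zero]) (fun i a b => by rw [map_add, map_add])

private theorem PolyGr_coeff (G : Gr Γ S) (δ γ : Γ) (p : S[X]) (i : ℕ) : (PolyGr_pi G δ γ p).coeff i = G.π (γ - i • δ) (p.coeff i) := by
  classical
  show (p.sum fun i s => monomial i (G.π (γ - i • δ) s)).coeff i = _
  rw [Polynomial.sum_def, Polynomial.finsetSum_coeff]
  simp only [coeff_monomial]
  rw [Finset.sum_ite_eq']
  split_ifs with h
  · rfl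
  · rw [Polynomial.notMem_support_iff.1 h, map_zero]

theorem exists_poly (G : Gr Γ S) (δ : Γ) : ∃ G' : Gr Γ S[X], ∀ γ p, p ∈ G'.deg γ ↔ ∀ i : ℕ, p.coeff i ∈ G.deg (γ - i • δ) := by
  classical
  refine ⟨{
    deg := fun γ => {
      carrier := {p | ∀ i : ℕ, p.coeff i ∈ G.deg (γ - i • δ)}
      zero_mem' := fun i => by
        rw [coeff_zero]
        exact AddSubgroup.zero_mem _
      add_mem' := fun {a b} ha hb i => by
        rw [coeff_add]
        exact AddSubgroup.add_mem _ (ha i) (hb i)
      neg_mem' := fun {a} ha i => by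
        rw [coeff_neg]
        exact AddSubgroup.neg_mem _ (ha i) }
    π := fun γ => PolyGr_pi G δ γ
    π_mem := fun γ p i => by
      rw [PolyGr_coeff]
      exact G.π_mem _ _
    π_self := fun γ p hp => by
      ext i
      rw [PolyGr_coeff]
      exact G.π_self _ _ (hp i)
    π_ne := fun γ γ' hne p hp => by
      ext i
      rw [PolyGr_coeff, coeff_zero]
      exact G.π_ne _ _ (fun h => hne (sub_left_injective h)) _ (hp i)
    fin := fun p => ?_
    one_mem := fun i => by
      rw [coeff_one]
      split_ifs with h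
      · subst h
        rw [zero_smul, sub_zero]
        exact G.one_mem
      · exact AddSubgroup.zero_mem _
    mul_mem := fun γ γ' p p' hp hp' i => by
      rw [coeff_mul]
      refine AddSubgroup.sum_mem _ fun x hx => ?_
      refine Gr.mul_mem' (hp x.1) (hp' x.2) ?_
      rw [← Finset.HasAntidiagonal.mem_antidiagonal.1 hx, add_smul]
      abel }, fun γ p => Iff.rfl⟩
  choose F hF _ using fun i : ℕ => G.fin (p.coeff i)
  have h1 : ∀ i : ℕ, ∀ γ ∉ p.support.biUnion fun i => (F i).image fun η => η + i • δ, G.π (γ - i • δ) (p.coeff i) = 0 := by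
    intro i γ hγ
    by_cases hi : i ∈ p.support
    · refine hF i _ fun h2 => hγ ?_
      rw [Finset.mem_biUnion]
      exact ⟨i, hi, Finset.mem_image.2 ⟨γ - i • δ, h2, sub_add_cancel _ _⟩⟩
    · rw [Polynomial.notMem_support_iff.1 hi, map_zero]
  refine ⟨p.support.biUnion fun i => (F i).image fun η => η + i • δ, fun γ hγ => ?_, ?_⟩
  · ext i
    rw [PolyGr_coeff, coeff_zero]
    exact h1 i γ hγ
  · ext i
    rw [Polynomial.finsetSum_coeff]
    simp only [PolyGr_coeff]
    have h2 := PolyGr_sum G (p.coeff i) ((p.support.biUnion fun i => (F i).image fun η => η + i • δ).image fun γ => γ - i • δ) (by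
      intro η hη
      have h3 := h1 i (η + i • δ) (fun h4 => hη (Finset.mem_image.2 ⟨_, h4, add_sub_cancel_right _ _⟩))
      rwa [add_sub_cancel_right] at h3)
    rw [Finset.sum_image (fun a _ b _ h => sub_left_injective h)] at h2
    exact h2

end Pool.Agent.SR
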