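import Pool.Agent.SR.Poly
import Pool.Agent.SR.PolyGr
import Pool.Agent.SR.MvA
import Pool.Agent.SR.MvB
import Pool.Agent.SR.MvC
import Pool.Agent.SR.Defs

/-!
# SR MvD: graded syzygies over polynomial rings

`gsyz_fin`: induction on `m` with `MvPolynomial.finSuccEquiv` and `gsyz_poly` (`MvPolynomial (Fin m) k` is noetherian); `m = 0`: `MvPolynomial.isEmptyRingEquiv`, `gsyz_field`, `gsyz_equiv`
(transport the grading of `k`: build it by hand).  `Gr.ext_deg`: a grading is determined by `deg`.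
`exists_gsyz_T`: rename the variables (`Fin (n + 1) ⊕ Fin (n + 1) ≃ Fin (n + 1 + (n + 1))`).
-/

set_option autoImplicit false

namespace Pool.Agent.SR

universe u

variable {Γ : Type} [AddCommGroup Γ]

open MvPolynomial

/-- the grading of `S` transported from `S'` -/
private def MvD_pull {S S' : Type u} [CommRing S] [CommRing S'] (e : S ≃+* S') (G' : Gr Γ S') : Gr Γ S where
  deg := fun γ => (G'.deg γ).comap (e : S →+* S').toAddMonoidHom
  π := fun γ => ((e.symm : S' →+* S).toAddMonoidHom.comp (G'.π γ)).comp (e : S →+* S').toAddMonoidHom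
  π_mem := by
    intro γ s
    show e (e.symm (G'.π γ (e s))) ∈ G'.deg γ
    rw [e.apply_symm_apply]
    exact G'.π_mem _ _
  π_self := by
    intro γ s hs
    show e.symm (G'.π γ (e s)) = s
    rw [G'.π_self γ (e s) hs, e.symm_apply_apply]
  π_ne := by
    intro γ γ' h s hs
    show e.symm (G'.π γ (e s)) = 0
    rw [G'.π_ne γ γ' h (e s) hs, map_zero]
  fin := by
    intro s
    obtain ⟨t, ht, hs⟩ := G'.fin (e s)
    refine ⟨t, fun γ hγ => ?_, ?_⟩
    · show e.symm (G'.π γ (e s)) = 0
      rw [ht γ hγ, map_zero]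
    · show s = ∑ γ ∈ t, e.symm (G'.π γ (e s))
      rw [← map_sum, ← hs, e.symm_apply_apply]
  one_mem := by
    show e 1 ∈ G'.deg 0
    rw [map_one]
    exact G'.one_mem
  mul_mem := by
    intro γ γ' s s' hs hs'
    show e (s * s') ∈ G'.deg (γ + γ')
    rw [map_mul]
    exact G'.mul_mem γ γ' _ _ hs hs'

private theorem MvD_weight_cons {m : ℕ} (w : Fin (m + 1) → Γ) (i : ℕ) (d : Fin m →₀ ℕ) :
    Finsupp.weight w (Finsupp.cons i d) = i • w 0 + Finsupp.weight (fun j => w j.succ) d := by
  rw [Finsupp.weight_apply, Finsupp.weight_apply, Finsupp.sum_fintype _ _ (fun j => by simp), Finsupp.sum_fintype _ _ (fun j => by simp), Fin.sum_univ_succ]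
  simp

private theorem MvD_succ {k : Type u} [Field k] {m : ℕ} (w : Fin (m + 1) → Γ) (f : MvPolynomial (Fin (m + 1)) k) (γ : Γ) :
    (∀ i : ℕ, IsWeightedHomogeneous (fun j => w j.succ) ((finSuccEquiv k m f).coeff i) (γ - i • w 0)) ↔ IsWeightedHomogeneous w f γ := by
  constructor
  · intro h d hd
    have h1 : Finsupp.cons (d 0) d.tail = d := Finsupp.cons_tail d
    have h2 := h (d 0) (d := d.tail) (by rw [finSuccEquiv_coeff_coeff, h1]; exact hd)
    rw [← h1, MvD_weight_cons, h2]
    abel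
  · intro h i d hd
    rw [finSuccEquiv_coeff_coeff] at hd
    have h2 := h hd
    rw [MvD_weight_cons] at h2
    rw [← h2]
    abel

theorem gsyz_fin (k : Type u) [Field k] (m : ℕ) : ∀ (w : Fin m → Γ) (G : Gr Γ (MvPolynomial (Fin m) k)), (∀ γ p, p ∈ G.deg γ ↔ IsWeightedHomogeneous w p γ) → GSyz G := by
  induction m with
  | zero =>
    intro w G hG
    refine gsyz_equiv (isEmptyRingEquiv k (Fin 0)).symm (G := MvD_pull (isEmptyRingEquiv k (Fin 0)).symm G) (fun γ s => Iff.rfl) (gsyz_field fun γ s => ?_)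
    have h1 : s ∈ (MvD_pull (isEmptyRingEquiv k (Fin 0)).symm G).deg γ ↔ (isEmptyRingEquiv k (Fin 0)).symm s ∈ G.deg γ := Iff.rfl
    rw [h1, hG]
    have h2 : (isEmptyRingEquiv k (Fin 0)).symm s = C s := rfl
    rw [h2]
    constructor
    · intro h
      by_cases hs : s = 0
      · exact Or.inr hs
      · left
        have h3 := h (d := 0) (by simpa using hs)
        rw [map_zero] at h3
        exact h3.symm
    · rintro (rfl | rfl)
      · exact isWeightedHomogeneous_C _ _
      · rw [map_zero]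
        exact isWeightedHomogeneous_zero _ _ _
  | succ m ih =>
    intro w G hG
    obtain ⟨G1, hG1⟩ := exists_mv k (fun j : Fin m => w j.succ)
    obtain ⟨G2, hG2⟩ := exists_poly G1 (w 0)
    have h2 : GSyz G2 := gsyz_poly (ih _ G1 hG1) (w 0) hG2
    refine gsyz_equiv (finSuccEquiv k m).symm.toRingEquiv (fun γ p => ?_) h2
    rw [hG2, hG]
    have h3 : (finSuccEquiv k m).symm.toRingEquiv p = (finSuccEquiv k m).symm p := rfl
    rw [h3, ← MvD_succ w, AlgEquiv.apply_symm_apply]
    exact forall_congr' fun i => hG1 _ _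

private theorem MvD_weight_map {σ τ : Type} (e : σ → τ) (w : τ → Γ) (d : σ →₀ ℕ) :
    Finsupp.weight w (Finsupp.mapDomain e d) = Finsupp.weight (w ∘ e) d := by
  rw [Finsupp.weight_apply, Finsupp.weight_apply, Finsupp.sum_mapDomain_index (fun j => by simp) (fun j a b => by rw [add_smul])]
  rfl

private theorem MvD_rename {k : Type u} [Field k] {σ τ : Type} (e : σ ≃ τ) (w : τ → Γ) (p : MvPolynomial σ k) (γ : Γ) :
    IsWeightedHomogeneous (w ∘ e) p γ ↔ IsWeightedHomogeneous w (rename e p) γ := by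
  constructor
  · intro h d hd
    obtain ⟨u, rfl, hu⟩ := coeff_rename_ne_zero _ _ _ hd
    rw [MvD_weight_map]
    exact h hu
  · intro h d hd
    rw [← MvD_weight_map]
    refine h ?_
    rw [coeff_rename_mapDomain _ e.injective]
    exact hd

theorem exists_gsyz_T (k : Type u) [Field k] (n : ℕ) : ∃ G : Gr (ℤ × ℤ) (T k n), (∀ a b g, g ∈ G.deg (a, b) ↔ Bi k n a b g) ∧ GSyz G := by
  obtain ⟨G, hG⟩ := exists_mv k (wt n)
  refine ⟨G, fun a b g => hG (a, b) g, ?_⟩
  obtain ⟨G', hG'⟩ := exists_mv k (fun i : Fin (n + 1 + (n + 1)) => wt n (finSumFinEquiv.symm i))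
  have h1 : GSyz G' := gsyz_fin k _ _ G' hG'
  refine gsyz_equiv (renameEquiv k (finSumFinEquiv (m := n + 1) (n := n + 1)).symm).toRingEquiv (fun γ p => ?_) h1
  rw [hG', hG]
  exact MvD_rename (finSumFinEquiv (m := n + 1) (n := n + 1)).symm (wt n) p γ

end Pool.Agent.SR
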