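import Pool.Agent.SR.LocB
import Pool.Agent.SR.LocC
import Pool.Agent.SR.MvD

/-!
# SR Loc: finite projective modules over `A k n` are stably sums of twists
-/

set_option autoImplicit false

namespace Pool.Agent.SR

universe u v

variable {k : Type u} [Field k] {n : ℕ}

theorem exists_stable (E : Type v) [AddCommGroup E] [Module (A k n) E] [Module.Finite (A k n) E] [Module.Projective (A k n) E] :
    ∃ (κ κ' : Type) (_ : Fintype κ) (_ : Fintype κ') (c : κ → ℤ) (c' : κ' → ℤ), Nonempty ((E × Tw k n c) ≃ₗ[A k n] Tw k n c') := by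
  obtain ⟨G, hG, hS⟩ := exists_gsyz_T k n
  obtain ⟨ι, _, a, Z, hZ, ⟨e⟩⟩ := exists_phi hG E
  obtain ⟨l, hl⟩ := hS ι a Z hZ
  obtain ⟨κ, κ', _, _, c, c', ⟨f⟩⟩ := phi_stable hG l hl (Module.Projective.of_equiv e)
  exact ⟨κ, κ', inferInstance, inferInstance, c, c', ⟨(e.prodCongr (LinearEquiv.refl _ _)).trans f⟩⟩

end Pool.Agent.SR
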