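import Pool.Agent.SR.LocD

/-!
# SR LocA
-/

set_option autoImplicit false

namespace Pool.Agent.SR

universe u v

variable {k : Type u} [Field k] {n : ℕ}

private theorem LocA_zpow (a b c d : ℤ) (h : a + b = c + d) :
    em k n (q k n) ^ a * em k n (q k n) ^ b = em k n (q k n) ^ c * em k n (q k n) ^ d := by
  rw [← zpow_add₀ emq_ne_zero, ← zpow_add₀ emq_ne_zero, h]

private theorem LocA_fwd (z : K k n) (m : ℕ) (a1 a2 : ℤ) (u : T k n) (hu : Bi k n (m - a1) (m - a2) u)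
    (hz : z * em k n (q k n) ^ m = em k n u) : z * em k n (q k n) ^ a2 ∈ twist k n (a2 - a1) := by
  obtain ⟨N, hN⟩ : ∃ N : ℕ, 0 ≤ (m : ℤ) - a2 + N := ⟨(a2 - m).toNat, by omega⟩
  obtain ⟨l, hl⟩ := Int.eq_ofNat_of_zero_le hN
  refine ⟨l, u * q k n ^ N, Bi.cast (hu.mul (Bi.qpow N)) (by omega) (by omega), ?_⟩
  have h := LocA_zpow (k := k) (n := n) a2 l m N (by omega)
  rw [zpow_natCast, zpow_natCast, zpow_natCast] at h
  rw [em_mul, em_pow, ← hz, mul_assoc, h, mul_assoc]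

private theorem LocA_bwd (z : K k n) (a1 a2 : ℤ) (hz : z ∈ twist k n (a2 - a1)) :
    ∃ M : ℕ, ∀ m : ℕ, M ≤ m → ∃ u : T k n, Bi k n (m - a1) (m - a2) u ∧
      z * em k n (q k n) ^ (-a2) * em k n (q k n) ^ m = em k n u := by
  obtain ⟨l, g, hg, h⟩ := hz
  refine ⟨(l + a2).toNat, fun m hm => ?_⟩
  obtain ⟨N, hN⟩ := Int.eq_ofNat_of_zero_le (a := (m : ℤ) - a2 - l) (by omega)
  refine ⟨g * q k n ^ N, Bi.cast (hg.mul (Bi.qpow N)) (by omega) (by omega), ?_⟩
  have h1 := LocA_zpow (k := k) (n := n) (-a2) m l N (by omega)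
  rw [zpow_natCast, zpow_natCast, zpow_natCast] at h1
  rw [em_mul, em_pow, ← h, mul_assoc, h1, mul_assoc]

private theorem LocA_bwdAll {κ : Type} [Fintype κ] (a : κ → ℤ × ℤ) (w : κ → K k n)
    (hw : w ∈ Tw k n fun i => (a i).2 - (a i).1) :
    (fun i => w i * em k n (q k n) ^ (-(a i).2)) ∈ Phi (k := k) (n := n) a ⊤ := by
  choose M hM using fun i => LocA_bwd (w i) (a i).1 (a i).2 (hw i)
  choose u hu using fun i => hM i (∑ j, M j) (Finset.single_le_sum (f := M) (fun _ _ => Nat.zero_le _) (Finset.mem_univ i))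
  exact ⟨∑ j, M j, u, Submodule.mem_top, hu⟩

/-- a free module becomes a sum of twists: multiply the coordinate `i` by `q ^ (a i).2` -/
theorem phi_top {κ : Type} [Fintype κ] (a : κ → ℤ × ℤ) : Nonempty (Phi (k := k) (n := n) a ⊤ ≃ₗ[A k n] Tw k n fun i => (a i).2 - (a i).1) := by
  refine ⟨{
    toFun := fun w => ⟨fun i => w.1 i * em k n (q k n) ^ (a i).2, ?_⟩
    invFun := fun w => ⟨fun i => w.1 i * em k n (q k n) ^ (-(a i).2), LocA_bwdAll a w.1 w.2⟩
    map_add' := ?_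
    map_smul' := ?_
    left_inv := ?_
    right_inv := ?_ }⟩
  · obtain ⟨m, u, _, h⟩ := w.2
    exact fun i => LocA_fwd (w.1 i) m (a i).1 (a i).2 (u i) (h i).1 (h i).2
  · intro w w'
    apply Subtype.ext
    funext i
    exact add_mul _ _ _
  · intro c w
    apply Subtype.ext
    funext i
    exact smul_mul_assoc c (w.1 i) _
  · intro w
    apply Subtype.ext
    funext i
    show w.1 i * em k n (q k n) ^ (a i).2 * em k n (q k n) ^ (-(a i).2) = w.1 i
    rw [mul_assoc, ← zpow_add₀ emq_ne_zero, add_neg_cancel, zpow_zero, mul_one]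
  · intro w
    apply Subtype.ext
    funext i
    show w.1 i * em k n (q k n) ^ (-(a i).2) * em k n (q k n) ^ (a i).2 = w.1 i
    rw [mul_assoc, ← zpow_add₀ emq_ne_zero, neg_add_cancel, zpow_zero, mul_one]

end Pool.Agent.SR
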