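import Pool.Agent.SR.TwA
import Pool.Agent.SR.TwS

/-!
# SR TwR: `Tw k n c` is finite and projective, of rank the number of summands

`twist k n i` is finite and projective: `z ↦ (z v l)_l` and `c ↦ ∑ c l u l` (`exists_dual`).  The rank of `twist k n i` is `1`: `rankAtStalk_eq_of_le_of_finite_of_flat` reduces it to the prime
`⊥` (`A k n` is a domain); a nonzero submodule of a field which contains `A k n` has rank one; or: at the prime `p` some `u l v l` is not in `p`, and `z (u l v l) = (z v l) u l`.
`Tw k n c` is the product of the `twist k n (c i)` (`Module.rankAtStalk_pi`).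
-/

set_option autoImplicit false

namespace Pool.Agent.SR

open MvPolynomial

universe u

variable {k : Type u} [Field k] {n : ℕ}

theorem nonempty_spec : Nonempty (PrimeSpectrum (A k n)) := by
  exact inferInstance

variable (k n)

private theorem twR_one : (twist k n 0) = (1 : Submodule (A k n) (K k n)) := by
  ext z
  rw [mem_A_iff, Submodule.mem_one]

private theorem twR_mul (i : ℤ) : twist k n i * twist k n (-i) = 1 := by
  refine le_antisymm ?_ ?_
  · rw [Submodule.mul_le]
    intro z hz w hw
    rw [← twR_one]
    have h := twist_mul hz hw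
    rwa [add_neg_cancel] at h
  · obtain ⟨N, u, v, hu, hv, h⟩ := exists_dual (k := k) (n := n) i
    rw [Submodule.one_le, ← h]
    exact Submodule.sum_mem _ fun l _ => Submodule.mul_mem_mul (hu l) (hv l)

/-- `twist k n i` as a unit -/
private noncomputable def twR_unit (i : ℤ) : (Submodule (A k n) (K k n))ˣ where
  val := twist k n i
  inv := twist k n (-i)
  val_inv := twR_mul k n i
  inv_val := by
    have h := twR_mul k n (-i)
    rwa [neg_neg] at h

private instance twR_faithful : FaithfulSMul (A k n) (K k n) := (faithfulSMul_iff_algebraMap_injective _ _).2 A.inj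

private theorem twR_inv (i : ℤ) : Module.Invertible (A k n) (twist k n i) :=
  inferInstanceAs (Module.Invertible (A k n) (twR_unit k n i).val)

/-- `Tw` is a product -/
private noncomputable def twR_equiv {κ : Type} (c : κ → ℤ) : Tw k n c ≃ₗ[A k n] ((i : κ) → twist k n (c i)) where
  toFun w i := ⟨w.1 i, w.2 i⟩
  map_add' _ _ := rfl
  map_smul' _ _ := rfl
  invFun w := ⟨fun i => (w i).1, fun i => (w i).2⟩
  left_inv _ := rfl
  right_inv _ := rfl

theorem tw_finite {κ : Type} [Fintype κ] (c : κ → ℤ) : Module.Finite (A k n) (Tw k n c) := by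
  have _ := fun i => twR_inv k n (c i)
  exact Module.Finite.equiv (twR_equiv k n c).symm

theorem tw_projective {κ : Type} [Fintype κ] (c : κ → ℤ) : Module.Projective (A k n) (Tw k n c) := by
  classical
  have _ := fun i => twR_inv k n (c i)
  exact Module.Projective.of_equiv ((DFinsupp.linearEquivFunOnFintype (R := A k n) (M := fun i : κ => twist k n (c i))).trans (twR_equiv k n c).symm)

theorem tw_rank {κ : Type} [Fintype κ] (c : κ → ℤ) (p : PrimeSpectrum (A k n)) : Module.rankAtStalk (Tw k n c) p = Fintype.card κ := by
  have _ := fun i => twR_inv k n (c i)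
  rw [Module.rankAtStalk_eq_of_equiv (twR_equiv k n c), Module.rankAtStalk_pi, finsum_eq_sum_of_fintype]
  have h : ∀ i : κ, Module.rankAtStalk (twist k n (c i)) p = 1 := fun i => by
    simp [Module.rankAtStalk, Module.Invertible.finrank_eq_one]
  simp [h]

end Pool.Agent.SR
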