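import Pool.Agent.SR.LocA
import Pool.Agent.SR.Gr
import Pool.Agent.SR.TwR

/-!
# SR LocB: localisation of resolutions

For `M : F_b → F_a` with `range M = Z`: the map `Phi b ⊤ → Phi a Z`, `w ↦ M w` (entries through `em`), is onto (a homogeneous `u ∈ Z` of degree `(m, m)` has a homogeneous preimage of the same degree) with
kernel `Phi b (ker M)`; it splits, so `Phi b (ker M)` is projective and `Phi b ⊤` is the product.  With `(Phi b (ker M)) × Tw c ≃ Tw c'` (induction) one gets
`Phi a Z × Tw c' ≃ Phi a Z × Phi b (ker M) × Tw c ≃ Tw .. × Tw c` (`phi_top`, `tw_sum`).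
-/

set_option autoImplicit false

namespace Pool.Agent.SR

universe u v

variable {k : Type u} [Field k] {n : ℕ}

/-- a short exact sequence with projective quotient splits -/
private theorem LocB_split {R : Type*} [CommRing R] {L M N : Type*} [AddCommGroup L] [AddCommGroup M] [AddCommGroup N] [Module R L] [Module R M] [Module R N]
    (i : L →ₗ[R] M) (p : M →ₗ[R] N) (hi : Function.Injective i) (hp : Function.Surjective p) (h1 : ∀ m, p m = 0 → ∃ l, i l = m) (h2 : ∀ l, p (i l) = 0)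
    (hN : Module.Projective R N) : Nonempty ((L × N) ≃ₗ[R] M) := by
  obtain ⟨s, hs⟩ := p.exists_rightInverse_of_surjective (LinearMap.range_eq_top.2 hp)
  have hs' : ∀ x, p (s x) = x := fun x => LinearMap.congr_fun hs x
  refine ⟨LinearEquiv.ofBijective (i.coprod s) ⟨?_, ?_⟩⟩
  · rw [injective_iff_map_eq_zero]
    rintro ⟨l, x⟩ h
    rw [LinearMap.coprod_apply] at h
    have hx : x = 0 := by
      have h3 := congrArg p h
      rwa [map_add, h2, zero_add, hs', map_zero] at h3
    subst hx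
    rw [map_zero, add_zero] at h
    have hl : l = 0 := hi (h.trans (map_zero i).symm)
    rw [hl]
    rfl
  · intro m
    obtain ⟨l, hl⟩ := h1 (m - s (p m)) (by rw [map_sub, hs', sub_self])
    exact ⟨(l, p m), by rw [LinearMap.coprod_apply, hl, sub_add_cancel]⟩

/-- the matrix `M` as a linear map of vectors of elements of the field -/
private noncomputable def LocB_map {ι κ : Type} [Fintype κ] (M : Matrix ι κ (T k n)) : (κ → K k n) →ₗ[A k n] (ι → K k n) where
  toFun w i := ∑ j, em k n (M i j) * w j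
  map_add' w w' := by
    funext i
    simp only [Pi.add_apply, mul_add, Finset.sum_add_distrib]
  map_smul' c w := by
    funext i
    simp only [Pi.smul_apply, RingHom.id_apply, Finset.smul_sum, mul_smul_comm]

private theorem LocB_apply {ι κ : Type} [Fintype κ] (M : Matrix ι κ (T k n)) (w : κ → K k n) (v : κ → T k n) (c : K k n) (h : ∀ j, w j * c = em k n (v j)) (i : ι) :
    LocB_map M w i * c = em k n (M.mulVec v i) := by
  show (∑ j, em k n (M i j) * w j) * c = em k n (∑ j, M i j * v j)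
  rw [Finset.sum_mul, em_sum]
  refine Finset.sum_congr rfl fun j _ => ?_
  rw [em_mul, ← h j, mul_assoc]

private theorem LocB_bi {G : Gr (ℤ × ℤ) (T k n)} (hG : ∀ a b g, g ∈ G.deg (a, b) ↔ Bi k n a b g) {κ : Type} (b : κ → ℤ × ℤ) (m : ℕ) (j : κ) (g : T k n) :
    g ∈ G.deg (((m : ℤ), (m : ℤ)) - b j) ↔ Bi k n (m - (b j).1) (m - (b j).2) g := by
  rw [← hG]
  rfl

private theorem LocB_pow_ne (m : ℕ) : em k n (q k n) ^ m ≠ 0 := pow_ne_zero m emq_ne_zero

/-- homogeneous vectors are mapped to homogeneous vectors -/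
private theorem LocB_mem {G : Gr (ℤ × ℤ) (T k n)} (hG : ∀ a b g, g ∈ G.deg (a, b) ↔ Bi k n a b g) {ι κ : Type} [Fintype κ] {a : ι → ℤ × ℤ} {b : κ → ℤ × ℤ}
    {M : Matrix ι κ (T k n)} (hM : HomM G a b M) {w : κ → K k n} (hw : w ∈ Phi (k := k) (n := n) b ⊤) : LocB_map M w ∈ Phi a (LinearMap.range M.mulVecLin) := by
  obtain ⟨m, v, _, h⟩ := hw
  refine ⟨m, M.mulVec v, ⟨v, rfl⟩, fun i => ⟨?_, LocB_apply M w v _ (fun j => (h j).2) i⟩⟩
  rw [← LocB_bi hG]
  exact AddSubgroup.sum_mem _ fun j _ => Gr.mul_mem' (hM i j) ((LocB_bi hG b m j _).2 (h j).1) (sub_add_sub_cancel' _ _ _)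

/-- homogeneous preimages -/
private theorem LocB_surj {G : Gr (ℤ × ℤ) (T k n)} (hG : ∀ a b g, g ∈ G.deg (a, b) ↔ Bi k n a b g) {ι κ : Type} [Fintype κ] {a : ι → ℤ × ℤ} {b : κ → ℤ × ℤ}
    {M : Matrix ι κ (T k n)} (hM : HomM G a b M) {w : ι → K k n} (hw : w ∈ Phi (k := k) (n := n) a (LinearMap.range M.mulVecLin)) :
    ∃ w' ∈ Phi (k := k) (n := n) b ⊤, LocB_map M w' = w := by
  obtain ⟨m, u, ⟨v, hv⟩, h⟩ := hw
  rw [Matrix.mulVecLin_apply] at hv
  have h1 : M.mulVec (cmp G b ((m : ℤ), (m : ℤ)) v) = u := by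
    rw [← hM.cmp, hv]
    funext i
    exact G.π_self _ _ ((LocB_bi hG a m i _).2 (h i).1)
  have h2 : ∀ j, em k n (cmp G b ((m : ℤ), (m : ℤ)) v j) / em k n (q k n) ^ m * em k n (q k n) ^ m = em k n (cmp G b ((m : ℤ), (m : ℤ)) v j) := fun j => div_mul_cancel₀ _ (LocB_pow_ne m)
  refine ⟨fun j => em k n (cmp G b ((m : ℤ), (m : ℤ)) v j) / em k n (q k n) ^ m, ⟨m, cmp G b ((m : ℤ), (m : ℤ)) v, Submodule.mem_top, fun j => ⟨(LocB_bi hG b m j _).1 (G.π_mem _ _), h2 j⟩⟩, ?_⟩
  funext i
  refine mul_right_cancel₀ (LocB_pow_ne (k := k) (n := n) m) ?_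
  rw [LocB_apply M _ _ _ h2 i, h1, (h i).2]

/-- by induction on `l`: `Phi` of a surjection `F_b → Z` is onto with kernel `Phi` of the kernel (homogeneous preimages: `HomM.cmp`), and it splits -/
theorem phi_stable {G : Gr (ℤ × ℤ) (T k n)} (hG : ∀ a b g, g ∈ G.deg (a, b) ↔ Bi k n a b g) (l : ℕ) : ∀ {ι : Type} [Fintype ι] {a : ι → ℤ × ℤ} {Z : Submodule (T k n) (ι → T k n)},
    FFR G l ι a Z → Module.Projective (A k n) (Phi a Z) →
    ∃ (κ κ' : Type) (_ : Fintype κ) (_ : Fintype κ') (c : κ → ℤ) (c' : κ' → ℤ), Nonempty ((Phi a Z × Tw k n c) ≃ₗ[A k n] Tw k n c') := by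
  induction l with
  | zero =>
    intro ι _ a Z hZ _
    have h0 : ∀ w : Phi a Z, w = 0 := by
      rintro ⟨w, m, u, hu, h⟩
      have hu0 : u = 0 := by
        have h1 : Z = ⊥ := hZ
        rw [h1] at hu
        exact hu
      refine Subtype.ext (funext fun i => ?_)
      refine mul_right_cancel₀ (LocB_pow_ne (k := k) (n := n) m) ?_
      show w i * _ = 0 * _
      rw [(h i).2, hu0, Pi.zero_apply, em_zero, zero_mul]
    have : Subsingleton (Phi a Z) := ⟨fun x y => (h0 x).trans (h0 y).symm⟩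
    have : Subsingleton (Tw k n (fun i : Empty => i.elim)) := ⟨fun x y => Subtype.ext (funext fun i => i.elim)⟩
    exact ⟨Empty, Empty, inferInstance, inferInstance, fun i => i.elim, fun i => i.elim, ⟨LinearEquiv.ofBijective (0 : (Phi a Z × Tw k n (fun i : Empty => i.elim)) →ₗ[A k n] Tw k n (fun i : Empty => i.elim))
      ⟨fun x y _ => Subsingleton.elim x y, fun x => ⟨0, Subsingleton.elim _ _⟩⟩⟩⟩
  | succ l ih =>
    intro ι _ a Z hZ hP
    obtain ⟨κ₀, _, b, M, hM, rfl, hK⟩ := hZ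
    -- the maps
    let p : Phi (k := k) (n := n) b ⊤ →ₗ[A k n] Phi a (LinearMap.range M.mulVecLin) := (LocB_map M).restrict fun w hw => LocB_mem hG hM hw
    have hle : Phi (k := k) (n := n) b (LinearMap.ker M.mulVecLin) ≤ Phi b ⊤ := by
      rintro w ⟨m, u, _, h⟩
      exact ⟨m, u, Submodule.mem_top, h⟩
    have hsurj : Function.Surjective p := by
      rintro ⟨w, hw⟩
      obtain ⟨w', hw', e⟩ := LocB_surj hG hM hw
      exact ⟨⟨w', hw'⟩, Subtype.ext e⟩
    have hker : ∀ m, p m = 0 → ∃ l, Submodule.inclusion hle l = m := by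
      rintro ⟨w, m, v, hv, h⟩ h0
      refine ⟨⟨w, m, v, ?_, h⟩, rfl⟩
      rw [LinearMap.mem_ker, Matrix.mulVecLin_apply]
      funext i
      refine em_inj k n ?_
      rw [← LocB_apply M w v _ (fun j => (h j).2) i]
      have h1 : LocB_map M w = 0 := congrArg Subtype.val h0
      rw [h1, Pi.zero_apply, zero_mul, Pi.zero_apply, em_zero]
    have hzero : ∀ l, p (Submodule.inclusion hle l) = 0 := by
      rintro ⟨w, m, v, hv, h⟩
      refine Subtype.ext (funext fun i => ?_)
      refine mul_right_cancel₀ (LocB_pow_ne (k := k) (n := n) m) ?_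
      show LocB_map M w i * _ = 0 * _
      rw [LinearMap.mem_ker, Matrix.mulVecLin_apply] at hv
      rw [LocB_apply M w v _ (fun j => (h j).2) i, hv, Pi.zero_apply, em_zero, zero_mul]
    obtain ⟨e⟩ := LocB_split (Submodule.inclusion hle) p (Submodule.inclusion_injective hle) hsurj hker hzero hP
    obtain ⟨f⟩ := phi_top (k := k) (n := n) b
    have hproj : Module.Projective (A k n) (Phi (k := k) (n := n) b (LinearMap.ker M.mulVecLin)) := by
      have h1 : Module.Projective (A k n) (Tw k n fun i => (b i).2 - (b i).1) := tw_projective k n _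
      have h2 : Module.Projective (A k n) (Phi (k := k) (n := n) b (LinearMap.ker M.mulVecLin) × Phi a (LinearMap.range M.mulVecLin)) :=
        Module.Projective.of_equiv (e.trans f).symm
      exact Module.Projective.of_split (LinearMap.inl (A k n) (Phi (k := k) (n := n) b (LinearMap.ker M.mulVecLin)) (Phi a (LinearMap.range M.mulVecLin)))
        (LinearMap.fst (A k n) (Phi (k := k) (n := n) b (LinearMap.ker M.mulVecLin)) (Phi a (LinearMap.range M.mulVecLin))) (LinearMap.fst_comp_inl _ _ _)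
    obtain ⟨κ, κ', _, _, c, c', ⟨g⟩⟩ := ih hK hproj
    obtain ⟨s⟩ := tw_sum k n (fun i => (b i).2 - (b i).1) c
    refine ⟨κ', κ₀ ⊕ κ, inferInstance, inferInstance, c', Sum.elim (fun i => (b i).2 - (b i).1) c, ⟨?_⟩⟩
    -- `Phi a Z × Tw c' ≃ Phi a Z × (Phi b ker × Tw c) ≃ (Phi b ker × Phi a Z) × Tw c ≃ Tw b × Tw c`
    have t1 := (LinearEquiv.refl (A k n) (Phi a (LinearMap.range M.mulVecLin))).prodCongr g.symm
    have t2 := (LinearEquiv.prodAssoc (A k n) (Phi a (LinearMap.range M.mulVecLin)) (Phi (k := k) (n := n) b (LinearMap.ker M.mulVecLin)) (Tw k n c)).symm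
    have t3 := (((LinearEquiv.prodComm (A k n) (Phi a (LinearMap.range M.mulVecLin)) (Phi (k := k) (n := n) b (LinearMap.ker M.mulVecLin))).trans
      (e.trans f)).prodCongr (LinearEquiv.refl (A k n) (Tw k n c)))
    exact (t1.trans t2).trans (t3.trans s.symm)

end Pool.Agent.SR
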