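import Pool.Agent.SR.Defs

/-!
# SR LocD: the degree zero part of the localisation of a graded module
-/

set_option autoImplicit false

namespace Pool.Agent.SR

universe u v

variable {k : Type u} [Field k] {n : ℕ}

/-- the degree zero part of the localisation of `Z` at `q` -/
noncomputable def Phi {ι : Type} (a : ι → ℤ × ℤ) (Z : Submodule (T k n) (ι → T k n)) : Submodule (A k n) (ι → K k n) where
  carrier := {w | ∃ (m : ℕ) (u : ι → T k n), u ∈ Z ∧ ∀ i, Bi k n (m - (a i).1) (m - (a i).2) (u i) ∧ w i * em k n (q k n) ^ m = em k n (u i)}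
  zero_mem' := ⟨0, 0, Z.zero_mem, fun i => ⟨Bi.zero _ _, by simp⟩⟩
  add_mem' := by
    rintro w w' ⟨m, u, hu, hw⟩ ⟨m', u', hu', hw'⟩
    refine ⟨m + m', q k n ^ m' • u + q k n ^ m • u', Z.add_mem (Z.smul_mem _ hu) (Z.smul_mem _ hu'), fun i => ⟨Bi.add (Bi.cast ((Bi.qpow m').mul (hw i).1) (by push_cast; ring)
      (by push_cast; ring)) (Bi.cast ((Bi.qpow m).mul (hw' i).1) (by push_cast; ring) (by push_cast; ring)), ?_⟩⟩
    show (w i + w' i) * _ = em k n (q k n ^ m' * u i + q k n ^ m * u' i)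
    rw [em_add, em_mul, em_mul, em_pow, em_pow, ← (hw i).2, ← (hw' i).2]
    ring
  smul_mem' := by
    rintro c w ⟨m, u, hu, hw⟩
    obtain ⟨l, g, hg, hc⟩ := c.exists
    refine ⟨l + m, g • u, Z.smul_mem _ hu, fun i => ⟨Bi.cast (hg.mul (hw i).1) (by push_cast; ring) (by push_cast; ring), ?_⟩⟩
    rw [Pi.smul_apply, Pi.smul_apply, Algebra.smul_def, smul_eq_mul, em_mul, ← (hw i).2, ← hc]
    ring

end Pool.Agent.SR
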