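import Pool.Agent.SR.TwR
import Pool.Agent.SR.BunE
import Pool.Agent.SR.MvC

/-!
# SR Split: the kernel of a surjection of sums of line bundles on `U`

`R` the subring `{z | ∃ m g, z * q^m = g}` of `K k n` (or the localization of `T k n` at `q`, mapped to `K k n`), `φ p = ev p`; `∑ x_l (y_l / q) = 1`, so the `x_l` generate the unit ideal
of `R` and `D.All` says that `M` is surjective over `R`.  For `w ∈ Tw D.b` write `w = M u` with `u_i = g_i / q^m`, `m` large; then in `T k n`: `∑_i M_ji g_i = q^m w_j`, which is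
bihomogeneous of bidegree `(m + b_j, m)`; take the components of this bidegree (`exists_mv` gives the grading `Gr (ℤ × ℤ) (T k n)`, `Gr.π_mul`):
`g_i` may be replaced by its component of bidegree `(m + a_i, m)`.  So `M : Tw D.a → Tw D.b` is surjective with kernel `D.pull`, and it splits because `Tw D.b` is projective.
-/

set_option autoImplicit false

namespace Pool.Agent.SR

open MvPolynomial

universe u

variable {k : Type u} [Field k] {n : ℕ}

variable (k n)

/-- the subring of the quotients `g / q^m` of `K k n` -/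
private noncomputable def Split_R : Subring (K k n) where
  carrier := {z | ∃ (m : ℕ) (g : T k n), z * em k n (q k n) ^ m = em k n g}
  mul_mem' := by
    rintro a b ⟨m, g, hz⟩ ⟨l, h, hw⟩
    refine ⟨m + l, g * h, ?_⟩
    rw [em_mul, ← hz, ← hw]
    ring
  one_mem' := ⟨0, 1, by simp⟩
  add_mem' := by
    rintro a b ⟨m, g, hz⟩ ⟨l, h, hw⟩
    refine ⟨m + l, g * q k n ^ l + h * q k n ^ m, ?_⟩
    rw [em_add, em_mul, em_mul, em_pow, em_pow, ← hz, ← hw]
    ring
  zero_mem' := ⟨0, 0, by simp⟩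
  neg_mem' := by
    rintro a ⟨m, g, hz⟩
    exact ⟨m, -g, by rw [em_neg, ← hz]; ring⟩

/-- the evaluation as a ring homomorphism to `Split_R` -/
private noncomputable def Split_phi : MvPolynomial (Fin (n + 1)) k →+* Split_R k n :=
  RingHom.codRestrict ((algebraMap (T k n) (K k n)).comp (rename (Sum.inl : Fin (n + 1) → V n)).toRingHom) (Split_R k n)
    fun p => ⟨0, rename Sum.inl p, by rw [pow_zero, mul_one]; rfl⟩

private theorem Split_phi_coe (p : MvPolynomial (Fin (n + 1)) k) : (Split_phi k n p : K k n) = ev k n p := rfl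

private theorem Split_span : Ideal.span (Set.range fun i : Fin (n + 1) => Split_phi k n (X i)) = ⊤ := by
  rw [Ideal.eq_top_iff_one]
  have hy : ∀ l : Fin (n + 1), em k n (X (Sum.inr l)) / em k n (q k n) ∈ Split_R k n := fun l =>
    ⟨1, X (Sum.inr l), by rw [pow_one, div_mul_cancel₀ _ emq_ne_zero]⟩
  have h1 : (1 : Split_R k n) = ∑ l : Fin (n + 1), (⟨_, hy l⟩ : Split_R k n) * Split_phi k n (X l) := by
    apply Subtype.ext
    rw [AddSubmonoidClass.coe_finsetSum]
    have h2 : ∀ l : Fin (n + 1), (((⟨_, hy l⟩ : Split_R k n) * Split_phi k n (X l) : Split_R k n) : K k n)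
        = em k n (X (Sum.inl l)) * (em k n (X (Sum.inr l)) / em k n (q k n)) := by
      intro l
      have h3 : ((Split_phi k n (X l) : Split_R k n) : K k n) = em k n (X (Sum.inl l)) := by
        rw [Split_phi_coe, ev, rename_X]
      rw [Subring.coe_mul, h3, mul_comm]
    rw [Finset.sum_congr rfl fun l _ => h2 l, sum_xy]
    rfl
  rw [h1]
  exact Ideal.sum_mem _ fun l _ => Ideal.mul_mem_left _ _ (Ideal.subset_span ⟨l, rfl⟩)

variable {k n}

/-- a common exponent -/
private theorem Split_common {s : ℕ} (u : Fin s → Split_R k n) : ∃ m : ℕ, ∀ l : ℕ, m ≤ l → ∃ g : Fin s → T k n,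
    ∀ i, (u i : K k n) * em k n (q k n) ^ l = em k n (g i) := by
  choose m g h using fun i => (u i).2
  refine ⟨∑ i, m i, fun l hl => ⟨fun i => g i * q k n ^ (l - m i), fun i => ?_⟩⟩
  have h1 : m i ≤ l := (Finset.single_le_sum (fun _ _ => Nat.zero_le _) (Finset.mem_univ i)).trans hl
  rw [em_mul, em_pow, ← h i, mul_assoc, ← pow_add, Nat.add_sub_cancel' h1]

private theorem Split_common' {t : ℕ} {b : Fin t → ℤ} (w : Tw k n b) : ∃ m : ℕ, ∀ l : ℕ, m ≤ l → ∃ g : Fin t → T k n,
    (∀ j, Bi k n (l + b j) l (g j)) ∧ ∀ j, w.1 j * em k n (q k n) ^ l = em k n (g j) := by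
  choose m g hg h using w.2
  refine ⟨∑ j, m j, fun l hl => ⟨fun j => g j * q k n ^ (l - m j), fun j => ?_, fun j => ?_⟩⟩
  · have h1 : m j ≤ l := (Finset.single_le_sum (fun _ _ => Nat.zero_le _) (Finset.mem_univ j)).trans hl
    refine ((hg j).mul (Bi.qpow (l - m j))).cast ?_ ?_
    · rw [Nat.cast_sub h1]
      ring
    · rw [Nat.cast_sub h1]
      ring
  · have h1 : m j ≤ l := (Finset.single_le_sum (fun _ _ => Nat.zero_le _) (Finset.mem_univ j)).trans hl
    show w.1 j * em k n (q k n) ^ l = em k n (g j * q k n ^ (l - m j))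
    rw [em_mul, em_pow, ← h j, mul_assoc, ← pow_add, Nat.add_sub_cancel' h1]

/-- a form of degree `d` in the variables `x` has bidegree `(d, 0)` -/
private theorem Split_bi {d : ℕ} {p : MvPolynomial (Fin (n + 1)) k} (hp : p.IsHomogeneous d) : Bi k n d 0 (rename Sum.inl p) := by
  intro m hm
  obtain ⟨u, rfl, hu⟩ := coeff_rename_ne_zero Sum.inl p m hm
  have hd := hp hu
  rw [Finsupp.weight_apply, Finsupp.sum] at hd
  rw [Finsupp.weight_apply, Finsupp.sum_mapDomain_index (h := fun i c => c • wt n i) (fun _ => zero_smul _ _) (fun _ _ _ => add_smul _ _ _),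
    Finsupp.sum, ← hd]
  ext
  · rw [Prod.fst_sum]
    simp [wt]
  · rw [Prod.snd_sum]
    simp [wt]

private theorem Split_homM {G : Gr (ℤ × ℤ) (T k n)} (hG : ∀ γ p, p ∈ G.deg γ ↔ IsWeightedHomogeneous (wt n) p γ) (D : Bun k n) :
    HomM G (fun j => (-D.b j, (0 : ℤ))) (fun i => (-D.a i, (0 : ℤ))) (D.M.map (rename (Sum.inl : Fin (n + 1) → V n))) := by
  intro j i
  rw [hG, Matrix.map_apply]
  rcases D.hom j i with h | ⟨d, hd, h⟩
  · rw [h, map_zero]
    exact isWeightedHomogeneous_zero _ _ _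
  · have h1 := Split_bi h
    have h2 : ((-D.a i, (0 : ℤ)) : ℤ × ℤ) - (-D.b j, (0 : ℤ)) = ((d : ℤ), (0 : ℤ)) := by
      rw [Prod.mk_sub_mk, hd]
      congr 1
      ring
    rw [h2]
    exact h1

/-- the map of the matrix of `D` -/
private noncomputable def Split_F (D : Bun k n) : Tw k n D.a →ₗ[A k n] Tw k n D.b where
  toFun w := ⟨fun j => ∑ i, ev k n (D.M j i) * w.1 i, fun j => by
    refine Submodule.sum_mem _ fun i _ => ?_
    rcases D.hom j i with h | ⟨d, hd, h⟩
    · have h1 : ev k n (D.M j i) = 0 := by rw [h, ev, map_zero, em_zero]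
      rw [h1, zero_mul]
      exact Submodule.zero_mem _
    · have h1 := twist_mul (ev_mem h) (w.2 i)
      rw [hd, sub_add_cancel] at h1
      exact h1⟩
  map_add' w w' := by
    apply Subtype.ext
    funext j
    show ∑ i, ev k n (D.M j i) * (w.1 i + w'.1 i) = ∑ i, ev k n (D.M j i) * w.1 i + ∑ i, ev k n (D.M j i) * w'.1 i
    simp only [mul_add, Finset.sum_add_distrib]
  map_smul' a w := by
    apply Subtype.ext
    funext j
    show ∑ i, ev k n (D.M j i) * (a • w.1 i) = a • ∑ i, ev k n (D.M j i) * w.1 i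
    rw [Finset.smul_sum]
    refine Finset.sum_congr rfl fun i _ => ?_
    rw [mul_smul_comm]

private theorem Split_F_surj (D : Bun k n) (hD : D.All) : Function.Surjective (Split_F D) := by
  intro w
  obtain ⟨G, hG⟩ := exists_mv k (wt n)
  have hw : ∀ j, w.1 j ∈ Split_R k n := fun j => by
    obtain ⟨m, g, _, h⟩ := w.2 j
    exact ⟨m, g, h⟩
  obtain ⟨u, hu⟩ := hD (Split_R k n) (Split_phi k n) (Split_span k n) fun j => ⟨w.1 j, hw j⟩
  have hu' : ∀ j, ∑ i, ev k n (D.M j i) * (u i : K k n) = w.1 j := by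
    intro j
    have h1 := congrArg (Subtype.val) (congrFun hu j)
    rw [Matrix.mulVec, dotProduct, AddSubmonoidClass.coe_finsetSum] at h1
    exact h1
  obtain ⟨m₁, h₁⟩ := Split_common u
  obtain ⟨m₂, h₂⟩ := Split_common' w
  set m := m₁ + m₂ with hm
  obtain ⟨g, hg⟩ := h₁ m (by omega)
  obtain ⟨h, hh, hh'⟩ := h₂ m (by omega)
  set M' : Matrix (Fin D.t) (Fin D.s) (T k n) := D.M.map (rename (Sum.inl : Fin (n + 1) → V n)) with hM'
  have h3 : M'.mulVec g = h := by
    funext j
    apply em_inj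
    rw [Matrix.mulVec, dotProduct, em_sum, ← hh' j, ← hu' j, Finset.sum_mul]
    refine Finset.sum_congr rfl fun i _ => ?_
    rw [em_mul, ← hg i, mul_assoc]
    rfl
  have h4 := HomM.cmp G (Split_homM hG D) ((m : ℤ), (m : ℤ)) g
  rw [← hM', h3] at h4
  set g' := cmp G (fun i => (-D.a i, (0 : ℤ))) ((m : ℤ), (m : ℤ)) g with hg'
  have h5 : cmp G (fun j => (-D.b j, (0 : ℤ))) ((m : ℤ), (m : ℤ)) h = h := by
    funext j
    refine G.π_self _ _ ?_
    rw [hG]
    have h6 : (((m : ℤ), (m : ℤ)) : ℤ × ℤ) - (-D.b j, (0 : ℤ)) = ((m : ℤ) + D.b j, (m : ℤ)) := by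
      rw [Prod.mk_sub_mk]
      congr 1; ring
    rw [h6]
    exact hh j
  rw [h5] at h4
  have h7 : ∀ i, Bi k n (m + D.a i) m (g' i) := by
    intro i
    have h8 := G.π_mem (((m : ℤ), (m : ℤ)) - (-D.a i, (0 : ℤ))) (g i)
    rw [hG] at h8
    have h6 : (((m : ℤ), (m : ℤ)) : ℤ × ℤ) - (-D.a i, (0 : ℤ)) = ((m : ℤ) + D.a i, (m : ℤ)) := by
      rw [Prod.mk_sub_mk]
      congr 1; ring
    rw [h6] at h8
    have h9 : g' i = G.π ((m : ℤ) + D.a i, (m : ℤ)) (g i) := by
      rw [← h6]
      rfl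
    rw [h9]
    exact h8
  have hq : em k n (q k n) ^ m ≠ 0 := pow_ne_zero _ emq_ne_zero
  refine ⟨⟨fun i => em k n (g' i) / em k n (q k n) ^ m, fun i => ⟨m, g' i, h7 i, div_mul_cancel₀ _ hq⟩⟩, ?_⟩
  apply Subtype.ext
  funext j
  show ∑ i, ev k n (D.M j i) * (em k n (g' i) / em k n (q k n) ^ m) = w.1 j
  rw [← mul_left_inj' hq, hh' j, Finset.sum_mul, h4, Matrix.mulVec, dotProduct, em_sum]
  refine Finset.sum_congr rfl fun i _ => ?_
  rw [mul_assoc, div_mul_cancel₀ _ hq, em_mul]
  rfl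

/-- the inclusion of the kernel -/
private noncomputable def Split_i (D : Bun k n) : D.pull →ₗ[A k n] Tw k n D.a where
  toFun w := ⟨w.1, w.2.1⟩
  map_add' _ _ := rfl
  map_smul' _ _ := rfl

private theorem Split_exact (D : Bun k n) : Function.Exact (Split_i D) (Split_F D) := by
  intro w
  constructor
  · intro h
    refine ⟨⟨w.1, w.2, fun j => ?_⟩, rfl⟩
    exact congrFun (congrArg Subtype.val h) j
  · rintro ⟨v, rfl⟩
    apply Subtype.ext
    funext j
    exact v.2.2 j

theorem split (D : Bun k n) (hD : D.All) : Nonempty ((D.pull × Tw k n D.b) ≃ₗ[A k n] Tw k n D.a) := by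
  have := tw_projective k n D.b
  obtain ⟨s, hs⟩ := Module.projective_lifting_property (Split_F D) LinearMap.id (Split_F_surj D hD)
  have hi : Function.Injective (Split_i D) := fun v v' h => Subtype.ext (congrArg (fun z : Tw k n D.a => z.1) h)
  exact ⟨((Split_exact D).splitSurjectiveEquiv hi ⟨s, hs⟩).1.symm⟩

end Pool.Agent.SR
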