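import Pool.Agent.SR.Loc
import Pool.Agent.SR.Split
import Pool.Agent.SR.Kos
import Pool.Agent.SR.Bass
import Pool.Agent.SR.DimA
import Pool.Agent.SR.DimB
import Pool.Agent.SR.DimC

/-!
# SR Main: bundles of rank `> 2 n` on `U` are pull-backs
-/

set_option autoImplicit false

namespace Pool.Agent.SR

universe u v

variable {k : Type u} [Field k] {n : ℕ}

theorem main (E : Type v) [AddCommGroup E] [Module (A k n) E] [Module.Finite (A k n) E] [Module.Projective (A k n) E]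
    (hE : ∀ p : PrimeSpectrum (A k n), 2 * n + 1 ≤ Module.rankAtStalk E p) : ∃ D : Bun k n, Nonempty (E ≃ₗ[A k n] D.pull) := by
  haveI := noeth k n
  obtain ⟨δ, hδ, hd⟩ := dimfun (krull k n)
  obtain ⟨κ₁, κ₂, _, _, c₁, c₂, ⟨e₁⟩⟩ := exists_stable (k := k) (n := n) E
  haveI := tw_finite k n c₁
  haveI := tw_projective k n c₁
  obtain ⟨p⟩ := nonempty_spec (k := k) (n := n)
  have hr : Module.rankAtStalk E p + Fintype.card κ₁ = Fintype.card κ₂ := by
    have h1 := congrFun (Module.rankAtStalk_eq_of_equiv e₁) p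
    rw [Module.rankAtStalk_prod, Pi.add_apply, tw_rank, tw_rank] at h1
    exact h1
  set r : ℕ := Module.rankAtStalk E p with hr_def
  have hr1 : n + 1 ≤ r := by
    have := hE p
    omega
  have hζ : (cls c₂ - cls c₁) - (r : LaurentPolynomial ℤ) ∈ Ideal.span {(1 - LaurentPolynomial.T 1 : LaurentPolynomial ℤ)} := by
    have h1 := Ideal.sub_mem _ (cls_rank c₂) (cls_rank c₁)
    have h2 : (Fintype.card κ₂ : LaurentPolynomial ℤ) = (r : LaurentPolynomial ℤ) + (Fintype.card κ₁ : LaurentPolynomial ℤ) := by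
      rw [← hr]
      push_cast
      ring
    have h3 : (cls c₂ - cls c₁) - (r : LaurentPolynomial ℤ) = cls c₂ - (Fintype.card κ₂ : LaurentPolynomial ℤ) - (cls c₁ - (Fintype.card κ₁ : LaurentPolynomial ℤ)) := by
      rw [h2]
      ring
    rw [h3]
    exact h1
  obtain ⟨D, hD, hcls⟩ := exists_bun k n r hr1 _ hζ
  obtain ⟨e₂⟩ := split D hD
  have h4 : cls (Sum.elim D.a c₁) - cls (Sum.elim D.b c₂) ∈ Ideal.span {(1 - LaurentPolynomial.T 1 : LaurentPolynomial ℤ) ^ (n + 1)} := by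
    rw [cls_sum, cls_sum]
    have h5 : cls D.a + cls c₁ - (cls D.b + cls c₂) = cls D.a - cls D.b - (cls c₂ - cls c₁) := by ring
    rw [h5]
    exact hcls
  obtain ⟨μ, _, e, ⟨e₃⟩⟩ := stab k n _ _ h4
  haveI := tw_finite k n D.b
  haveI := tw_projective k n D.b
  haveI := tw_finite k n e
  haveI := tw_projective k n e
  obtain ⟨s₁⟩ := tw_sum k n D.a c₁
  obtain ⟨s₂⟩ := tw_sum k n D.b c₂
  obtain ⟨s₃⟩ := tw_sum k n (Sum.elim D.a c₁) e
  obtain ⟨s₄⟩ := tw_sum k n (Sum.elim D.b c₂) e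
  -- `pull x (Tw b x (Tw c₁ x Tw e))`
  let f₁ : (D.pull × (Tw k n D.b × (Tw k n c₁ × Tw k n e))) ≃ₗ[A k n] Tw k n (Sum.elim (Sum.elim D.a c₁) e) :=
    (LinearEquiv.prodAssoc (A k n) D.pull (Tw k n D.b) (Tw k n c₁ × Tw k n e)).symm.trans <|
      (e₂.prodCongr (LinearEquiv.refl _ _)).trans <| (LinearEquiv.prodAssoc (A k n) (Tw k n D.a) (Tw k n c₁) (Tw k n e)).symm.trans <|
        (s₁.symm.prodCongr (LinearEquiv.refl _ _)).trans s₃.symm
  let f₂ : (E × (Tw k n D.b × (Tw k n c₁ × Tw k n e))) ≃ₗ[A k n] Tw k n (Sum.elim (Sum.elim D.b c₂) e) :=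
    ((LinearEquiv.refl (A k n) E).prodCongr (LinearEquiv.prodAssoc (A k n) (Tw k n D.b) (Tw k n c₁) (Tw k n e)).symm).trans <|
      ((LinearEquiv.refl (A k n) E).prodCongr ((LinearEquiv.prodComm (A k n) (Tw k n D.b) (Tw k n c₁)).prodCongr (LinearEquiv.refl _ _))).trans <|
        (LinearEquiv.prodAssoc (A k n) E (Tw k n c₁ × Tw k n D.b) (Tw k n e)).symm.trans <|
          ((LinearEquiv.prodAssoc (A k n) E (Tw k n c₁) (Tw k n D.b)).symm.prodCongr (LinearEquiv.refl _ _)).trans <|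
            ((e₁.prodCongr (LinearEquiv.refl _ _)).prodCongr (LinearEquiv.refl _ _)).trans <|
              ((LinearEquiv.prodComm (A k n) (Tw k n c₂) (Tw k n D.b)).prodCongr (LinearEquiv.refl _ _)).trans <|
                (s₂.symm.prodCongr (LinearEquiv.refl _ _)).trans s₄.symm
  exact ⟨D, bass hδ hd hE (f₁.trans (e₃.trans f₂.symm))⟩

end Pool.Agent.SR
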