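import Pool.Agent.SR.Gr

/-!
# SR PolyE: base change of resolutions to `S[X]`

`ffr_ext`: `extZ Z` are the vectors of polynomials all of whose coefficient vectors are in `Z`; `range (M.map C) = extZ (range M)`, `ker (M.map C) = extZ (ker M)`.
-/

set_option autoImplicit false

namespace Pool.Agent.SR

universe u

variable {Γ : Type} [AddCommGroup Γ] {S : Type u} [CommRing S]

open Polynomial

/-- the vectors of polynomials all of whose coefficient vectors are in `Z` -/
def extZ {ι : Type} (Z : Submodule S (ι → S)) : Submodule S[X] (ι → S[X]) where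
  carrier := {c | ∀ e : ℕ, (fun i => (c i).coeff e) ∈ Z}
  zero_mem' := fun e => by
    have h : (fun i : ι => ((0 : ι → S[X]) i).coeff e) = 0 := by
      funext i
      simp
    rw [h]
    exact Z.zero_mem
  add_mem' := fun {c c'} h h' e => by
    have h1 : (fun i : ι => ((c + c') i).coeff e) = (fun i => (c i).coeff e) + fun i => (c' i).coeff e := by
      funext i
      simp
    rw [h1]
    exact Z.add_mem (h e) (h' e)
  smul_mem' := fun p c h e => by
    have h1 : (fun i : ι => ((p • c) i).coeff e) = ∑ x ∈ Finset.HasAntidiagonal.antidiagonal e, p.coeff x.1 • fun i => (c i).coeff x.2 := by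
      funext i
      rw [Finset.sum_apply, Pi.smul_apply, smul_eq_mul, coeff_mul]
      rfl
    rw [h1]
    exact Z.sum_mem fun x _ => Z.smul_mem _ (h x.2)

private theorem PolyE_coeff {ι κ : Type} [Fintype κ] (M : Matrix ι κ S) (c : κ → S[X]) (e : ℕ) (i : ι) :
    ((M.map C).mulVec c i).coeff e = M.mulVec (fun j => (c j).coeff e) i := by
  show (∑ j, C (M i j) * c j).coeff e = ∑ j, M i j * (c j).coeff e
  rw [finsetSum_coeff]
  exact Finset.sum_congr rfl fun j _ => coeff_C_mul _

private theorem PolyE_ker {ι κ : Type} [Fintype κ] (M : Matrix ι κ S) :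
    LinearMap.ker (M.map C).mulVecLin = extZ (LinearMap.ker M.mulVecLin) := by
  ext c
  constructor
  · intro h e
    rw [LinearMap.mem_ker, Matrix.mulVecLin_apply] at h ⊢
    funext i
    rw [← PolyE_coeff, h]
    simp
  · intro h
    rw [LinearMap.mem_ker, Matrix.mulVecLin_apply]
    funext i
    ext e
    have h1 := h e
    rw [LinearMap.mem_ker, Matrix.mulVecLin_apply] at h1
    rw [PolyE_coeff, h1]
    simp

private theorem PolyE_range {ι κ : Type} [Fintype ι] [Fintype κ] (M : Matrix ι κ S) :
    LinearMap.range (M.map C).mulVecLin = extZ (LinearMap.range M.mulVecLin) := by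
  ext w
  constructor
  · rintro ⟨c, rfl⟩ e
    refine ⟨fun j => (c j).coeff e, ?_⟩
    rw [Matrix.mulVecLin_apply]
    funext i
    rw [← PolyE_coeff]
    rfl
  · intro h
    choose u hu using h
    have hD : ∀ i, (w i).natDegree ≤ ∑ j, (w j).natDegree := fun i => Finset.single_le_sum (f := fun j => (w j).natDegree) (fun _ _ => Nat.zero_le _) (Finset.mem_univ i)
    refine ⟨fun j => ∑ e ∈ Finset.range ((∑ j, (w j).natDegree) + 1), monomial e (u e j), ?_⟩
    rw [Matrix.mulVecLin_apply]
    funext i
    ext e
    rw [PolyE_coeff]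
    have h1 : (fun j => (∑ e ∈ Finset.range ((∑ j, (w j).natDegree) + 1), monomial e (u e j)).coeff e) = if e ∈ Finset.range ((∑ j, (w j).natDegree) + 1) then u e else 0 := by
      funext j
      rw [finsetSum_coeff]
      simp only [coeff_monomial]
      rw [Finset.sum_ite_eq']
      split_ifs <;> rfl
    rw [h1]
    split_ifs with h2
    · exact congrFun (hu e) i
    · rw [Matrix.mulVec_zero]
      have h3 : (w i).natDegree < e := by
        have h4 := hD i
        rw [Finset.mem_range] at h2
        omega
      rw [coeff_eq_zero_of_natDegree_lt h3]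
      rfl

theorem ffr_ext {G : Gr Γ S} {G' : Gr Γ S[X]} (hG : ∀ γ s, s ∈ G.deg γ → C s ∈ G'.deg γ) (l : ℕ) : ∀ {ι : Type} [Fintype ι] {a : ι → Γ} {Z : Submodule S (ι → S)},
    FFR G l ι a Z → FFR G' l ι a (extZ Z) := by
  induction l with
  | zero =>
    intro ι _ a Z h
    have h1 : Z = ⊥ := h
    show extZ Z = ⊥
    rw [h1, Submodule.eq_bot_iff]
    intro c hc
    funext i
    ext e
    have h2 := (Submodule.mem_bot S).1 (hc e)
    simpa using congrFun h2 i
  | succ l ih =>
    rintro ι _ a Z ⟨κ, _, b, M, hM, hr, hk⟩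
    refine ⟨κ, inferInstance, b, M.map C, fun i j => hG _ _ (hM i j), ?_, ?_⟩
    · rw [PolyE_range, hr]
    · rw [PolyE_ker]
      exact ih hk

end Pool.Agent.SR
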