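import Pool.Agent.SR.ConeB
import Pool.Agent.SR.PolyE

/-!
# SR Poly: graded syzygies over `S[X]`

`Z` a graded submodule of `ι → S[X]` with the degrees `a`.  For `D : ℕ` let `Z_D` be the submodule of `ι × Fin (D + 1) → S` of the coefficient vectors of the elements of `Z` of degree `≤ D`
(`c ∈ Z_D` iff `fun i => ∑ j, C (c (i, j)) * X ^ j` is in `Z`), with the degrees `a i + j • δ` (or `a i + (j + 1) • δ` for `Z'` below); it is graded.
The submodules of leading coefficients (the coefficient vectors of `X ^ d` of the elements of `Z` of degree `≤ d`) increase with `d`, so they are constant for `d ≥ D + 1`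
(`S` is noetherian) and every element of `Z` of degree `≤ d + 1` is of the form `z + X z'` with `z, z' ∈ Z` of degree `≤ d` for all `d ≥ D + 1`.
Use `cone` over `S[X]` for `Z' = extZ Z_D`, `Z'' = extZ Z_(D+1)`, `P c i = ∑ j, X ^ j * c (i, j)` and `(Q c) (i, j) = c (i, j - 1) - X c (i, j)` (the terms with `j - 1`, `j` in `0..D`):
`Q` is injective; `Z'' ∩ ker P ⊆ Q Z'` by induction on the degree `e` of `c`: if `P c = 0` the top coefficient vector `z` of `c` (at `X ^ e`, `e ≥ 1`) has `z (i, D + 1) = 0`, so it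
comes from `z' ∈ Z_D`, and `c + Q (X ^ (e - 1) z')` has smaller degree.
-/

set_option autoImplicit false

namespace Pool.Agent.SR

universe u

variable {Γ : Type} [AddCommGroup Γ] {S : Type u} [CommRing S]

open Polynomial

/-- the component of a monomial -/
private theorem Poly_pi {G : Gr Γ S} {δ : Γ} {G' : Gr Γ S[X]} (hG' : ∀ γ p, p ∈ G'.deg γ ↔ ∀ i : ℕ, p.coeff i ∈ G.deg (γ - i • δ)) (γ : Γ) (j : ℕ) (s : S) :
    G'.π γ (X ^ j * C s) = X ^ j * C (G.π (γ - j • δ) s) := by
  classical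
  have h0 : ∀ η, X ^ j * C (G.π η s) ∈ G'.deg (η + j • δ) := by
    intro η
    rw [hG']
    intro i
    rw [coeff_X_pow_mul']
    split_ifs with h1
    · rw [coeff_C]
      split_ifs with h2
      · have h3 : i = j := by omega
        subst h3
        rw [add_sub_cancel_right]
        exact G.π_mem _ _
      · exact AddSubgroup.zero_mem _
    · exact AddSubgroup.zero_mem _
  obtain ⟨F, hF, hs⟩ := G.fin s
  have h1 : G'.π γ (X ^ j * C s) = ∑ η ∈ F, G'.π γ (X ^ j * C (G.π η s)) := by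
    conv_lhs => rw [hs, map_sum, Finset.mul_sum]
    rw [map_sum]
  have h2 : ∀ η, G'.π γ (X ^ j * C (G.π η s)) = if η = γ - j • δ then X ^ j * C (G.π η s) else 0 := by
    intro η
    rw [Gr.π_ite (h0 η)]
    refine if_congr ?_ rfl rfl
    constructor
    · rintro rfl
      abel
    · rintro rfl
      abel
  rw [h1, Finset.sum_congr rfl fun η _ => h2 η, Finset.sum_ite_eq']
  split_ifs with h3
  · rfl
  · rw [hF _ h3, map_zero, mul_zero]

/-- the vector of polynomials with the coefficients `c` -/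
private noncomputable def Poly_P {ι : Type} (D : ℕ) : (ι × Fin (D + 1) → S[X]) →ₗ[S[X]] (ι → S[X]) where
  toFun c := fun i => ∑ j : Fin (D + 1), X ^ (j : ℕ) * c (i, j)
  map_add' c c' := by
    funext i
    rw [Pi.add_apply, ← Finset.sum_add_distrib]
    exact Finset.sum_congr rfl fun j _ => mul_add _ _ _
  map_smul' p c := by
    funext i
    rw [Pi.smul_apply, RingHom.id_apply, smul_eq_mul, Finset.mul_sum]
    exact Finset.sum_congr rfl fun j _ => by
      rw [Pi.smul_apply, smul_eq_mul]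
      ring

private theorem Poly_P_apply {ι : Type} (D : ℕ) (c : ι × Fin (D + 1) → S[X]) (i : ι) : Poly_P D c i = ∑ j : Fin (D + 1), X ^ (j : ℕ) * c (i, j) := rfl

private theorem Poly_P_C {ι : Type} (D : ℕ) (w : ι × Fin (D + 1) → S) (i : ι) (k : ℕ) :
    (Poly_P D (fun x => C (w x)) i).coeff k = if h : k < D + 1 then w (i, ⟨k, h⟩) else 0 := by
  rw [Poly_P_apply, finsetSum_coeff]
  have h0 : ∀ j : Fin (D + 1), (X ^ (j : ℕ) * C (w (i, j))).coeff k = if (j : ℕ) = k then w (i, j) else 0 := by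
    intro j
    rw [coeff_X_pow_mul']
    by_cases h1 : (j : ℕ) = k
    · rw [if_pos h1, if_pos h1.le, h1, Nat.sub_self, coeff_C_zero]
    · rw [if_neg h1]
      split_ifs with h2
      · exact coeff_C_of_ne_zero (by omega)
      · rfl
  rw [Finset.sum_congr rfl fun j _ => h0 j]
  split_ifs with h
  · rw [Fintype.sum_eq_single ⟨k, h⟩]
    · exact if_pos rfl
    · intro j hj
      exact if_neg fun h1 => hj (Fin.ext h1)
  · refine Finset.sum_eq_zero fun j _ => if_neg ?_
    omega

/-- the coefficient vectors of the elements of degree `≤ D` of `Z` -/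
private noncomputable def Poly_Z {ι : Type} (Z : Submodule S[X] (ι → S[X])) (D : ℕ) : Submodule S (ι × Fin (D + 1) → S) where
  carrier := {w | Poly_P D (fun x => C (w x)) ∈ Z}
  zero_mem' := by
    have h : (fun x : ι × Fin (D + 1) => C ((0 : ι × Fin (D + 1) → S) x)) = 0 := by
      funext x
      exact map_zero _
    show Poly_P D (fun x : ι × Fin (D + 1) => C ((0 : ι × Fin (D + 1) → S) x)) ∈ Z
    rw [h, map_zero]
    exact Z.zero_mem
  add_mem' := fun {w w'} h h' => by
    have h1 : (fun x => C ((w + w') x)) = (fun x => C (w x)) + fun x => C (w' x) := by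
      funext x
      exact map_add _ _ _
    show Poly_P D (fun x => C ((w + w') x)) ∈ Z
    rw [h1, map_add]
    exact Z.add_mem h h'
  smul_mem' := fun s w h => by
    have h1 : (fun x => C ((s • w) x)) = (C s : S[X]) • fun x => C (w x) := by
      funext x
      exact map_mul _ _ _
    show Poly_P D (fun x => C ((s • w) x)) ∈ Z
    rw [h1, map_smul]
    exact Z.smul_mem _ h

private theorem Poly_mem_Z {ι : Type} {Z : Submodule S[X] (ι → S[X])} {D : ℕ} {w : ι × Fin (D + 1) → S} : w ∈ Poly_Z Z D ↔ Poly_P D (fun x => C (w x)) ∈ Z := Iff.rfl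

/-- `Z_D` is graded -/
private theorem Poly_gsub {G : Gr Γ S} {δ : Γ} {G' : Gr Γ S[X]} (hG' : ∀ γ p, p ∈ G'.deg γ ↔ ∀ i : ℕ, p.coeff i ∈ G.deg (γ - i • δ))
    {ι : Type} {a : ι → Γ} {Z : Submodule S[X] (ι → S[X])} (hZ : Gsub G' a Z) (D : ℕ) : Gsub G (fun x : ι × Fin (D + 1) => a x.1 + (x.2 : ℕ) • δ) (Poly_Z Z D) := by
  intro w hw γ
  have h1 : Poly_P D (fun x => C (cmp G (fun x : ι × Fin (D + 1) => a x.1 + (x.2 : ℕ) • δ) γ w x)) = cmp G' a γ (Poly_P D (fun x => C (w x))) := by
    funext i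
    show ∑ j : Fin (D + 1), X ^ (j : ℕ) * C (G.π (γ - (a i + (j : ℕ) • δ)) (w (i, j))) = G'.π (γ - a i) (∑ j : Fin (D + 1), X ^ (j : ℕ) * C (w (i, j)))
    rw [map_sum]
    refine Finset.sum_congr rfl fun j _ => ?_
    rw [Poly_pi hG', sub_sub]
  rw [Poly_mem_Z, h1]
  exact hZ _ hw γ

/-- `Z_D` is graded, with the degrees shifted -/
private theorem Poly_gsub' {G : Gr Γ S} {δ : Γ} {G' : Gr Γ S[X]} (hG' : ∀ γ p, p ∈ G'.deg γ ↔ ∀ i : ℕ, p.coeff i ∈ G.deg (γ - i • δ))
    {ι : Type} {a : ι → Γ} {Z : Submodule S[X] (ι → S[X])} (hZ : Gsub G' a Z) (D : ℕ) : Gsub G (fun x : ι × Fin (D + 1) => a x.1 + ((x.2 : ℕ) + 1) • δ) (Poly_Z Z D) := by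
  intro w hw γ
  have h1 : cmp G (fun x : ι × Fin (D + 1) => a x.1 + ((x.2 : ℕ) + 1) • δ) γ w = cmp G (fun x : ι × Fin (D + 1) => a x.1 + (x.2 : ℕ) • δ) (γ - δ) w := by
    funext x
    show G.π (γ - (a x.1 + ((x.2 : ℕ) + 1) • δ)) (w x) = G.π (γ - δ - (a x.1 + (x.2 : ℕ) • δ)) (w x)
    rw [add_smul, one_smul]
    congr 2
    abel
  rw [h1]
  exact Poly_gsub hG' hZ D w hw _

/-- multiplication by `X` -/
private def Poly_up {R : Type u} [Zero R] {ι : Type} {D : ℕ} (c : ι × Fin (D + 1) → R) : ι × Fin (D + 2) → R :=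
  fun x => Fin.cases (motive := fun _ => R) 0 (fun j => c (x.1, j)) x.2

/-- the inclusion -/
private def Poly_inc {R : Type u} [Zero R] {ι : Type} {D : ℕ} (c : ι × Fin (D + 1) → R) : ι × Fin (D + 2) → R :=
  fun x => Fin.lastCases (motive := fun _ => R) 0 (fun j => c (x.1, j)) x.2

private theorem Poly_up_zero {R : Type u} [Zero R] {ι : Type} {D : ℕ} (c : ι × Fin (D + 1) → R) (i : ι) : Poly_up c (i, 0) = 0 := rfl

private theorem Poly_up_succ {R : Type u} [Zero R] {ι : Type} {D : ℕ} (c : ι × Fin (D + 1) → R) (i : ι) (j : Fin (D + 1)) : Poly_up c (i, j.succ) = c (i, j) := rfl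

private theorem Poly_inc_last {R : Type u} [Zero R] {ι : Type} {D : ℕ} (c : ι × Fin (D + 1) → R) (i : ι) : Poly_inc c (i, Fin.last (D + 1)) = 0 :=
  Fin.lastCases_last

private theorem Poly_inc_castSucc {R : Type u} [Zero R] {ι : Type} {D : ℕ} (c : ι × Fin (D + 1) → R) (i : ι) (j : Fin (D + 1)) : Poly_inc c (i, j.castSucc) = c (i, j) :=
  Fin.lastCases_castSucc _

private theorem Poly_up_sum {R : Type u} [AddCommMonoid R] {ι : Type} {D : ℕ} (c : ι × Fin (D + 1) → R) (i : ι) (j : Fin (D + 2)) :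
    ∑ j' : Fin (D + 1), (if j = j'.succ then c (i, j') else 0) = Poly_up c (i, j) := by
  induction j using Fin.cases with
  | zero =>
    rw [Poly_up_zero]
    exact Finset.sum_eq_zero fun j' _ => if_neg (Fin.succ_ne_zero j').symm
  | succ j =>
    rw [Poly_up_succ, Fintype.sum_eq_single j]
    · exact if_pos rfl
    · intro j' h
      exact if_neg fun h1 => h (Fin.succ_injective _ h1).symm

private theorem Poly_inc_sum {R : Type u} [AddCommMonoid R] {ι : Type} {D : ℕ} (c : ι × Fin (D + 1) → R) (i : ι) (j : Fin (D + 2)) :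
    ∑ j' : Fin (D + 1), (if j = j'.castSucc then c (i, j') else 0) = Poly_inc c (i, j) := by
  induction j using Fin.lastCases with
  | last =>
    rw [Poly_inc_last]
    exact Finset.sum_eq_zero fun j' _ => if_neg (Fin.castSucc_lt_last j').ne'
  | cast j =>
    rw [Poly_inc_castSucc, Fintype.sum_eq_single j]
    · exact if_pos rfl
    · intro j' h
      exact if_neg fun h1 => h (Fin.castSucc_injective _ h1).symm

private theorem Poly_up_map {R R' : Type u} [Zero R] [Zero R'] (f : R → R') (hf : f 0 = 0) {ι : Type} {D : ℕ} (c : ι × Fin (D + 1) → R) :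
    (fun x => f (Poly_up c x)) = Poly_up fun x => f (c x) := by
  funext x
  obtain ⟨i, j⟩ := x
  induction j using Fin.cases with
  | zero => exact hf
  | succ j => rfl

private theorem Poly_inc_map {R R' : Type u} [Zero R] [Zero R'] (f : R → R') (hf : f 0 = 0) {ι : Type} {D : ℕ} (c : ι × Fin (D + 1) → R) :
    (fun x => f (Poly_inc c x)) = Poly_inc fun x => f (c x) := by
  funext x
  obtain ⟨i, j⟩ := x
  induction j using Fin.lastCases with
  | last =>
    show f (Poly_inc c (i, Fin.last (D + 1))) = _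
    rw [Poly_inc_last, Poly_inc_last, hf]
  | cast j =>
    show f (Poly_inc c (i, j.castSucc)) = _
    rw [Poly_inc_castSucc, Poly_inc_castSucc]

private theorem Poly_P_up {ι : Type} (D : ℕ) (c : ι × Fin (D + 1) → S[X]) : Poly_P (D + 1) (Poly_up c) = (X : S[X]) • Poly_P D c := by
  funext i
  rw [Poly_P_apply, Fin.sum_univ_succ, Poly_up_zero, mul_zero, zero_add, Pi.smul_apply, smul_eq_mul, Poly_P_apply, Finset.mul_sum]
  refine Finset.sum_congr rfl fun j _ => ?_
  rw [Poly_up_succ, Fin.val_succ, pow_succ']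
  ring

private theorem Poly_P_inc {ι : Type} (D : ℕ) (c : ι × Fin (D + 1) → S[X]) : Poly_P (D + 1) (Poly_inc c) = Poly_P D c := by
  funext i
  rw [Poly_P_apply, Fin.sum_univ_castSucc, Poly_inc_last, mul_zero, add_zero, Poly_P_apply]
  refine Finset.sum_congr rfl fun j _ => ?_
  rw [Poly_inc_castSucc]
  rfl

private theorem Poly_Z_up {ι : Type} {Z : Submodule S[X] (ι → S[X])} {D : ℕ} {w : ι × Fin (D + 1) → S} (h : w ∈ Poly_Z Z D) : Poly_up w ∈ Poly_Z Z (D + 1) := by
  rw [Poly_mem_Z, Poly_up_map (fun s => C s) (map_zero _), Poly_P_up]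
  exact Z.smul_mem _ h

private theorem Poly_Z_inc {ι : Type} {Z : Submodule S[X] (ι → S[X])} {D : ℕ} {w : ι × Fin (D + 1) → S} : Poly_inc w ∈ Poly_Z Z (D + 1) ↔ w ∈ Poly_Z Z D := by
  rw [Poly_mem_Z, Poly_inc_map (fun s => C s) (map_zero _), Poly_P_inc]
  rfl

/-- the matrix of `P` -/
private noncomputable def Poly_MP (ι : Type) [DecidableEq ι] (D : ℕ) : Matrix ι (ι × Fin (D + 1)) S[X] := fun i x => if x.1 = i then X ^ (x.2 : ℕ) else 0

private theorem Poly_MP_mulVec {ι : Type} [DecidableEq ι] [Fintype ι] (D : ℕ) (c : ι × Fin (D + 1) → S[X]) : (Poly_MP ι D).mulVec c = Poly_P D c := by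
  funext i
  show ∑ x : ι × Fin (D + 1), (if x.1 = i then X ^ (x.2 : ℕ) else 0) * c x = _
  rw [Fintype.sum_prod_type, Fintype.sum_eq_single i]
  · rw [Poly_P_apply]
    refine Finset.sum_congr rfl fun j _ => ?_
    rw [if_pos rfl]
  · intro i' h
    refine Finset.sum_eq_zero fun j _ => ?_
    rw [if_neg h, zero_mul]

/-- the matrix of `Q` -/
private noncomputable def Poly_MQ (ι : Type) [DecidableEq ι] (D : ℕ) : Matrix (ι × Fin (D + 2)) (ι × Fin (D + 1)) S[X] :=
  fun x y => if y.1 = x.1 then (if x.2 = y.2.succ then 1 else 0) - (if x.2 = y.2.castSucc then X else 0) else 0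

private theorem Poly_MQ_mulVec {ι : Type} [DecidableEq ι] [Fintype ι] (D : ℕ) (c : ι × Fin (D + 1) → S[X]) :
    (Poly_MQ ι D).mulVec c = Poly_up c - (X : S[X]) • Poly_inc c := by
  funext x
  obtain ⟨i, j⟩ := x
  show ∑ y : ι × Fin (D + 1), (if y.1 = i then (if j = y.2.succ then 1 else 0) - (if j = y.2.castSucc then X else 0) else 0) * c y = Poly_up c (i, j) - X * Poly_inc c (i, j)
  rw [Fintype.sum_prod_type, Fintype.sum_eq_single i]
  · rw [← Poly_up_sum, ← Poly_inc_sum, Finset.mul_sum, ← Finset.sum_sub_distrib]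
    refine Finset.sum_congr rfl fun j' _ => ?_
    rw [if_pos rfl]
    show ((if j = j'.succ then 1 else 0) - (if j = j'.castSucc then X else 0)) * c (i, j') = _
    split_ifs <;> ring
  · intro i' h
    refine Finset.sum_eq_zero fun j _ => ?_
    rw [if_neg h, zero_mul]

private theorem Poly_X_mem {G : Gr Γ S} {δ : Γ} {G' : Gr Γ S[X]} (hG' : ∀ γ p, p ∈ G'.deg γ ↔ ∀ i : ℕ, p.coeff i ∈ G.deg (γ - i • δ)) (j : ℕ) :
    (X ^ j : S[X]) ∈ G'.deg (j • δ) := by
  rw [hG']
  intro i
  rw [coeff_X_pow]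
  split_ifs with h
  · rw [h, sub_self]
    exact G.one_mem
  · exact AddSubgroup.zero_mem _

private theorem Poly_homP {G : Gr Γ S} {δ : Γ} {G' : Gr Γ S[X]} (hG' : ∀ γ p, p ∈ G'.deg γ ↔ ∀ i : ℕ, p.coeff i ∈ G.deg (γ - i • δ))
    {ι : Type} [DecidableEq ι] (a : ι → Γ) (D : ℕ) : HomM G' a (fun x : ι × Fin (D + 1) => a x.1 + (x.2 : ℕ) • δ) (Poly_MP ι D) := by
  intro i x
  obtain ⟨i', j⟩ := x
  show (if i' = i then X ^ (j : ℕ) else 0) ∈ G'.deg (a i' + (j : ℕ) • δ - a i)
  split_ifs with h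
  · rw [h, add_sub_cancel_left]
    exact Poly_X_mem hG' _
  · exact AddSubgroup.zero_mem _

private theorem Poly_homQ {G : Gr Γ S} {δ : Γ} {G' : Gr Γ S[X]} (hG' : ∀ γ p, p ∈ G'.deg γ ↔ ∀ i : ℕ, p.coeff i ∈ G.deg (γ - i • δ))
    {ι : Type} [DecidableEq ι] (a : ι → Γ) (D : ℕ) :
    HomM G' (fun x : ι × Fin (D + 2) => a x.1 + (x.2 : ℕ) • δ) (fun x : ι × Fin (D + 1) => a x.1 + ((x.2 : ℕ) + 1) • δ) (Poly_MQ ι D) := by
  intro x y
  obtain ⟨i, j⟩ := x
  obtain ⟨i', j'⟩ := y
  show (if i' = i then (if j = j'.succ then 1 else 0) - (if j = j'.castSucc then X else 0) else 0) ∈ G'.deg (a i' + ((j' : ℕ) + 1) • δ - (a i + (j : ℕ) • δ))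
  split_ifs with h h1 h2 h2
  · exfalso
    have h3 := congrArg Fin.val (h1.symm.trans h2)
    simp at h3
  · rw [h, h1, sub_zero, Fin.val_succ, sub_self]
    have h3 := Poly_X_mem hG' 0
    rwa [pow_zero, zero_smul] at h3
  · rw [h, h2, zero_sub, Fin.val_castSucc]
    have h3 := Poly_X_mem hG' 1
    rw [pow_one, one_smul] at h3
    have h4 : a i + ((j' : ℕ) + 1) • δ - (a i + (j' : ℕ) • δ) = δ := by
      rw [add_smul, one_smul]
      abel
    rw [h4]
    exact AddSubgroup.neg_mem _ h3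
  · rw [sub_zero]
    exact AddSubgroup.zero_mem _
  · exact AddSubgroup.zero_mem _

/-- `P` maps `extZ Z_D` to `Z` -/
private theorem Poly_P_mem {ι : Type} [Fintype ι] {Z : Submodule S[X] (ι → S[X])} {D : ℕ} {c : ι × Fin (D + 1) → S[X]} (hc : c ∈ extZ (Poly_Z Z D)) : Poly_P D c ∈ Z := by
  have h1 : c = ∑ e ∈ Finset.range ((∑ x, (c x).natDegree) + 1), (X ^ e : S[X]) • fun x => C ((c x).coeff e) := by
    funext x
    have h2 : (c x).natDegree < (∑ x, (c x).natDegree) + 1 :=
      Nat.lt_succ_of_le (Finset.single_le_sum (f := fun x => (c x).natDegree) (fun _ _ => Nat.zero_le _) (Finset.mem_univ x))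
    rw [Finset.sum_apply]
    conv_lhs => rw [(c x).as_sum_range' _ h2]
    refine Finset.sum_congr rfl fun e _ => ?_
    rw [Pi.smul_apply, smul_eq_mul, mul_comm, C_mul_X_pow_eq_monomial]
  rw [h1, map_sum]
  refine Z.sum_mem fun e _ => ?_
  rw [map_smul]
  exact Z.smul_mem _ (hc e)

/-- `Q` maps `extZ Z_D` to `extZ Z_(D+1)` -/
private theorem Poly_Q_mem {ι : Type} [DecidableEq ι] [Fintype ι] {Z : Submodule S[X] (ι → S[X])} {D : ℕ} {c : ι × Fin (D + 1) → S[X]} (hc : c ∈ extZ (Poly_Z Z D)) :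
    (Poly_MQ ι D).mulVec c ∈ extZ (Poly_Z Z (D + 1)) := by
  rw [Poly_MQ_mulVec]
  refine Submodule.sub_mem _ ?_ (Submodule.smul_mem _ _ ?_)
  · intro e
    rw [Poly_up_map (fun p : S[X] => p.coeff e) (coeff_zero e)]
    exact Poly_Z_up (hc e)
  · intro e
    rw [Poly_inc_map (fun p : S[X] => p.coeff e) (coeff_zero e)]
    exact Poly_Z_inc.2 (hc e)

private theorem Poly_PQ {ι : Type} [DecidableEq ι] [Fintype ι] {D : ℕ} (c : ι × Fin (D + 1) → S[X]) : Poly_P (D + 1) ((Poly_MQ ι D).mulVec c) = 0 := by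
  rw [Poly_MQ_mulVec, map_sub, map_smul, Poly_P_up, Poly_P_inc, sub_self]

/-- `Q` is injective -/
private theorem Poly_Q_inj {ι : Type} [DecidableEq ι] [Fintype ι] {D : ℕ} (c : ι × Fin (D + 1) → S[X]) (h : (Poly_MQ ι D).mulVec c = 0) : c = 0 := by
  rw [Poly_MQ_mulVec, sub_eq_zero] at h
  have h1 : ∀ p : S[X], X * p = 0 → p = 0 := fun p hp => by
    ext k
    rw [← coeff_X_mul, hp, coeff_zero, coeff_zero]
  funext x
  obtain ⟨i, j⟩ := x
  induction j using Fin.induction with
  | zero =>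
    have h2 := congrFun h (i, 0)
    rw [Poly_up_zero, Pi.smul_apply, smul_eq_mul, ← Fin.castSucc_zero, Poly_inc_castSucc] at h2
    exact h1 _ h2.symm
  | succ j ih =>
    have h2 := congrFun h (i, j.castSucc.succ)
    rw [Poly_up_succ, Pi.smul_apply, smul_eq_mul, Fin.succ_castSucc, Poly_inc_castSucc, ih] at h2
    exact h1 _ h2.symm

/-- the kernel of `P` on `extZ Z_(D+1)` is in the image of `Q` -/
private theorem Poly_ker {ι : Type} [DecidableEq ι] [Fintype ι] {Z : Submodule S[X] (ι → S[X])} {D : ℕ} (e : ℕ) :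
    ∀ c : ι × Fin (D + 2) → S[X], (∀ x, ∀ k, e ≤ k → (c x).coeff k = 0) → c ∈ extZ (Poly_Z Z (D + 1)) → Poly_P (D + 1) c = 0 →
    ∃ c' ∈ extZ (Poly_Z Z D), (Poly_MQ ι D).mulVec c' = c := by
  induction e with
  | zero =>
    intro c h0 _ _
    refine ⟨0, Submodule.zero_mem _, ?_⟩
    rw [Matrix.mulVec_zero]
    funext x
    ext k
    rw [h0 x k (Nat.zero_le _)]
    rfl
  | succ e ih =>
    intro c h0 hc hP
    rcases e with _ | e
    · refine ⟨0, Submodule.zero_mem _, ?_⟩
      rw [Matrix.mulVec_zero]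
      have h1 : c = fun x => C ((c x).coeff 0) := by
        funext x
        ext k
        rcases k with _ | k
        · rw [coeff_C_zero]
        · rw [h0 x _ (by omega), coeff_C_of_ne_zero (by omega)]
      rw [h1] at hP
      funext x
      obtain ⟨i, j⟩ := x
      have h2 := congrArg (fun p : S[X] => p.coeff j) (congrFun hP i)
      rw [Poly_P_C, dif_pos j.2] at h2
      rw [h1]
      show 0 = C ((c (i, j)).coeff 0)
      have h3 : (c (i, j)).coeff 0 = 0 := h2
      rw [h3, map_zero]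
    · -- the top coefficient vector
      have h1 : ∀ i, (c (i, Fin.last (D + 1))).coeff (e + 1) = 0 := by
        intro i
        have h2 := congrArg (fun p : S[X] => p.coeff (e + 1 + (D + 1))) (congrFun hP i)
        rw [Poly_P_apply, Fin.sum_univ_castSucc, coeff_add, finsetSum_coeff, Finset.sum_eq_zero, zero_add, Fin.val_last, coeff_X_pow_mul] at h2
        · exact h2
        · intro j _
          rw [coeff_X_pow_mul']
          split_ifs with h3
          · refine h0 _ _ ?_
            have h4 : ((j.castSucc : Fin (D + 2)) : ℕ) < D + 1 := j.2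
            omega
          · rfl
      have h2 : (fun x => (c x).coeff (e + 1)) = Poly_inc fun x : ι × Fin (D + 1) => (c (x.1, x.2.castSucc)).coeff (e + 1) := by
        funext x
        obtain ⟨i, j⟩ := x
        induction j using Fin.lastCases with
        | last =>
          rw [Poly_inc_last]
          exact h1 i
        | cast j => rw [Poly_inc_castSucc]
      have h3 : (fun x : ι × Fin (D + 1) => (c (x.1, x.2.castSucc)).coeff (e + 1)) ∈ Poly_Z Z D := by
        rw [← Poly_Z_inc, ← h2]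
        exact hc (e + 1)
      set z : ι × Fin (D + 1) → S := fun x : ι × Fin (D + 1) => (c (x.1, x.2.castSucc)).coeff (e + 1) with hz
      have h4 : (fun x => X ^ e * C (z x)) ∈ extZ (Poly_Z Z D) := by
        intro k
        by_cases hk : k = e
        · have h5 : (fun x => (X ^ e * C (z x)).coeff k) = z := by
            funext x
            rw [hk, coeff_X_pow_mul', if_pos le_rfl, Nat.sub_self, coeff_C_zero]
          rw [h5]
          exact h3
        · have h5 : (fun x => (X ^ e * C (z x)).coeff k) = 0 := by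
            funext x
            rw [coeff_X_pow_mul']
            split_ifs with h6
            · exact coeff_C_of_ne_zero (by omega)
            · rfl
          rw [h5]
          exact Submodule.zero_mem _
      have h10 : ∀ x, ∀ k, e + 1 ≤ k → ((c + (Poly_MQ ι D).mulVec (fun x => X ^ e * C (z x)) : ι × Fin (D + 2) → S[X]) x).coeff k = 0 := by
        intro x k hk
        rw [Poly_MQ_mulVec, Pi.add_apply, Pi.sub_apply, Pi.smul_apply, smul_eq_mul, coeff_add, coeff_sub]
        have h6 : (Poly_up (fun x => X ^ e * C (z x)) x).coeff k = 0 := by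
          have h7 := congrFun (Poly_up_map (fun p : S[X] => p.coeff k) (coeff_zero k) (fun x : ι × Fin (D + 1) => X ^ e * C (z x))) x
          have h8 : (fun x : ι × Fin (D + 1) => (X ^ e * C (z x)).coeff k) = 0 := by
            funext y
            rw [coeff_X_pow_mul', if_pos (by omega)]
            exact coeff_C_of_ne_zero (by omega)
          rw [h8] at h7
          refine h7.trans ?_
          obtain ⟨i, j⟩ := x
          induction j using Fin.cases with
          | zero => rfl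
          | succ j => rfl
        obtain ⟨k, rfl⟩ : ∃ k', k = k' + 1 := ⟨k - 1, by omega⟩
        have h9 : (Poly_inc (fun x => X ^ e * C (z x)) x).coeff k = (c x).coeff (k + 1) := by
          obtain ⟨i, j⟩ := x
          induction j using Fin.lastCases with
          | last =>
            rw [Poly_inc_last, coeff_zero]
            by_cases hk' : k = e
            · rw [hk', h1]
            · rw [h0 _ _ (by omega)]
          | cast j =>
            rw [Poly_inc_castSucc, coeff_X_pow_mul', if_pos (by omega)]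
            by_cases hk' : k = e
            · rw [hk', Nat.sub_self, coeff_C_zero]
            · rw [h0 _ _ (by omega), coeff_C_of_ne_zero (by omega)]
        rw [h6, coeff_X_mul, h9]
        ring
      obtain ⟨c', hc', h5⟩ := ih _ h10 (Submodule.add_mem _ hc (Poly_Q_mem h4)) (by rw [map_add, hP, Poly_PQ, zero_add])
      refine ⟨c' - fun x => X ^ e * C (z x), Submodule.sub_mem _ hc' h4, ?_⟩
      rw [Matrix.mulVec_sub, h5, add_sub_cancel_right]

/-- the leading coefficients -/
private def Poly_L {ι : Type} (Z : Submodule S[X] (ι → S[X])) (d : ℕ) : Submodule S (ι → S) where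
  carrier := {w | ∃ z ∈ Z, (∀ i k, d < k → (z i).coeff k = 0) ∧ ∀ i, (z i).coeff d = w i}
  zero_mem' := ⟨0, Z.zero_mem, fun i k _ => coeff_zero k, fun i => coeff_zero d⟩
  add_mem' := by
    rintro w w' ⟨z, hz, h1, h2⟩ ⟨z', hz', h1', h2'⟩
    refine ⟨z + z', Z.add_mem hz hz', fun i k hk => ?_, fun i => ?_⟩
    · rw [Pi.add_apply, coeff_add, h1 i k hk, h1' i k hk, add_zero]
    · rw [Pi.add_apply, coeff_add, h2, h2', Pi.add_apply]
  smul_mem' := by
    rintro s w ⟨z, hz, h1, h2⟩
    refine ⟨(C s : S[X]) • z, Z.smul_mem _ hz, fun i k hk => ?_, fun i => ?_⟩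
    · rw [Pi.smul_apply, smul_eq_mul, coeff_C_mul, h1 i k hk, mul_zero]
    · rw [Pi.smul_apply, smul_eq_mul, coeff_C_mul, h2, Pi.smul_apply, smul_eq_mul]

private theorem Poly_L_mono {ι : Type} (Z : Submodule S[X] (ι → S[X])) : Monotone (Poly_L Z) := by
  refine monotone_nat_of_le_succ fun d => ?_
  rintro w ⟨z, hz, h1, h2⟩
  refine ⟨(X : S[X]) • z, Z.smul_mem _ hz, fun i k hk => ?_, fun i => ?_⟩
  · obtain ⟨k, rfl⟩ : ∃ k', k = k' + 1 := ⟨k - 1, by omega⟩
    rw [Pi.smul_apply, smul_eq_mul, coeff_X_mul, h1 i k (by omega)]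
  · rw [Pi.smul_apply, smul_eq_mul, coeff_X_mul, h2]

/-- `Z` is the image of `extZ Z_(D+1)` -/
private theorem Poly_surj {ι : Type} {Z : Submodule S[X] (ι → S[X])} {D : ℕ} (hD : ∀ m, D ≤ m → Poly_L Z D = Poly_L Z m) (d : ℕ) :
    ∀ z ∈ Z, (∀ i k, D + 1 + d < k → (z i).coeff k = 0) → ∃ c ∈ extZ (Poly_Z Z (D + 1)), Poly_P (D + 1) c = z := by
  induction d with
  | zero =>
    intro z hz h0
    have h1 : Poly_P (D + 1) (fun x => C ((z x.1).coeff (x.2 : ℕ))) = z := by
      funext i
      ext k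
      rw [Poly_P_C (D + 1) (fun x : ι × Fin (D + 2) => (z x.1).coeff (x.2 : ℕ))]
      split_ifs with h
      · rfl
      · rw [h0 i k (by omega)]
    refine ⟨fun x => C ((z x.1).coeff (x.2 : ℕ)), fun e => ?_, h1⟩
    rcases e with _ | e
    · have h2 : (fun x : ι × Fin (D + 2) => (C ((z x.1).coeff (x.2 : ℕ))).coeff 0) = fun x => (z x.1).coeff (x.2 : ℕ) := by
        funext x
        exact coeff_C_zero
      rw [h2, Poly_mem_Z, h1]
      exact hz
    · have h2 : (fun x : ι × Fin (D + 2) => (C ((z x.1).coeff (x.2 : ℕ))).coeff (e + 1)) = 0 := by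
        funext x
        exact coeff_C_of_ne_zero (by omega)
      rw [h2]
      exact Submodule.zero_mem _
  | succ d ih =>
    intro z hz h0
    have h1 : (fun i => (z i).coeff (D + 1 + (d + 1))) ∈ Poly_L Z (D + 1 + (d + 1)) := ⟨z, hz, h0, fun i => rfl⟩
    rw [← hD _ (by omega), hD (D + 1 + d) (by omega)] at h1
    obtain ⟨z', hz', h2, h3⟩ := h1
    obtain ⟨c', hc', h4⟩ := ih z' hz' h2
    obtain ⟨c, hc, h5⟩ := ih (z - (X : S[X]) • z') (Z.sub_mem hz (Z.smul_mem _ hz')) (by
      intro i k hk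
      obtain ⟨k, rfl⟩ : ∃ k', k = k' + 1 := ⟨k - 1, by omega⟩
      rw [Pi.sub_apply, Pi.smul_apply, smul_eq_mul, coeff_sub, coeff_X_mul]
      by_cases hk' : k = D + 1 + d
      · rw [hk', h3]
        exact sub_self _
      · rw [h0 i _ (by omega), h2 i _ (by omega), sub_self])
    refine ⟨c + (X : S[X]) • c', Submodule.add_mem _ hc (Submodule.smul_mem _ _ hc'), ?_⟩
    rw [map_add, map_smul, h4, h5, sub_add_cancel]

theorem gsyz_poly [IsNoetherianRing S] {G : Gr Γ S} (hG : GSyz G) (δ : Γ) {G' : Gr Γ S[X]} (hG' : ∀ γ p, p ∈ G'.deg γ ↔ ∀ i : ℕ, p.coeff i ∈ G.deg (γ - i • δ)) : GSyz G' := by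
  classical
  intro ι _ a Z hZ
  obtain ⟨D, hD⟩ := monotone_stabilizes_iff_noetherian.2 (inferInstance : IsNoetherian S (ι → S)) ⟨Poly_L Z, Poly_L_mono Z⟩
  have hD' : ∀ m, D ≤ m → Poly_L Z D = Poly_L Z m := hD
  have hC : ∀ γ s, s ∈ G.deg γ → C s ∈ G'.deg γ := by
    intro γ s hs
    rw [hG']
    intro i
    rw [coeff_C]
    split_ifs with h
    · rw [h, zero_smul, sub_zero]
      exact hs
    · exact AddSubgroup.zero_mem _
  obtain ⟨l', h'⟩ := hG _ _ _ (Poly_gsub' hG' hZ D)
  obtain ⟨l'', h''⟩ := hG _ _ _ (Poly_gsub hG' hZ (D + 1))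
  refine cone (Poly_homP hG' a (D + 1)) (Poly_homQ hG' a D) ?_ ?_ ?_ (ffr_ext hC l' h') (ffr_ext hC l'' h'')
  · ext z
    constructor
    · rintro ⟨c, hc, rfl⟩
      rw [Matrix.mulVecLin_apply, Poly_MP_mulVec]
      exact Poly_P_mem hc
    · intro hz
      obtain ⟨c, hc, h1⟩ := Poly_surj hD' (∑ i, (z i).natDegree) z hz (by
        intro i k hk
        refine coeff_eq_zero_of_natDegree_lt ?_
        have h1 : (z i).natDegree ≤ ∑ i, (z i).natDegree := Finset.single_le_sum (f := fun i => (z i).natDegree) (fun _ _ => Nat.zero_le _) (Finset.mem_univ i)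
        omega)
      refine ⟨c, hc, ?_⟩
      rw [Matrix.mulVecLin_apply, Poly_MP_mulVec, h1]
  · ext c
    constructor
    · rintro ⟨hc, hP⟩
      rw [SetLike.mem_coe, LinearMap.mem_ker, Matrix.mulVecLin_apply, Poly_MP_mulVec] at hP
      obtain ⟨c', hc', h1⟩ := Poly_ker ((∑ x, (c x).natDegree) + 1) c (by
        intro x k hk
        refine coeff_eq_zero_of_natDegree_lt ?_
        have h1 : (c x).natDegree ≤ ∑ x, (c x).natDegree := Finset.single_le_sum (f := fun x => (c x).natDegree) (fun _ _ => Nat.zero_le _) (Finset.mem_univ x)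
        omega) hc hP
      exact ⟨c', hc', h1⟩
    · rintro ⟨c', hc', rfl⟩
      refine ⟨Poly_Q_mem hc', ?_⟩
      rw [SetLike.mem_coe, LinearMap.mem_ker, Matrix.mulVecLin_apply, Poly_MP_mulVec, Matrix.mulVecLin_apply, Poly_PQ]
  · intro c _ h
    exact Poly_Q_inj c h

end Pool.Agent.SR
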