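import Pool.Agent.SR.Main

/-!
# SR Stmt: the theorem of `SR.Main` over the subalgebra of `K k n` generated by the `x_i y_j / q`

`OU k n` is the ring of functions on `U` (it is equal to `As k n`), `IsTw k n i` are the sections of `p_1^* O(i)`, `D.Sec` those of `p_1^* F`, `F` the kernel of the matrix of `D`.
-/

set_option autoImplicit false

namespace Pool.Agent.SR

open MvPolynomial

universe u v

variable (k : Type u) [Field k] (n : ℕ)

/-- `x_0 y_0 + ... + x_n y_n`, where `x_i` is the variable `Sum.inl i` and `y_i` the variable `Sum.inr i` -/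
noncomputable def Q : MvPolynomial (Fin (n + 1) ⊕ Fin (n + 1)) k := ∑ i, X (Sum.inl i) * X (Sum.inr i)

/-- a polynomial as an element of the field of fractions -/
noncomputable def toF (g : MvPolynomial (Fin (n + 1) ⊕ Fin (n + 1)) k) : FractionRing (MvPolynomial (Fin (n + 1) ⊕ Fin (n + 1)) k) :=
  algebraMap (MvPolynomial (Fin (n + 1) ⊕ Fin (n + 1)) k) (FractionRing (MvPolynomial (Fin (n + 1) ⊕ Fin (n + 1)) k)) g

/-- `x_i y_j / Q` in the field of fractions -/
noncomputable def Gen (p : Fin (n + 1) × Fin (n + 1)) : FractionRing (MvPolynomial (Fin (n + 1) ⊕ Fin (n + 1)) k) :=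
  toF k n (X (Sum.inl p.1) * X (Sum.inr p.2)) / toF k n (Q k n)

/-- the ring of functions on `U`: the subalgebra of the field of fractions generated by the `x_i y_j / Q` -/
noncomputable def OU : Subalgebra k (FractionRing (MvPolynomial (Fin (n + 1) ⊕ Fin (n + 1)) k)) := Algebra.adjoin k (Set.range (Gen k n))

/-- the bidegrees of the variables: `(1, 0)` for `x_i` and `(0, 1)` for `y_i` -/
def bideg : Fin (n + 1) ⊕ Fin (n + 1) → ℤ × ℤ := Sum.elim (fun _ => (1, 0)) (fun _ => (0, 1))

/-- `z = g / Q^m` with `g` bihomogeneous of bidegree `(m + i, m)`: a section of `p_1^* O(i)` over `U` -/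
def IsTw (i : ℤ) (z : FractionRing (MvPolynomial (Fin (n + 1) ⊕ Fin (n + 1)) k)) : Prop :=
  ∃ (m : ℕ) (g : MvPolynomial (Fin (n + 1) ⊕ Fin (n + 1)) k), IsWeightedHomogeneous (bideg n) g ((m : ℤ) + i, (m : ℤ)) ∧
    z * toF k n (Q k n) ^ m = toF k n g

variable {k n}

/-- a section over `U` of the pull-back `p_1^* F` of the kernel `F` of the matrix of `D` -/
def Bun.Sec (D : Bun k n) (w : Fin D.s → FractionRing (MvPolynomial (Fin (n + 1) ⊕ Fin (n + 1)) k)) : Prop :=
  (∀ i, IsTw k n (D.a i) (w i)) ∧ ∀ j, ∑ i, toF k n (rename Sum.inl (D.M j i)) * w i = 0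

private theorem Stmt_wt (d : V n →₀ ℕ) : Finsupp.weight (wt n) d = (((∑ i, d (Sum.inl i) : ℕ) : ℤ), ((∑ i, d (Sum.inr i) : ℕ) : ℤ)) := by
  rw [Finsupp.weight_apply, Finsupp.sum_fintype _ _ (by intro i; simp), Fintype.sum_sum_type]
  ext <;> simp [wt, Prod.fst_sum, Prod.snd_sum]

private theorem Stmt_mono (c : k) (m : ℕ) : ∀ (d : V n →₀ ℕ), ∑ i, d (Sum.inl i) = m → ∑ i, d (Sum.inr i) = m →
    em k n (monomial d c) / em k n (q k n) ^ m ∈ OU k n := by
  induction m with
  | zero =>
    intro d h1 h2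
    have hd : d = 0 := by
      ext v
      rcases v with i | i
      · exact (Finset.sum_eq_zero_iff.1 h1) i (Finset.mem_univ _)
      · exact (Finset.sum_eq_zero_iff.1 h2) i (Finset.mem_univ _)
    rw [hd, pow_zero, div_one]
    have : em k n (monomial 0 c) = algebraMap k (K k n) c := (IsScalarTower.algebraMap_apply k (T k n) (K k n) c).symm
    rw [this]
    exact (OU k n).algebraMap_mem c
  | succ m ih =>
    intro d h1 h2
    obtain ⟨i, hi⟩ : ∃ i, d (Sum.inl i) ≠ 0 := by
      by_contra hc
      push Not at hc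
      simp [hc] at h1
    obtain ⟨j, hj⟩ : ∃ j, d (Sum.inr j) ≠ 0 := by
      by_contra hc
      push Not at hc
      simp [hc] at h2
    have hle : Finsupp.single (Sum.inl i : V n) 1 + Finsupp.single (Sum.inr j : V n) 1 ≤ d := by
      intro v
      rcases v with a | a
      · by_cases ha : a = i
        · subst ha
          simp
          omega
        · have : (Sum.inl i : V n) ≠ Sum.inl a := fun h => ha (Sum.inl_injective h).symm
          simp [this]
      · by_cases ha : a = j
        · subst ha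
          simp
          omega
        · have : (Sum.inr j : V n) ≠ Sum.inr a := fun h => ha (Sum.inr_injective h).symm
          simp [this]
    obtain ⟨e, he⟩ := exists_add_of_le hle
    have h3 : ∑ a, e (Sum.inl a) = m := by
      have : ∑ a, d (Sum.inl a) = 1 + ∑ a, e (Sum.inl a) := by
        rw [he]
        simp [Finset.sum_add_distrib, Finsupp.single_apply]
      omega
    have h4 : ∑ a, e (Sum.inr a) = m := by
      have : ∑ a, d (Sum.inr a) = 1 + ∑ a, e (Sum.inr a) := by
        rw [he]
        simp [Finset.sum_add_distrib, Finsupp.single_apply]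
      omega
    have h5 := ih e h3 h4
    have h6 : Gen k n (i, j) ∈ OU k n := Algebra.subset_adjoin ⟨(i, j), rfl⟩
    have h7 : em k n (monomial d c) / em k n (q k n) ^ (m + 1) = Gen k n (i, j) * (em k n (monomial e c) / em k n (q k n) ^ m) := by
      have h8 : monomial d c = X (Sum.inl i) * X (Sum.inr j) * monomial e c := by
        rw [X, X, monomial_mul, monomial_mul, he]
        simp [add_assoc]
      rw [h8, em_mul, pow_succ, Gen]
      change _ = em k n (X (Sum.inl i) * X (Sum.inr j)) / em k n (q k n) * (em k n (monomial e c) / em k n (q k n) ^ m)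
      rw [div_mul_div_comm, mul_comm (em k n (q k n) ^ m)]
    rw [h7]
    exact (OU k n).mul_mem h6 h5

theorem OU_eq : OU k n = As k n := by
  apply le_antisymm
  · refine Algebra.adjoin_le ?_
    rintro _ ⟨p, rfl⟩
    refine ⟨1, X (Sum.inl p.1) * X (Sum.inr p.2), ((Bi.x p.1).mul (Bi.y p.2)).cast (by norm_num) (by norm_num), ?_⟩
    rw [pow_one]
    exact div_mul_cancel₀ _ (emq_ne_zero (k := k) (n := n))
  · rintro z ⟨m, g, hg, hz⟩
    have h1 : z = em k n g / em k n (q k n) ^ m := by
      rw [← hz, mul_div_assoc, div_self (pow_ne_zero _ emq_ne_zero), mul_one]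
    rw [h1, g.as_sum, em_sum, Finset.sum_div]
    refine (OU k n).sum_mem fun d hd => ?_
    have h2 := hg (mem_support_iff.1 hd)
    rw [Stmt_wt, Prod.mk.injEq] at h2
    refine Stmt_mono _ m d ?_ ?_
    · exact_mod_cast h2.1
    · exact_mod_cast h2.2

private theorem Stmt_aux (S : Subalgebra k (K k n)) (hS : S = As k n) (E : Type v) [AddCommGroup E] [Module S E] [Module.Finite S E] [Module.Projective S E]
    (hE : ∀ p : PrimeSpectrum S, 2 * n + 1 ≤ Module.rankAtStalk E p) :
    ∃ (D : Bun k n) (φ : E → Fin D.s → FractionRing (MvPolynomial (Fin (n + 1) ⊕ Fin (n + 1)) k)), (∀ x y, φ (x + y) = φ x + φ y) ∧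
      (∀ (a : S) (x : E), φ (a • x) = (a : FractionRing (MvPolynomial (Fin (n + 1) ⊕ Fin (n + 1)) k)) • φ x) ∧ Function.Injective φ ∧ ∀ w, D.Sec w ↔ ∃ x, φ x = w := by
  subst hS
  let i1 : Module (A k n) E := inferInstanceAs (Module (As k n) E)
  have i2 : Module.Finite (A k n) E := inferInstanceAs (Module.Finite (As k n) E)
  have i3 : Module.Projective (A k n) E := inferInstanceAs (Module.Projective (As k n) E)
  have hE' : ∀ p : PrimeSpectrum (A k n), 2 * n + 1 ≤ Module.rankAtStalk E p := fun p => hE p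
  obtain ⟨D, ⟨e⟩⟩ := main E hE'
  refine ⟨D, fun x => (e x : Fin D.s → K k n), fun x y => ?_, fun a x => ?_, ?_, ?_⟩
  · have h := e.map_add x y
    exact congrArg Subtype.val h
  · have h := e.map_smul a x
    exact congrArg Subtype.val h
  · intro x y h
    exact e.injective (Subtype.ext h)
  · intro w
    constructor
    · intro hw
      exact ⟨e.symm ⟨w, hw⟩, congrArg Subtype.val (e.apply_symm_apply ⟨w, hw⟩)⟩
    · rintro ⟨x, rfl⟩
      exact (e x).2

theorem stmt (E : Type v) [AddCommGroup E] [Module (OU k n) E] [Module.Finite (OU k n) E] [Module.Projective (OU k n) E]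
    (hE : ∀ p : PrimeSpectrum (OU k n), 2 * n + 1 ≤ Module.rankAtStalk E p) :
    ∃ (D : Bun k n) (φ : E → Fin D.s → FractionRing (MvPolynomial (Fin (n + 1) ⊕ Fin (n + 1)) k)), (∀ x y, φ (x + y) = φ x + φ y) ∧
      (∀ (a : OU k n) (x : E), φ (a • x) = (a : FractionRing (MvPolynomial (Fin (n + 1) ⊕ Fin (n + 1)) k)) • φ x) ∧ Function.Injective φ ∧ ∀ w, D.Sec w ↔ ∃ x, φ x = w :=
  Stmt_aux (OU k n) OU_eq E hE

end Pool.Agent.SR
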