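import Pool.Agent.SR.Defs

/-!
# SR TwA: elements of the modules `twist k n i`

`exists_dual`: for `i = 1` take `u = x`, `v = y / q`, for `i = -1` exchange them; if it is true for `i` and `j` it is true for `i + j` (products), so it is true for all `i`.
-/

set_option autoImplicit false

namespace Pool.Agent.SR

open MvPolynomial

universe u

variable {k : Type u} [Field k] {n : ℕ}

theorem mem_A_iff (z : K k n) : z ∈ twist k n 0 ↔ ∃ a : A k n, algebraMap (A k n) (K k n) a = z := by
  constructor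
  · rintro ⟨m, g, hg, h⟩
    exact A.mk (hg.cast (add_zero _) rfl) h
  · rintro ⟨a, rfl⟩
    obtain ⟨m, g, hg, h⟩ := a.exists
    exact ⟨m, g, hg.cast (add_zero _).symm rfl, h⟩

theorem twist_mul {i j : ℤ} {z w : K k n} (hz : z ∈ twist k n i) (hw : w ∈ twist k n j) : z * w ∈ twist k n (i + j) := by
  obtain ⟨m, g, hg, hz⟩ := hz
  obtain ⟨l, h, hh, hw⟩ := hw
  refine ⟨m + l, g * h, (hg.mul hh).cast (by push_cast; ring) (by push_cast; ring), ?_⟩
  rw [em_mul, ← hz, ← hw]
  ring

theorem x_mem (l : Fin (n + 1)) : em k n (X (Sum.inl l)) ∈ twist k n 1 :=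
  ⟨0, X (Sum.inl l), (Bi.x l).cast (by norm_num) (by norm_num), by rw [pow_zero, mul_one]⟩

theorem y_mem (l : Fin (n + 1)) : em k n (X (Sum.inr l)) / em k n (q k n) ∈ twist k n (-1) :=
  ⟨1, X (Sum.inr l), (Bi.y l).cast (by norm_num) (by norm_num), by rw [pow_one, div_mul_cancel₀ _ emq_ne_zero]⟩

theorem sum_xy : ∑ l : Fin (n + 1), em k n (X (Sum.inl l)) * (em k n (X (Sum.inr l)) / em k n (q k n)) = 1 := by
  have h : ∀ l : Fin (n + 1), em k n (X (Sum.inl l)) * (em k n (X (Sum.inr l)) / em k n (q k n))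
      = em k n (X (Sum.inl l) * X (Sum.inr l)) / em k n (q k n) := by
    intro l
    rw [em_mul, mul_div_assoc]
  rw [Finset.sum_congr rfl fun l _ => h l, ← Finset.sum_div, ← em_sum]
  exact div_self emq_ne_zero

/-- a form of degree `d` in `x_0, ..., x_n` is in `twist d` -/
theorem ev_mem {d : ℕ} {p : MvPolynomial (Fin (n + 1)) k} (hp : p.IsHomogeneous d) : ev k n p ∈ twist k n d := by
  refine ⟨0, rename Sum.inl p, ?_, ?_⟩
  · have h : Bi k n d 0 (rename Sum.inl p) := by
      intro m hm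
      obtain ⟨u, rfl, hu⟩ := coeff_rename_ne_zero Sum.inl p m hm
      have hd := hp hu
      rw [Finsupp.weight_apply, Finsupp.sum] at hd
      rw [Finsupp.weight_apply, Finsupp.sum_mapDomain_index (h := fun i c => c • wt n i) (fun _ => zero_smul _ _) (fun _ _ _ => add_smul _ _ _),
        Finsupp.sum, ← hd]
      ext
      · rw [Prod.fst_sum]
        simp [wt]
      · rw [Prod.snd_sum]
        simp [wt]
    exact h.cast (by norm_num) (by norm_num)
  · rw [pow_zero, mul_one]
    rfl

/-- the property of `exists_dual`, with any finite index type -/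
private def TwAD (k : Type u) [Field k] (n : ℕ) (i : ℤ) : Prop :=
  ∃ (ι : Type) (_ : Fintype ι) (u v : ι → K k n), (∀ l, u l ∈ twist k n i) ∧ (∀ l, v l ∈ twist k n (-i)) ∧ ∑ l, u l * v l = 1

private theorem TwA_add {i j : ℤ} (hi : TwAD k n i) (hj : TwAD k n j) : TwAD k n (i + j) := by
  obtain ⟨ι, hι, u, v, hu, hv, h⟩ := hi
  obtain ⟨κ, hκ, s, t, hs, ht, h'⟩ := hj
  refine ⟨ι × κ, inferInstance, fun l => u l.1 * s l.2, fun l => v l.1 * t l.2, fun l => twist_mul (hu _) (hs _), fun l => ?_, ?_⟩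
  · rw [neg_add]
    exact twist_mul (hv _) (ht _)
  · rw [Fintype.sum_prod_type]
    have h1 : ∀ x : ι, ∑ y : κ, u x * s y * (v x * t y) = u x * v x := by
      intro x
      have h2 : ∀ y : κ, u x * s y * (v x * t y) = u x * v x * (s y * t y) := fun y => by ring
      rw [Finset.sum_congr rfl fun y _ => h2 y, ← Finset.mul_sum, h', mul_one]
    rw [Finset.sum_congr rfl fun x _ => h1 x, h]

private theorem TwA_one : TwAD k n 1 :=
  ⟨Fin (n + 1), inferInstance, fun l => em k n (X (Sum.inl l)), fun l => em k n (X (Sum.inr l)) / em k n (q k n), x_mem, y_mem, sum_xy⟩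

private theorem TwA_neg {i : ℤ} (hi : TwAD k n i) : TwAD k n (-i) := by
  obtain ⟨ι, hι, u, v, hu, hv, h⟩ := hi
  refine ⟨ι, hι, v, u, hv, fun l => by rw [neg_neg]; exact hu l, ?_⟩
  rw [← h]
  exact Finset.sum_congr rfl fun l _ => mul_comm _ _

private theorem TwA_zero : TwAD k n 0 := by
  have h1 : (1 : K k n) ∈ twist k n 0 := ⟨0, 1, (Bi.one).cast (by norm_num) (by norm_num), by rw [pow_zero, mul_one, em_one]⟩
  exact ⟨Unit, inferInstance, fun _ => 1, fun _ => 1, fun _ => h1, fun _ => by rw [neg_zero]; exact h1, by simp⟩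

theorem exists_dual (i : ℤ) : ∃ (N : ℕ) (u v : Fin N → K k n), (∀ l, u l ∈ twist k n i) ∧ (∀ l, v l ∈ twist k n (-i)) ∧ ∑ l, u l * v l = 1 := by
  have key : TwAD k n i := by
    induction i using Int.induction_on with
    | zero => exact TwA_zero
    | succ i ih => exact TwA_add ih TwA_one
    | pred i ih => exact TwA_add ih (TwA_neg TwA_one)
  obtain ⟨ι, hι, u, v, hu, hv, h⟩ := key
  let e := Fintype.equivFin ι
  refine ⟨Fintype.card ι, fun l => u (e.symm l), fun l => v (e.symm l), fun l => hu _, fun l => hv _, ?_⟩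
  rw [← h]
  exact Equiv.sum_comp e.symm (fun l => u l * v l)

end Pool.Agent.SR
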