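import Pool.Agent.SR.EEE

/-!
# SR Uni: unimodular elements

`R` noetherian with a dimension function `δ ≤ d`, `P` finite projective of rank `> d`.
`unimod`: `P` is a direct summand of `Fin N → R` (`i : P → R^N`, `p : R^N → P`, `p i = 1`), `u_0 = x`, `u_1, ..., u_m` generators of `P`, `U` the matrix of the `i u_j`; the rank of `U` at a prime is the
dimension of the fibre of `P` (`rankAtStalk_eq_finrank_tensorProduct`, `Ideal.finrank_fiber_eq_rankAtStalk`).  By `basic` there is a `y = ∑ c_j u_j` such that the coordinates of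
`i (x + a y)` generate the unit ideal.
-/

set_option autoImplicit false

namespace Pool.Agent.SR

universe u v w w'

variable {R : Type u} [CommRing R]

open TensorProduct in
/-- the dimension of a fibre is the rank of the matrix of the projector -/
private theorem uni_rank {P : Type v} [AddCommGroup P] [Module R P] {n : ℕ}
    (f : (Fin n → R) →ₗ[R] P) (s : P →ₗ[R] (Fin n → R)) (hfs : f ∘ₗ s = LinearMap.id)
    (K : Type u) [Field K] [Algebra R K] :
    Module.finrank K (K ⊗[R] P) = ((LinearMap.toMatrix (Pi.basisFun R (Fin n)) (Pi.basisFun R (Fin n))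
      (s ∘ₗ f)).map (algebraMap R K)).rank := by
  rw [← LinearMap.toMatrix_baseChange,
    Matrix.rank_eq_finrank_range_toLin _ (Algebra.TensorProduct.basis K (Pi.basisFun R (Fin n)))
      (Algebra.TensorProduct.basis K (Pi.basisFun R (Fin n))), Matrix.toLin_toMatrix]
  have h1 : f.baseChange K ∘ₗ s.baseChange K = LinearMap.id := by
    rw [← LinearMap.baseChange_comp, hfs, LinearMap.baseChange_id]
  have hinj : Function.Injective (s.baseChange K) := by
    intro a b hab
    have := congrArg (f.baseChange K) hab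
    rwa [← LinearMap.comp_apply, ← LinearMap.comp_apply, h1] at this
  have hsur : Function.Surjective (f.baseChange K) := by
    intro a
    exact ⟨s.baseChange K a, by rw [← LinearMap.comp_apply, h1]; rfl⟩
  rw [LinearMap.baseChange_comp, LinearMap.range_comp_of_range_eq_top _ (LinearMap.range_eq_top.2 hsur)]
  exact (LinearMap.finrank_range_of_inj hinj).symm

/-- dropping the first column does not increase the rank -/
private theorem uni_cols {K : Type u} [Field K] {n N : ℕ} (U : Matrix (Fin N) (Fin (n + 1)) K) :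
    (U.submatrix id Fin.succ).rank ≤ U.rank := by
  have h : U.submatrix id Fin.succ = U * (1 : Matrix (Fin (n + 1)) (Fin (n + 1)) K).submatrix id Fin.succ := by
    ext i j
    simp [Matrix.mul_apply, Matrix.submatrix_apply, Matrix.one_apply]
  rw [h]
  exact Matrix.rank_mul_le_left _ _

theorem unimod [IsNoetherianRing R] {δ : PrimeSpectrum R → ℕ} (hδ : ∀ p p', p < p' → δ p' < δ p) {d : ℕ} (hd : ∀ p, δ p ≤ d) {P : Type v} [AddCommGroup P] [Module R P]
    [Module.Finite R P] [Module.Projective R P] (hP : ∀ p : PrimeSpectrum R, d + 1 ≤ Module.rankAtStalk P p) (x : P) (a : R) (ψ : P →ₗ[R] R) (b : R) (h : ψ x + b * a = 1) :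
    ∃ (y : P) (χ : P →ₗ[R] R), χ (x + a • y) = 1 := by
  obtain ⟨n, f, hf⟩ := Module.Finite.exists_fin' R P
  obtain ⟨s, hs⟩ := Module.projective_lifting_property f LinearMap.id hf
  have hfs : ∀ z : P, f (s z) = z := fun z => by
    rw [← LinearMap.comp_apply, hs]; rfl
  have hsum : ∀ v : Fin n → R, f v = ∑ i, v i • f (Pi.single i 1) := fun v => by
    conv_lhs => rw [pi_eq_sum_univ' v]
    simp [map_sum, map_smul]
  let U : Matrix (Fin n) (Fin (n + 1)) R :=
    Matrix.of fun i j => Fin.cases (s x i) (fun k => s (f (Pi.single k 1)) i) j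
  have hU0 : ∀ i, U i 0 = s x i := fun i => rfl
  have hUs : ∀ i (j : Fin n), U i j.succ = s (f (Pi.single j 1)) i := fun i j => rfl
  obtain ⟨c, hc⟩ := basic δ hδ a n U (fun p => by
    refine le_trans (min_le_right _ _) (le_trans (Nat.succ_le_succ (hd p)) (le_trans (hP p) ?_))
    rw [Module.rankAtStalk_eq]
    have h1 := uni_rank f s hs p.asIdeal.ResidueField
    refine le_trans (le_of_eq h1) ?_
    have h2 : (LinearMap.toMatrix (Pi.basisFun R (Fin n)) (Pi.basisFun R (Fin n))
      (s ∘ₗ f)).map (algebraMap R p.asIdeal.ResidueField) =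
        (U.map (algebraMap R p.asIdeal.ResidueField)).submatrix id Fin.succ := by
      ext i j
      simp [Matrix.submatrix_apply, Matrix.map_apply, hUs]
    rw [h2]
    exact uni_cols _) (fun p hap => by
    by_contra hcon
    push Not at hcon
    have h1 : ψ x ∈ p.asIdeal := by
      rw [← hfs x, hsum, map_sum]
      refine Ideal.sum_mem _ fun i _ => ?_
      rw [map_smul, smul_eq_mul]
      exact Ideal.mul_mem_right _ _ (by rw [← hU0]; exact hcon i)
    have h2 : (1 : R) ∈ p.asIdeal := by
      rw [← h]
      exact Ideal.add_mem _ h1 (Ideal.mul_mem_left _ _ hap)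
    exact p.isPrime.ne_top ((Ideal.eq_top_iff_one _).2 h2))
  let y : P := ∑ j, c j • f (Pi.single j 1)
  have hy : ∀ i, s (x + a • y) i = U i 0 + a * ∑ j : Fin n, c j * U i j.succ := fun i => by
    simp only [y, map_add, map_smul, map_sum, Pi.add_apply, Pi.smul_apply, Finset.sum_apply, smul_eq_mul,
      hU0, hUs]
  have htop : Ideal.span (Set.range (s (x + a • y))) = ⊤ := by
    by_contra hne
    obtain ⟨M, hM, hle⟩ := Ideal.exists_le_maximal _ hne
    obtain ⟨i, hi⟩ := hc ⟨M, hM.isPrime⟩
    apply hi
    rw [← hy]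
    exact hle (Ideal.subset_span ⟨i, rfl⟩)
  obtain ⟨g, hg⟩ := (Ideal.mem_span_range_iff_exists_fun (R := R)).1 (htop ▸ Submodule.mem_top : (1 : R) ∈ Ideal.span (Set.range (s (x + a • y))))
  refine ⟨y, ∑ i, g i • (LinearMap.proj i ∘ₗ s), ?_⟩
  rw [LinearMap.sum_apply, ← hg]
  rfl

end Pool.Agent.SR
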